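import Pool.Agent.Work.MP_b0c12c_nt.Rough

/-!
# Mertens' second theorem with error term
-/

set_option autoImplicit false

open Finset Nat ArithmeticFunction
open Pool.Agent.Work.MP_b0c12c_nt (MM MM_ge MM_le)

namespace Pool.Agent.Work.MP_b0c12c_nt_helper41

/-- `∑_{p ≤ n} log p / p` -/
noncomputable def FF (n : ℕ) : ℝ := ∑ p ∈ (Icc 1 n).filter Nat.Prime, Real.log p / p

/-- `∑_{p ≤ n} 1 / p` -/
noncomputable def SS (n : ℕ) : ℝ := ∑ p ∈ (Icc 1 n).filter Nat.Prime, 1 / (p : ℝ)

theorem FF_succ (n : ℕ) : FF (n + 1) = FF n +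
    if (n + 1).Prime then Real.log ((n + 1 : ℕ) : ℝ) / ((n + 1 : ℕ) : ℝ) else 0 := by
  unfold FF
  rw [← Finset.insert_Icc_right_eq_Icc_add_one (by omega : 1 ≤ n + 1), filter_insert]
  split_ifs with h
  · rw [sum_insert (by simp), add_comm]
  · simp

theorem SS_succ (n : ℕ) : SS (n + 1) = SS n +
    if (n + 1).Prime then 1 / ((n + 1 : ℕ) : ℝ) else 0 := by
  unfold SS
  rw [← Finset.insert_Icc_right_eq_Icc_add_one (by omega : 1 ≤ n + 1), filter_insert]
  split_ifs with h
  · rw [sum_insert (by simp), add_comm]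
  · simp

theorem SS_sub {u v : ℕ} (h : u ≤ v) :
    SS v - SS u = ∑ p ∈ (Ioc u v).filter Nat.Prime, 1 / (p : ℝ) := by
  unfold SS
  have : (Icc 1 v).filter Nat.Prime = (Icc 1 u).filter Nat.Prime ∪ (Ioc u v).filter Nat.Prime := by
    ext p
    simp only [mem_filter, mem_Icc, mem_Ioc, mem_union]
    constructor
    · rintro ⟨⟨h1, h2⟩, h3⟩
      by_cases hp : p ≤ u
      · exact Or.inl ⟨⟨h1, hp⟩, h3⟩
      · exact Or.inr ⟨⟨by omega, h2⟩, h3⟩
    · rintro (⟨⟨h1, h2⟩, h3⟩ | ⟨⟨h1, h2⟩, h3⟩)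
      · exact ⟨⟨h1, by omega⟩, h3⟩
      · exact ⟨⟨h3.one_lt.le, h2⟩, h3⟩
  rw [this, sum_union]
  · ring
  · rw [Finset.disjoint_left]
    intro p hp hq
    rw [mem_filter, mem_Icc] at hp
    rw [mem_filter, mem_Ioc] at hq
    omega

theorem FF_le_MM (n : ℕ) : FF n ≤ MM n := by
  unfold FF MM
  calc ∑ p ∈ (Icc 1 n).filter Nat.Prime, Real.log p / p =
      ∑ p ∈ (Icc 1 n).filter Nat.Prime, vonMangoldt p / p := by
        apply sum_congr rfl
        intro p hp
        rw [vonMangoldt_apply_prime (mem_filter.1 hp).2]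
    _ ≤ _ := sum_le_sum_of_subset_of_nonneg (filter_subset _ _) fun d _ _ =>
        div_nonneg vonMangoldt_nonneg (Nat.cast_nonneg d)

theorem FF_le {n : ℕ} (hn : 1 ≤ n) : FF n ≤ Real.log n + 6 := (FF_le_MM n).trans (MM_le hn)

/-- non prime part -/
noncomputable def bb (d : ℕ) : ℝ := if d.Prime then 0 else vonMangoldt d

theorem bb_nonneg (d : ℕ) : 0 ≤ bb d := by
  unfold bb; split_ifs
  · exact le_rfl
  · exact vonMangoldt_nonneg

theorem MM_sub_FF (n : ℕ) : MM n - FF n = ∑ d ∈ Icc 1 n, bb d / d := by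
  unfold MM FF bb
  rw [sum_filter, ← sum_sub_distrib]
  apply sum_congr rfl
  intro d _
  split_ifs with h
  · rw [vonMangoldt_apply_prime h]; simp
  · simp

theorem sum_bb_le : ∃ C : ℝ, 0 ≤ C ∧ ∀ n : ℕ, ∑ d ∈ Icc 1 n, bb d ≤ C * Real.sqrt n := by
  obtain ⟨C, hC⟩ := Chebyshev.psi_sub_theta_le_mul_sqrt
  refine ⟨max C 0, le_max_right _ _, fun n => ?_⟩
  have h1 := hC n
  have h2 : Chebyshev.psi n - Chebyshev.theta n = ∑ d ∈ Icc 1 n, bb d := by
    rw [Chebyshev.psi_sub_theta_eq_sum_not_prime, Nat.floor_natCast]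
    unfold bb
    rw [sum_filter]
    apply sum_congr
    · ext d; simp [mem_Ioc, mem_Icc]; omega
    · intro d _
      split_ifs <;> rfl
  rw [← h2]
  exact h1.trans (mul_le_mul_of_nonneg_right (le_max_left _ _) (Real.sqrt_nonneg _))

theorem sqrt_step {n : ℕ} (hn : 1 ≤ n) :
    1 / (Real.sqrt n * ((n : ℝ) + 1)) ≤ 2 * (1 / Real.sqrt n - 1 / Real.sqrt (n + 1)) := by
  have hn0 : (0 : ℝ) < n := by exact_mod_cast hn
  set s := Real.sqrt n with hs
  set t := Real.sqrt ((n : ℝ) + 1) with ht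
  have hs0 : 0 < s := Real.sqrt_pos.2 hn0
  have ht0 : 0 < t := Real.sqrt_pos.2 (by linarith)
  have hs2 : s ^ 2 = n := Real.sq_sqrt hn0.le
  have ht2 : t ^ 2 = n + 1 := Real.sq_sqrt (by linarith)
  have hst : s ≤ t := Real.sqrt_le_sqrt (by linarith)
  rw [← ht2]
  have e : 2 * (1 / s - 1 / t) = 2 * (t - s) * t / (s * t ^ 2) := by field_simp
  rw [e]
  apply div_le_div_of_nonneg_right _ (by positivity)
  nlinarith

theorem sum_bb_div_le : ∃ C : ℝ, 0 ≤ C ∧ ∀ n : ℕ, ∑ d ∈ Icc 1 n, bb d / d ≤ C := by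
  obtain ⟨C, hC0, hC⟩ := sum_bb_le
  have key : ∀ n : ℕ, ∑ d ∈ Icc 1 (n + 1), bb d / d - (∑ d ∈ Icc 1 (n + 1), bb d) / ((n + 1 : ℕ) : ℝ)
      ≤ 2 * C * (1 - 1 / Real.sqrt ((n + 1 : ℕ) : ℝ)) := by
    intro n
    induction n with
    | zero => simp [bb]
    | succ n ih =>
      rw [← Finset.insert_Icc_right_eq_Icc_add_one (by omega : 1 ≤ n + 1 + 1), sum_insert (by simp),
        sum_insert (by simp)]
      have hB := hC (n + 1)
      set B := ∑ d ∈ Icc 1 (n + 1), bb d with hBd
      set A := ∑ d ∈ Icc 1 (n + 1), bb d / (d : ℝ) with hAd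
      have hst := sqrt_step (n := n + 1) (by omega)
      have hm0 : (0 : ℝ) < ((n + 1 : ℕ) : ℝ) := by positivity
      have e1 : (((n + 1 + 1 : ℕ)) : ℝ) = ((n + 1 : ℕ) : ℝ) + 1 := by push_cast; ring
      rw [e1]
      set m : ℝ := ((n + 1 : ℕ) : ℝ) with hm
      have hs0 : 0 < Real.sqrt m := Real.sqrt_pos.2 hm0
      have e2 : bb (n + 1 + 1) / (m + 1) + A - (bb (n + 1 + 1) + B) / (m + 1) =
          (A - B / m) + B * (1 / (m * (m + 1))) := by
        field_simp; ring
      rw [e2]
      have e3 : B * (1 / (m * (m + 1))) ≤ C * (1 / (Real.sqrt m * (m + 1))) := by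
        calc B * (1 / (m * (m + 1))) ≤ C * Real.sqrt m * (1 / (m * (m + 1))) :=
              mul_le_mul_of_nonneg_right hB (by positivity)
          _ = C * (1 / (Real.sqrt m * (m + 1))) := by
              have : Real.sqrt m * Real.sqrt m = m := Real.mul_self_sqrt hm0.le
              rw [mul_assoc]
              congr 1
              rw [mul_one_div, div_eq_div_iff (by positivity) (by positivity)]
              linear_combination (m + 1) * this
      have e4 := mul_le_mul_of_nonneg_left hst hC0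
      linarith
  refine ⟨3 * C, by positivity, fun n => ?_⟩
  rcases Nat.eq_zero_or_pos n with rfl | hn
  · simp; positivity
  obtain ⟨k, rfl⟩ : ∃ k, n = k + 1 := ⟨n - 1, by omega⟩
  have h1 := key k
  have h2 := hC (k + 1)
  have hm1 : (1 : ℝ) ≤ ((k + 1 : ℕ) : ℝ) := by exact_mod_cast hn
  set m : ℝ := ((k + 1 : ℕ) : ℝ) with hm
  have h3 : 0 ≤ 1 / Real.sqrt m := by positivity
  have h4 : (∑ d ∈ Icc 1 (k + 1), bb d) / m ≤ C := by
    rw [div_le_iff₀ (by linarith)]
    refine h2.trans (mul_le_mul_of_nonneg_left ?_ hC0)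
    rw [Real.sqrt_le_left (by linarith)]
    nlinarith
  nlinarith

/-- Mertens' first theorem. -/
theorem mertens1 : ∃ C : ℝ, 0 < C ∧ ∀ n : ℕ, 1 ≤ n → |FF n - Real.log n| ≤ C := by
  obtain ⟨C, hC0, hC⟩ := sum_bb_div_le
  refine ⟨6 + C, by positivity, fun n hn => ?_⟩
  have h1 := MM_sub_FF n
  have h2 := hC n
  have h3 := MM_ge hn
  have h4 := FF_le hn
  rw [abs_le]
  constructor <;> linarith

/-- Mertens' second theorem. -/
theorem mertens2 : ∃ C : ℝ, 0 < C ∧ ∀ u v : ℕ, 2 ≤ u → u ≤ v →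
    |∑ p ∈ (Ioc u v).filter Nat.Prime, 1 / (p : ℝ) -
      (Real.log (Real.log v) - Real.log (Real.log u))| ≤ C / Real.log u := by
  obtain ⟨C, hC0, hC⟩ := mertens1
  set E : ℕ → ℝ := fun n => FF n - Real.log n with hE
  set U : ℕ → ℝ := fun n => SS n - E n / Real.log n - Real.log (Real.log n) -
    (C + 1) / Real.log n with hU
  set V : ℕ → ℝ := fun n => SS n - E n / Real.log n - Real.log (Real.log n) +
    C / Real.log n with hV
  have step : ∀ n : ℕ, 2 ≤ n → U n ≤ U (n + 1) ∧ V (n + 1) ≤ V n := by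
    intro n hn
    have hn0 : (0 : ℝ) < n := by exact_mod_cast (by omega : 0 < n)
    have hl : 0 < Real.log n := Real.log_pos (by exact_mod_cast (by omega : 1 < n))
    have hll : Real.log n < Real.log ((n + 1 : ℕ) : ℝ) :=
      Real.log_lt_log hn0 (by exact_mod_cast Nat.lt_succ_self n)
    set l := Real.log n with hl'
    set l' := Real.log ((n + 1 : ℕ) : ℝ) with hl''
    have hδ : l' - l ≤ 1 := by
      rw [hl', hl'', ← Real.log_div (by positivity) (by positivity)]
      refine (Real.log_le_sub_one_of_pos (by positivity)).trans ?_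
      have : ((n + 1 : ℕ) : ℝ) / n = 1 + 1 / n := by push_cast; field_simp
      rw [this]
      have : 1 / (n : ℝ) ≤ 1 := by
        rw [div_le_one hn0]; exact_mod_cast (by omega : 1 ≤ n)
      linarith
    have hl'0 : 0 < l' := by linarith
    have hlog1 : Real.log l' - Real.log l ≤ (l' - l) * (1 / l) := by
      rw [← Real.log_div (by positivity) (by positivity)]
      refine (Real.log_le_sub_one_of_pos (by positivity)).trans (le_of_eq ?_)
      field_simp
    have hlog2 : (l' - l) * (1 / l') ≤ Real.log l' - Real.log l := by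
      have h1 : Real.log l - Real.log l' ≤ l / l' - 1 := by
        rw [← Real.log_div (by positivity) (by positivity)]
        exact Real.log_le_sub_one_of_pos (by positivity)
      have h2 : (l' - l) * (1 / l') = 1 - l / l' := by field_simp
      linarith
    have hE1 : E (n + 1) = E n + (if (n + 1).Prime then l' / ((n + 1 : ℕ) : ℝ) else 0) -
        (l' - l) := by
      simp only [hE]
      rw [FF_succ]
      ring
    have hEn := abs_le.1 (hC n (by omega))
    have hEn' : -C ≤ E n ∧ E n ≤ C := hEn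
    have hT : SS (n + 1) - E (n + 1) / l' = SS n - E n / l + E n * (1 / l - 1 / l') +
        (l' - l) * (1 / l') := by
      rw [hE1, SS_succ]
      split_ifs
      · field_simp; ring
      · field_simp; ring
    have hd : 0 < 1 / l - 1 / l' := sub_pos.2 (one_div_lt_one_div_of_lt hl hll)
    have e1 : (l' - l) * (1 / l) - (l' - l) * (1 / l') = (l' - l) * (1 / l - 1 / l') := by ring
    have e2 : (C + 1) / l - (C + 1) / l' = (C + 1) * (1 / l - 1 / l') := by ring
    have e3 : C / l - C / l' = C * (1 / l - 1 / l') := by ring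
    constructor
    · simp only [hU]
      rw [← hl', ← hl'', hT]
      nlinarith
    · simp only [hV]
      rw [← hl', ← hl'', hT]
      nlinarith
  have hUm : ∀ u v : ℕ, 2 ≤ u → u ≤ v → U u ≤ U v := by
    intro u v hu huv
    induction v, huv using Nat.le_induction with
    | base => exact le_rfl
    | succ v huv ih => exact ih.trans (step v (by omega)).1
  have hVm : ∀ u v : ℕ, 2 ≤ u → u ≤ v → V v ≤ V u := by
    intro u v hu huv
    induction v, huv using Nat.le_induction with
    | base => exact le_rfl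
    | succ v huv ih => exact (step v (by omega)).2.trans ih
  refine ⟨2 * C + 1, by positivity, fun u v hu huv => ?_⟩
  rw [← SS_sub huv]
  have h1 := hUm u v hu huv
  have h2 := hVm u v hu huv
  simp only [hU, hV] at h1 h2
  have hlu : 0 < Real.log u := Real.log_pos (by exact_mod_cast (by omega : 1 < u))
  have hlv : 0 < Real.log v := Real.log_pos (by exact_mod_cast (by omega : 1 < v))
  have hEu := abs_le.1 (hC u (by omega))
  have hEv := abs_le.1 (hC v (by omega))
  have a1 : E u / Real.log u ≤ C / Real.log u := div_le_div_of_nonneg_right hEu.2 hlu.le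
  have a2 : -C / Real.log u ≤ E u / Real.log u := div_le_div_of_nonneg_right hEu.1 hlu.le
  have a3 : E v / Real.log v ≤ C / Real.log v := div_le_div_of_nonneg_right hEv.2 hlv.le
  have a4 : -C / Real.log v ≤ E v / Real.log v := div_le_div_of_nonneg_right hEv.1 hlv.le
  rw [neg_div] at a2 a4
  have b1 : (C + 1) / Real.log u = C / Real.log u + 1 / Real.log u := by ring
  have b2 : (C + 1) / Real.log v = C / Real.log v + 1 / Real.log v := by ring
  have b3 : (2 * C + 1) / Real.log u = 2 * (C / Real.log u) + 1 / Real.log u := by ring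
  have b4 : 0 < 1 / Real.log u := by positivity
  have b5 : 0 < 1 / Real.log v := by positivity
  rw [b1, b2] at h1
  rw [b3, abs_le]
  constructor <;> linarith

end Pool.Agent.Work.MP_b0c12c_nt_helper41
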