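import Pool.Agent.Work.MP_b0c12c_nt_helper41.GSum

/-!
# Selberg's sieve in an arithmetic progression
-/

set_option autoImplicit false

open Finset Nat ArithmeticFunction BoundingSieve
open Pool.Agent.Work.MP_484fb8_nt (GSum selberg_upper_bound)

namespace Pool.Agent.Work.MP_b0c12c_nt_helper41

/-- `1/d` -/
noncomputable def nuInv : ArithmeticFunction ℝ :=
  ArithmeticFunction.prodPrimeFactors (fun p => (1 : ℝ) / p)

theorem nuInv_prime {p : ℕ} (hp : p.Prime) : nuInv p = 1 / p := by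
  unfold nuInv
  rw [ArithmeticFunction.prodPrimeFactors_apply hp.ne_zero, hp.primeFactors, prod_singleton]

theorem nuInv_sqf {d : ℕ} (hd : Squarefree d) : nuInv d = 1 / d := by
  unfold nuInv
  rw [ArithmeticFunction.prodPrimeFactors_apply hd.ne_zero]
  have h1 : (d : ℝ) = ∏ p ∈ d.primeFactors, (p : ℝ) := by
    rw [← Nat.cast_prod, Nat.prod_primeFactors_of_squarefree hd]
  rw [h1, prod_div_distrib, prod_const_one]

/-- The sieve for the numbers `m P + j`, `m0 < m ≤ m0 + H`. -/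
noncomputable def apSieve (P j m0 H w z : ℕ) : BoundingSieve where
  support := (Ioc m0 (m0 + H)).image (fun m => m * P + j)
  prodPrimes := PP w z
  prodPrimes_squarefree := PP_squarefree w z
  weights := fun _ => 1
  weights_nonneg := fun _ => zero_le_one
  totalMass := H
  nu := nuInv
  nu_mult := ArithmeticFunction.IsMultiplicative.prodPrimeFactors _
  nu_pos_of_prime := fun p hp _ => by
    rw [nuInv_prime hp]
    have : (0 : ℝ) < p := by exact_mod_cast hp.pos
    positivity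
  nu_lt_one_of_prime := fun p hp _ => by
    rw [nuInv_prime hp]
    have h0 : (0 : ℝ) < p := by exact_mod_cast hp.pos
    rw [div_lt_one h0]
    exact_mod_cast hp.one_lt

theorem ap_inj {P : ℕ} (hP : 0 < P) (j : ℕ) (S : Set ℕ) : Set.InjOn (fun m => m * P + j) S := by
  intro x _ y _ hxy
  simp only [Nat.add_right_cancel_iff] at hxy
  exact Nat.eq_of_mul_eq_mul_right hP hxy

theorem apSieve_multSum {P : ℕ} (hP : 0 < P) (j m0 H w z d : ℕ) :
    (apSieve P j m0 H w z).multSum d = (#{m ∈ Ioc m0 (m0 + H) | d ∣ m * P + j} : ℕ) := by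
  unfold multSum apSieve
  simp only
  rw [sum_image (ap_inj hP j _), ← sum_filter]
  simp

/-- The numbers `m` with `d ∣ m P + j` form a residue class. -/
theorem exists_class {P d : ℕ} (hd : 0 < d) (hPd : P.Coprime d) (j : ℕ) :
    ∃ v : ℕ, ∀ m : ℕ, d ∣ m * P + j ↔ m ≡ v [MOD d] := by
  have : NeZero d := ⟨hd.ne'⟩
  set u := ZMod.unitOfCoprime P hPd with hu
  refine ⟨((-(j : ZMod d)) * (u⁻¹ : (ZMod d)ˣ)).val, fun m => ?_⟩
  rw [← ZMod.natCast_eq_zero_iff, ← ZMod.natCast_eq_natCast_iff, ZMod.natCast_val, ZMod.cast_id]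
  push_cast
  have hP : (P : ZMod d) = (u : ZMod d) := (ZMod.coe_unitOfCoprime P hPd).symm
  rw [hP]
  constructor
  · intro h
    have h1 : (m : ZMod d) * u = -j := eq_neg_of_add_eq_zero_left h
    rw [← h1, mul_assoc, Units.mul_inv, mul_one]
  · intro h
    rw [h, mul_assoc, Units.inv_mul, mul_one]
    ring

theorem card_class (m0 H d v : ℕ) (hd : 0 < d) :
    |((#{m ∈ Ioc m0 (m0 + H) | m ≡ v [MOD d]} : ℕ) : ℝ) - H / d| ≤ 1 := by
  have h := Nat.Ioc_filter_modEq_card m0 (m0 + H) hd v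
  have hd0 : (0 : ℚ) < d := by exact_mod_cast hd
  push_cast at h
  set A : ℚ := ((m0 : ℚ) + H - v) / d with hA
  set B : ℚ := ((m0 : ℚ) - v) / d with hB
  have hAB : A - B = H / d := by rw [hA, hB]; ring
  have hHd : (0 : ℚ) ≤ H / d := by positivity
  have f1 := Int.floor_le A
  have f2 := Int.lt_floor_add_one A
  have f3 := Int.floor_le B
  have f4 := Int.lt_floor_add_one B
  have hmono : ⌊B⌋ ≤ ⌊A⌋ := Int.floor_le_floor (by linarith)
  rw [max_eq_left (by omega)] at h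
  have hq : |((#{m ∈ Ioc m0 (m0 + H) | m ≡ v [MOD d]} : ℕ) : ℚ) - H / d| ≤ 1 := by
    have h' : ((#{m ∈ Ioc m0 (m0 + H) | m ≡ v [MOD d]} : ℕ) : ℚ) = (⌊A⌋ : ℚ) - ⌊B⌋ := by
      exact_mod_cast h
    rw [h', ← hAB, abs_le]
    constructor <;> linarith
  have hr : ((|((#{m ∈ Ioc m0 (m0 + H) | m ≡ v [MOD d]} : ℕ) : ℚ) - H / d| : ℚ) : ℝ) ≤
      ((1 : ℚ) : ℝ) := by exact_mod_cast hq
  push_cast at hr
  exact hr

theorem apSieve_rem {P : ℕ} (hP : 0 < P) (j m0 H w z d : ℕ) (hd : d ∣ PP w z)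
    (hPd : P.Coprime (PP w z)) : |(apSieve P j m0 H w z).rem d| ≤ 1 := by
  have hd0 : 0 < d := Nat.pos_of_dvd_of_pos hd (PP_pos w z)
  have hsq : Squarefree d := (PP_squarefree w z).squarefree_of_dvd hd
  unfold rem
  rw [apSieve_multSum hP]
  have : (apSieve P j m0 H w z).nu d * (apSieve P j m0 H w z).totalMass = (H : ℝ) / d := by
    change nuInv d * (H : ℝ) = _
    rw [nuInv_sqf hsq]; ring
  rw [this]
  obtain ⟨v, hv⟩ := exists_class hd0 (hPd.coprime_dvd_right hd) j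
  have h1 : {m ∈ Ioc m0 (m0 + H) | d ∣ m * P + j} = {m ∈ Ioc m0 (m0 + H) | m ≡ v [MOD d]} := by
    apply filter_congr
    intro m _
    exact hv m
  rw [h1]
  exact card_class m0 H d v hd0

theorem apSieve_siftedSum {P : ℕ} (hP : 0 < P) (j m0 H w z : ℕ) :
    (apSieve P j m0 H w z).siftedSum =
      (#{m ∈ Ioc m0 (m0 + H) | ∀ p ∈ PQ w z, ¬ p ∣ m * P + j} : ℕ) := by
  unfold siftedSum apSieve
  simp only
  rw [sum_image (ap_inj hP j _), ← sum_filter]
  simp only [sum_const, nsmul_eq_mul, mul_one]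
  congr 2
  apply filter_congr
  intro m _
  rw [PP, Nat.coprime_prod_left_iff]
  apply forall_congr'
  intro p
  apply forall_congr'
  intro hp
  exact ((mem_PQ.1 hp).2).coprime_iff_not_dvd

theorem apSieve_GSum (P j m0 H w z D : ℕ) : GSum (apSieve P j m0 H w z) D = GG w z D := by
  unfold GSum GG
  apply sum_congr rfl
  intro l hl
  rw [mem_filter] at hl
  have hl1 : l ∣ PP w z := Nat.dvd_of_mem_divisors hl.1
  have hsq : Squarefree l := (PP_squarefree w z).squarefree_of_dvd hl1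
  rw [selbergTerms_apply, gg]
  have h1 : (apSieve P j m0 H w z).nu l = ∏ p ∈ l.primeFactors, (1 : ℝ) / p := by
    change nuInv l = _
    unfold nuInv
    rw [ArithmeticFunction.prodPrimeFactors_apply hsq.ne_zero]
  rw [h1, ← prod_mul_distrib]
  apply prod_congr rfl
  intro p hp
  have hp' := Nat.prime_of_mem_primeFactors hp
  have h2 : (apSieve P j m0 H w z).nu p = 1 / p := nuInv_prime hp'
  rw [h2]
  have hp1 : (1 : ℝ) < p := by exact_mod_cast hp'.one_lt
  have hp2 : (p : ℝ) - 1 ≠ 0 := by linarith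
  have hp3 : 1 - 1 / (p : ℝ) ≠ 0 := by
    have : 1 / (p : ℝ) < 1 := by rw [div_lt_one (by linarith)]; exact hp1
    linarith
  field_simp

theorem GG_pos {w z D : ℕ} (hD : 1 ≤ D) : 0 < GG w z D := by
  rw [← apSieve_GSum 1 0 0 0 w z D]
  exact Pool.Agent.Work.MP_484fb8_nt.GSum_pos hD

/-- **Selberg's sieve in a progression.** -/
theorem ap_count_le {P : ℕ} (hP : 0 < P) (j m0 H w z : ℕ) {D : ℕ} (hD : 1 ≤ D)
    (hPd : P.Coprime (PP w z)) :
    ((#{m ∈ Ioc m0 (m0 + H) | ∀ p ∈ PQ w z, ¬ p ∣ m * P + j} : ℕ) : ℝ) ≤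
      H / GG w z D + (D : ℝ) ^ 2 := by
  have h2 := selberg_upper_bound (s := apSieve P j m0 H w z) hD
  rw [apSieve_siftedSum hP, apSieve_GSum] at h2
  have hmass : (apSieve P j m0 H w z).totalMass = H := rfl
  rw [hmass] at h2
  refine h2.trans ?_
  rw [div_eq_mul_inv]
  apply _root_.add_le_add le_rfl
  have h4 : ∀ d1 ∈ (apSieve P j m0 H w z).prodPrimes.divisors.filter (fun d => d ≤ D),
      ∀ d2 ∈ (apSieve P j m0 H w z).prodPrimes.divisors.filter (fun d => d ≤ D),
      |(apSieve P j m0 H w z).rem (Nat.lcm d1 d2)| ≤ 1 := by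
    intro d1 hd1 d2 hd2
    rw [mem_filter, mem_divisors] at hd1 hd2
    exact apSieve_rem hP j m0 H w z _ (Nat.lcm_dvd hd1.1.1 hd2.1.1) hPd
  have hcard : #((apSieve P j m0 H w z).prodPrimes.divisors.filter (fun d => d ≤ D)) ≤ D := by
    have hsub : (apSieve P j m0 H w z).prodPrimes.divisors.filter (fun d => d ≤ D) ⊆ Icc 1 D := by
      intro d hd
      rw [mem_filter, mem_divisors] at hd
      rw [mem_Icc]
      exact ⟨Nat.pos_of_ne_zero (ne_zero_of_dvd_ne_zero hd.1.2 hd.1.1), hd.2⟩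
    have := card_le_card hsub
    simpa using this
  have hcard' : (#((apSieve P j m0 H w z).prodPrimes.divisors.filter (fun d => d ≤ D)) : ℝ) ≤ D := by
    exact_mod_cast hcard
  calc _ ≤ ∑ d1 ∈ (apSieve P j m0 H w z).prodPrimes.divisors with d1 ≤ D,
        ∑ d2 ∈ (apSieve P j m0 H w z).prodPrimes.divisors with d2 ≤ D, (1 : ℝ) :=
        sum_le_sum fun d1 hd1 => sum_le_sum fun d2 hd2 => h4 d1 hd1 d2 hd2
    _ = (#((apSieve P j m0 H w z).prodPrimes.divisors.filter (fun d => d ≤ D)) : ℝ) *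
        (#((apSieve P j m0 H w z).prodPrimes.divisors.filter (fun d => d ≤ D)) : ℝ) := by
        rw [sum_const, sum_const, nsmul_eq_mul, nsmul_eq_mul, mul_one]
    _ ≤ (D : ℝ) * D := by gcongr
    _ = (D : ℝ) ^ 2 := by ring

end Pool.Agent.Work.MP_b0c12c_nt_helper41
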