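import Pool.Agent.Work.MP_b0c12c_nt_helper41.ApSieve
import Pool.Agent.Work.PNT70.PNT

/-!
# Asymptotics of the parameters, part 1
-/

set_option autoImplicit false

open Finset Filter Topology

namespace Pool.Agent.Work.MP_b0c12c_nt_helper41

/-- `log x` for natural `x` -/
noncomputable def ell (x : ℕ) : ℝ := Real.log x

theorem ell_tendsto : Tendsto ell atTop atTop :=
  Real.tendsto_log_atTop.comp tendsto_natCast_atTop_atTop

theorem log_ratio {f g : ℕ → ℝ} {c : ℝ} (hc : 0 < c) (hg : Tendsto g atTop atTop)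
    (h : Tendsto (fun x => f x / g x) atTop (𝓝 c)) :
    Tendsto (fun x => Real.log (f x) / Real.log (g x)) atTop (𝓝 1) := by
  have h1 : Tendsto (fun x => Real.log (f x / g x)) atTop (𝓝 (Real.log c)) :=
    (Real.continuousAt_log hc.ne').tendsto.comp h
  have h2 : Tendsto (fun x => Real.log (g x)) atTop atTop := Real.tendsto_log_atTop.comp hg
  have h3 : Tendsto (fun x => Real.log (f x / g x) / Real.log (g x)) atTop (𝓝 0) :=
    h1.div_atTop h2
  have h4 : Tendsto (fun x => 1 + Real.log (f x / g x) / Real.log (g x)) atTop (𝓝 (1 + 0)) :=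
    h3.const_add 1
  rw [add_zero] at h4
  refine h4.congr' ?_
  filter_upwards [hg.eventually_gt_atTop 0, h2.eventually_gt_atTop 0,
    h.eventually_const_lt (show c / 2 < c by linarith)] with x h5 h6 h7
  have h8 : 0 < f x / g x := by linarith
  have h9 : 0 < f x := by
    have := mul_pos h8 h5
    rwa [div_mul_cancel₀ _ h5.ne'] at this
  rw [Real.log_div h9.ne' h5.ne']
  field_simp
  ring

/-- ratio of the logarithms of comparable functions to a third function -/
theorem log_ratio' {f g k : ℕ → ℝ} {c b : ℝ} (hc : 0 < c) (hg : Tendsto g atTop atTop)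
    (h : Tendsto (fun x => f x / g x) atTop (𝓝 c))
    (h' : Tendsto (fun x => Real.log (g x) / k x) atTop (𝓝 b)) :
    Tendsto (fun x => Real.log (f x) / k x) atTop (𝓝 b) := by
  have h1 := (log_ratio hc hg h).mul h'
  rw [one_mul] at h1
  refine h1.congr' ?_
  filter_upwards [(Real.tendsto_log_atTop.comp hg).eventually_gt_atTop 0] with x hx
  simp only [Function.comp_apply] at hx
  field_simp

theorem log_floor_div {f k : ℕ → ℝ} {b : ℝ} (hf : Tendsto f atTop atTop)
    (h : Tendsto (fun x => Real.log (f x) / k x) atTop (𝓝 b)) :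
    Tendsto (fun x => Real.log (⌊f x⌋₊ : ℝ) / k x) atTop (𝓝 b) :=
  log_ratio' one_pos hf (tendsto_nat_floor_div_atTop.comp hf) h

theorem log_rpow_div {θ : ℝ} :
    Tendsto (fun x : ℕ => Real.log ((x : ℝ) ^ θ) / ell x) atTop (𝓝 θ) := by
  refine tendsto_const_nhds.congr' ?_
  filter_upwards [ell_tendsto.eventually_gt_atTop 0, eventually_gt_atTop 0] with x h1 h2
  have h3 : (0 : ℝ) < x := by exact_mod_cast h2
  rw [Real.log_rpow h3, ell]
  rw [ell] at h1
  field_simp

theorem log_two_mul_div : Tendsto (fun x : ℕ => Real.log (2 * (x : ℝ)) / ell x) atTop (𝓝 1) := by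
  have h1 : Tendsto (fun x : ℕ => Real.log 2 / ell x) atTop (𝓝 0) :=
    tendsto_const_nhds.div_atTop ell_tendsto
  have h2 := h1.add_const 1
  rw [zero_add] at h2
  refine h2.congr' ?_
  filter_upwards [ell_tendsto.eventually_gt_atTop 0, eventually_gt_atTop 0] with x h1 h2
  have h3 : (0 : ℝ) < x := by exact_mod_cast h2
  rw [Real.log_mul (by norm_num) h3.ne', ell]
  rw [ell] at h1
  field_simp

theorem log_rpow_div' {θ : ℝ} :
    Tendsto (fun x : ℕ => Real.log ((2 * (x : ℝ)) ^ θ) / ell x) atTop (𝓝 θ) := by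
  have h := log_two_mul_div.const_mul θ
  rw [mul_one] at h
  refine h.congr' ?_
  filter_upwards [eventually_gt_atTop 0] with x h2
  have h3 : (0 : ℝ) < x := by exact_mod_cast h2
  rw [Real.log_rpow (by positivity)]
  ring

theorem rpow_tendsto {θ : ℝ} (hθ : 0 < θ) : Tendsto (fun x : ℕ => (x : ℝ) ^ θ) atTop atTop :=
  (tendsto_rpow_atTop hθ).comp tendsto_natCast_atTop_atTop

theorem two_mul_tendsto : Tendsto (fun x : ℕ => 2 * (x : ℝ)) atTop atTop :=
  tendsto_natCast_atTop_atTop.const_mul_atTop (by norm_num)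

theorem rpow_tendsto' {θ : ℝ} (hθ : 0 < θ) :
    Tendsto (fun x : ℕ => (2 * (x : ℝ)) ^ θ) atTop atTop :=
  (tendsto_rpow_atTop hθ).comp two_mul_tendsto

theorem log_floor_rpow {θ : ℝ} (hθ : 0 < θ) :
    Tendsto (fun x : ℕ => Real.log (⌊(x : ℝ) ^ θ⌋₊ : ℝ) / ell x) atTop (𝓝 θ) :=
  log_floor_div (rpow_tendsto hθ) log_rpow_div

theorem log_floor_rpow' {θ : ℝ} (hθ : 0 < θ) :
    Tendsto (fun x : ℕ => Real.log (⌊(2 * (x : ℝ)) ^ θ⌋₊ : ℝ) / ell x) atTop (𝓝 θ) :=
  log_floor_div (rpow_tendsto' hθ) log_rpow_div'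

theorem floor_tendsto {f : ℕ → ℝ} (hf : Tendsto f atTop atTop) :
    Tendsto (fun x => ⌊f x⌋₊) atTop atTop := tendsto_nat_floor_atTop.comp hf

/-- Mertens' theorem for moving end points. -/
theorem mertens_tendsto {u v : ℕ → ℕ} {a b : ℝ} (ha : 0 < a) (hab : a < b)
    (hu : Tendsto (fun x => Real.log (u x) / ell x) atTop (𝓝 a))
    (hv : Tendsto (fun x => Real.log (v x) / ell x) atTop (𝓝 b)) :
    Tendsto (fun x => ∑ p ∈ PQ (u x) (v x), 1 / (p : ℝ)) atTop (𝓝 (Real.log b - Real.log a)) := by
  obtain ⟨C, hC0, hC⟩ := mertens2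
  have hlu : Tendsto (fun x => Real.log (u x)) atTop atTop := by
    have h1 := hu.pos_mul_atTop ha ell_tendsto
    refine h1.congr' ?_
    filter_upwards [ell_tendsto.eventually_gt_atTop 0] with x hx
    field_simp
  have hlo : Tendsto (fun x => Real.log (Real.log (v x)) - Real.log (Real.log (u x))) atTop
      (𝓝 (Real.log b - Real.log a)) := by
    have h1 : Tendsto (fun x => Real.log (Real.log (v x) / ell x)) atTop (𝓝 (Real.log b)) :=
      (Real.continuousAt_log (by linarith : b ≠ 0)).tendsto.comp hv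
    have h2 : Tendsto (fun x => Real.log (Real.log (u x) / ell x)) atTop (𝓝 (Real.log a)) :=
      (Real.continuousAt_log ha.ne').tendsto.comp hu
    refine (h1.sub h2).congr' ?_
    filter_upwards [ell_tendsto.eventually_gt_atTop 0, hu.eventually_const_lt
      (show a / 2 < a by linarith), hv.eventually_const_lt (show a < b from hab)] with x h3 h4 h5
    have h6 : Real.log (u x) ≠ 0 := by
      intro h; rw [h, zero_div] at h4; linarith
    have h7 : Real.log (v x) ≠ 0 := by
      intro h; rw [h, zero_div] at h5; linarith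
    rw [Real.log_div h7 h3.ne', Real.log_div h6 h3.ne']
    ring
  have herr : Tendsto (fun x => C / Real.log (u x)) atTop (𝓝 0) :=
    tendsto_const_nhds.div_atTop hlu
  have hdiff : Tendsto (fun x => ∑ p ∈ PQ (u x) (v x), 1 / (p : ℝ) -
      (Real.log (Real.log (v x)) - Real.log (Real.log (u x)))) atTop (𝓝 0) := by
    refine squeeze_zero_norm' ?_ herr
    filter_upwards [ell_tendsto.eventually_gt_atTop 0, hu.eventually_lt_const
      (show a < (a + b) / 2 by linarith), hv.eventually_const_lt
      (show (a + b) / 2 < b by linarith), hlu.eventually_gt_atTop 1] with x h3 h4 h5 h6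
    rw [div_lt_iff₀ h3] at h4
    rw [lt_div_iff₀ h3] at h5
    have h7 : Real.log (u x) < Real.log (v x) := by linarith
    have hu0 : 2 ≤ u x := by
      by_contra hcon
      have : u x ≤ 1 := by omega
      have : Real.log (u x) ≤ 0 := by
        apply Real.log_nonpos (Nat.cast_nonneg _)
        exact_mod_cast this
      linarith
    have huv : u x ≤ v x := by
      by_contra hcon
      rw [not_le] at hcon
      have hv0 : 0 < v x := by
        rcases Nat.eq_zero_or_pos (v x) with h | h
        · rw [h] at h7; simp at h7; linarith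
        · exact h
      have := Real.log_le_log (by exact_mod_cast hv0)
        (show ((v x : ℕ) : ℝ) ≤ (u x : ℕ) by exact_mod_cast hcon.le)
      linarith
    rw [Real.norm_eq_abs]
    exact hC (u x) (v x) hu0 huv
  have := hdiff.add hlo
  rw [zero_add] at this
  refine this.congr fun x => ?_
  ring

end Pool.Agent.Work.MP_b0c12c_nt_helper41
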