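import Pool.Agent.Work.MP_b0c12c_nt_helper41.Rat

/-!
# The probability that no window of a scale is empty tends to zero
-/

set_option autoImplicit false
set_option linter.unusedSectionVars false

open MeasureTheory ProbabilityTheory Finset Filter Topology
open Pool.Agent.Work.MP_b0c12c_nt_helper63 (RandomClasses Hit hit_meas')

namespace Pool.Agent.Work.MP_b0c12c_nt_helper41

/-- convexity -/
theorem sum_pow_ge {ι : Type*} (W : Finset ι) (N : ι → ℕ) {κ τ : ℝ} (hκ0 : 0 < κ) (hκ1 : κ ≤ 1)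
    (h : ∑ i ∈ W, (N i : ℝ) ≤ W.card * τ) : W.card * κ ^ τ ≤ ∑ i ∈ W, κ ^ N i := by
  have hlog : Real.log κ ≤ 0 := Real.log_nonpos hκ0.le hκ1
  have h1 : ∀ i ∈ W, κ ^ τ * (1 + ((N i : ℝ) - τ) * Real.log κ) ≤ κ ^ N i := by
    intro i _
    have e1 : (κ ^ N i : ℝ) = κ ^ τ * Real.exp (((N i : ℝ) - τ) * Real.log κ) := by
      rw [← Real.rpow_natCast, Real.rpow_def_of_pos hκ0, Real.rpow_def_of_pos hκ0, ← Real.exp_add]
      congr 1; ring
    rw [e1]
    apply mul_le_mul_of_nonneg_left _ (Real.rpow_pos_of_pos hκ0 _).le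
    have := Real.add_one_le_exp (((N i : ℝ) - τ) * Real.log κ)
    linarith
  refine le_trans ?_ (sum_le_sum h1)
  rw [← mul_sum, sum_add_distrib, ← sum_mul, sum_sub_distrib]
  simp only [sum_const, nsmul_eq_mul, mul_one]
  have hp : 0 < κ ^ τ := Real.rpow_pos_of_pos hκ0 _
  have h2 : 0 ≤ (∑ i ∈ W, (N i : ℝ) - W.card * τ) * Real.log κ :=
    mul_nonneg_of_nonpos_of_nonpos (by linarith) hlog
  nlinarith

variable {Ω : Type*} [MeasurableSpace Ω] {μ : Measure Ω} [IsProbabilityMeasure μ]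
  {a : ℕ → Ω → ℕ}

/-- windows of the scale `x` -/
noncomputable def Wx (e₁ : ℝ) (x : ℕ) : Finset ℕ :=
  Ioc (x / primorial (wf e₁ x)) (x / primorial (wf e₁ x) + Hf e₁ x)

/-- the event that no window of the scale `x` is completely removed -/
def Bad (a : ℕ → Ω → ℕ) (θ η lam e₁ : ℝ) (x : ℕ) : Set Ω :=
  {ω | ∀ m ∈ Wx e₁ x, ω ∉ Hit a (PQ (zf' θ x) (zf η x)).toList
    (AA (zf θ x) (yf lam x) (m * primorial (wf e₁ x)))}

theorem bad_le (h : RandomClasses μ a) {θ η lam e₁ e k κ T : ℝ} (hθ : 0 < θ) (hθη : θ < η)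
    (hl : 0 < lam) (he₁ : 0 < e₁) (he₁' : e₁ < 1 / 2) (he : 0 < e) (hee : 2 * e < 1 - 2 * e₁)
    (hk : 0 < k) (hτ : -(k * e / θ) + (Real.exp k - 1) < 0)
    (hT : lam / (2 * θ * (1 - Real.exp (-(k * e / θ) + (Real.exp k - 1)))) < T)
    (hκ0 : 0 < κ) (hκ : κ < 1 - θ / η) :
    ∀ᶠ x : ℕ in atTop, μ.real (Bad a θ η lam e₁ x) ≤
      (Real.exp ((yf lam x : ℝ) ^ 2 * Kf x / (x : ℝ) ^ θ /
        ((Real.log η - Real.log θ) / 2 / (4 * (1 + (Real.log η - Real.log θ + 1)))) ^ 2) - 1) +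
      1 / ((x : ℝ) ^ (1 - 2 * e₁) * κ ^ (T * ell x + 1)) := by
  have hη : 0 < η := by linarith
  have hκ1 : κ ≤ 1 := by
    have : 0 < θ / η := by positivity
    linarith
  set Λ := Real.log η - Real.log θ with hΛ
  have hΛ0 : 0 < Λ := sub_pos.2 (Real.log_lt_log hθ hθη)
  have hR := mertens_tendsto hθ hθη (log_zf' hθ) (log_zf hη)
  rw [← hΛ] at hR
  have hy := yf_small (lam := lam) (a := θ) hl.le hθ
  have hyK := y2K_small (lam := lam) (θ := θ) hl hθ
  filter_upwards [ratio_eventually hθ hθη hκ hl, hR.eventually_lt_const (show Λ < Λ + 1 by linarith),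
    hR.eventually_const_lt (show Λ / 2 < Λ by linarith),
    hy.eventually_lt_const (show 0 < min 1 (Λ / 2 / 4) by positivity),
    hyK.eventually_lt_const (show 0 < Λ / 2 / 2 by positivity),
    yf_le_primorial (lam := lam) he₁ hl.le, Hf_ge he₁ he₁', mean_bound hk he₁ hθ he hl hτ hT,
    err_small he₁ hl hee he₁', card_JJ_eventually hl he₁, wf_lt_zf he₁ hθ,
    (zf_tendsto he).eventually_ge_atTop 1, eventually_gt_atTop 0,
    (yf_tendsto hl).eventually_gt_atTop 0]
    with x c1 c2 c3 c4 c5 c6 c7 c8 c9 c10 c11 c12 c13 c14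
  have hx0 : (0 : ℝ) < x := by exact_mod_cast c13
  have hT0 : (0 : ℝ) < (x : ℝ) ^ θ := Real.rpow_pos_of_pos hx0 _
  have hy0 : 0 < yf lam x := by exact_mod_cast c14
  have hP0 : 0 < primorial (wf e₁ x) := primorial_pos _
  set P := primorial (wf e₁ x) with hP
  set y := yf lam x with hyd
  set H := Hf e₁ x with hH
  have hX0 : (0:ℝ) < (x : ℝ) ^ (1 - 2 * e₁) := Real.rpow_pos_of_pos hx0 _
  have hH0 : 0 < H := by
    have : (0:ℝ) < H := lt_of_lt_of_le hX0 c7
    exact_mod_cast this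
  have hHx : H = x / P - 1 := by rw [hH, Hf]
  rw [lt_min_iff] at c4
  have c4' := c4.1
  rw [div_lt_one hT0] at c4'
  have hcard : (Wx e₁ x).card = H := by rw [Wx, Nat.card_Ioc]; omega
  apply scale h (PQ (zf' θ x) (zf η x)) (fun p hp => (mem_PQ.1 hp).2) (T := (x : ℝ) ^ θ)
    (s := Λ + 1) (s₀ := Λ / 2) (M := y) (X := 2 * x) (K := Kf x)
    (fun p hp => PQ_large hθ hp) hy0 c4'.le c2.le (by positivity) c3.le (lt_two_pow_Kf x)
    c5.le c4.2.le (Wx e₁ x) (fun m => m * P) (fun m => AA (zf θ x) y (m * P))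
    (fun m _ => filter_subset _ _) _ _ hκ0.le c1 (by positivity) _
  · -- windows below 2x
    intro m hm
    rw [Wx, mem_Ioc, ← hP, ← hH] at hm
    have h1 : m ≤ 2 * (x / P) - 1 := by omega
    have h2 : x / P * P ≤ x := Nat.div_mul_le_self _ _
    have h3 : m * P ≤ (2 * (x / P) - 1) * P := Nat.mul_le_mul_right _ h1
    have h4 : (2 * (x / P) - 1) * P = 2 * (x / P * P) - P := by
      rw [Nat.sub_mul, one_mul, mul_assoc]
    have h5 : P ≤ x / P * P := Nat.le_mul_of_pos_left _ (by omega)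
    omega
  · -- disjointness
    intro m hm m' hm' hmm'
    rw [Finset.disjoint_left]
    intro n hn hn'
    simp only [AA, mem_filter, mem_Ioc] at hn hn'
    rcases Nat.lt_or_gt_of_ne hmm' with hlt | hlt
    · have : (m + 1) * P ≤ m' * P := Nat.mul_le_mul_right _ hlt
      rw [add_mul, one_mul] at this
      omega
    · have : (m' + 1) * P ≤ m * P := Nat.mul_le_mul_right _ hlt
      rw [add_mul, one_mul] at this
      omega
  · -- the expectation
    have hsum : ∑ m ∈ Wx e₁ x, ((AA (zf θ x) y (m * P)).card : ℝ) ≤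
        (Wx e₁ x).card * (T * ell x + 1) := by
      have h1 := sum_card_AA c11 y (x / P) H c12
      have hG := GG_pos (w := wf e₁ x) (z := zf θ x) c12
      have hJ : 0 ≤ (H : ℝ) / GG (wf e₁ x) (zf θ x) (zf e x) + (zf e x : ℝ) ^ 2 := by positivity
      have hHr : (0 : ℝ) < H := by exact_mod_cast hH0
      rw [hcard]
      calc ∑ m ∈ Wx e₁ x, ((AA (zf θ x) y (m * P)).card : ℝ) ≤
          (JJ (wf e₁ x) y).card * (H / GG (wf e₁ x) (zf θ x) (zf e x) + (zf e x : ℝ) ^ 2) := h1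
        _ ≤ JU lam e₁ x * (H / GG (wf e₁ x) (zf θ x) (zf e x) + (zf e x : ℝ) ^ 2) :=
            mul_le_mul_of_nonneg_right c10 hJ
        _ = H * (JU lam e₁ x / GG (wf e₁ x) (zf θ x) (zf e x) +
              JU lam e₁ x * ((zf e x : ℝ) ^ 2 / H)) := by field_simp
        _ ≤ H * (T * ell x + 1) := mul_le_mul_of_nonneg_left (add_le_add c8 c9) hHr.le
    have h2 := sum_pow_ge (Wx e₁ x) (fun m => (AA (zf θ x) y (m * P)).card) hκ0 hκ1 hsum
    refine le_trans ?_ h2
    rw [hcard]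
    exact mul_le_mul_of_nonneg_right c7 (Real.rpow_pos_of_pos hκ0 _).le

theorem bad_tendsto (h : RandomClasses μ a) {θ η lam k : ℝ} (hθ : 0 < θ) (hθη : θ < η)
    (hl : 0 < lam) (hk : 0 < k) (hτ : -(k / (2 * θ)) + (Real.exp k - 1) < 0)
    (hlam : lam * (-Real.log (1 - θ / η)) <
      2 * θ * (1 - Real.exp (-(k / (2 * θ)) + (Real.exp k - 1)))) :
    ∃ e₁ : ℝ, 0 < e₁ ∧ e₁ < 1 / 2 ∧
      Tendsto (fun x : ℕ => μ.real (Bad a θ η lam e₁ x)) atTop (𝓝 0) := by
  have hη : 0 < η := by linarith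
  have hq0 : 0 < θ / η := by positivity
  have hq1 : θ / η < 1 := by rw [div_lt_one hη]; exact hθη
  set L' := -Real.log (1 - θ / η) with hL'
  have hL'0 : 0 < L' := by
    rw [hL', neg_pos]; exact Real.log_neg (by linarith) (by linarith)
  set A := 2 * θ * (1 - Real.exp (-(k / (2 * θ)) + (Real.exp k - 1))) with hA
  have hA0 : 0 < A := by
    have := Real.exp_lt_one_iff.2 hτ
    exact mul_pos (by positivity) (by linarith)
  have h1 : lam / A < 1 / L' := by
    rw [div_lt_div_iff₀ hA0 hL'0]; linarith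
  set T := (lam / A + 1 / L') / 2 with hT
  have hT1 : lam / A < T := by rw [hT]; linarith
  have hT2 : T < 1 / L' := by rw [hT]; linarith
  have hT0 : 0 < T := lt_trans (by positivity) hT1
  have h2 : L' < 1 / T := by
    rw [lt_div_iff₀ hT0]
    rw [lt_div_iff₀ hL'0] at hT2
    linarith
  set c := (L' + 1 / T) / 2 with hc
  have hc1 : L' < c := by rw [hc]; linarith
  have hc2 : c < 1 / T := by rw [hc]; linarith
  have hTc : T * c < 1 := by
    rw [lt_div_iff₀ hT0] at hc2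
    linarith
  have hκ : Real.exp (-c) < 1 - θ / η := by
    rw [← Real.exp_log (show 0 < 1 - θ / η by linarith)]
    apply Real.exp_lt_exp.2
    linarith
  -- choice of e₁
  have hcont : Tendsto (fun t : ℝ => -(k * (1 / 2 - 2 * t) / θ) + (Real.exp k - 1)) (𝓝 0)
      (𝓝 (-(k / (2 * θ)) + (Real.exp k - 1))) := by
    have : Continuous fun t : ℝ => -(k * (1 / 2 - 2 * t) / θ) + (Real.exp k - 1) := by fun_prop
    have h3 := this.tendsto 0
    have e : -(k * (1 / 2 - 2 * 0) / θ) + (Real.exp k - 1) =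
        -(k / (2 * θ)) + (Real.exp k - 1) := by
      field_simp; ring
    rwa [e] at h3
  have hcont2 : Tendsto (fun t : ℝ => lam / (2 * θ * (1 - Real.exp (-(k * (1 / 2 - 2 * t) / θ) +
      (Real.exp k - 1))))) (𝓝 0) (𝓝 (lam / A)) := by
    apply Tendsto.div tendsto_const_nhds _ hA0.ne'
    exact ((Real.continuous_exp.continuousAt.tendsto.comp hcont).const_sub 1).const_mul (2 * θ)
  have hcont3 : Tendsto (fun t : ℝ => 1 - 2 * t) (𝓝 0) (𝓝 1) := by
    have : Continuous fun t : ℝ => 1 - 2 * t := by fun_prop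
    have h3 := this.tendsto 0
    simpa using h3
  have hev : ∀ᶠ t : ℝ in 𝓝[>] 0, ((-(k * (1 / 2 - 2 * t) / θ) + (Real.exp k - 1) < 0 ∧
      lam / (2 * θ * (1 - Real.exp (-(k * (1 / 2 - 2 * t) / θ) + (Real.exp k - 1)))) < T) ∧
      (T * c < 1 - 2 * t ∧ t < 1 / 4)) ∧ 0 < t := by
    refine Filter.Eventually.and ?_ self_mem_nhdsWithin
    apply Filter.Eventually.filter_mono nhdsWithin_le_nhds
    exact ((hcont.eventually_lt_const hτ).and (hcont2.eventually_lt_const hT1)).and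
      ((hcont3.eventually_const_lt hTc).and (gt_mem_nhds (by norm_num)))
  obtain ⟨e₁, ⟨⟨g1, g2⟩, g3, g4⟩, g5⟩ := hev.exists
  refine ⟨e₁, g5, by linarith, ?_⟩
  have hb := bad_le h (e := 1 / 2 - 2 * e₁) hθ hθη hl g5 (by linarith) (by linarith) (by linarith)
    hk g1 g2 (Real.exp_pos (-c)) hκ
  refine squeeze_zero' (Eventually.of_forall fun x => measureReal_nonneg) hb ?_
  have p1 : Tendsto (fun x : ℕ => Real.exp ((yf lam x : ℝ) ^ 2 * Kf x / (x : ℝ) ^ θ /
        ((Real.log η - Real.log θ) / 2 / (4 * (1 + (Real.log η - Real.log θ + 1)))) ^ 2) - 1)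
      atTop (𝓝 0) := by
    have h3 := (y2K_small (lam := lam) (θ := θ) hl hθ).div_const
      (((Real.log η - Real.log θ) / 2 / (4 * (1 + (Real.log η - Real.log θ + 1)))) ^ 2)
    rw [zero_div] at h3
    have h4 := (Real.continuous_exp.continuousAt.tendsto.comp h3).sub_const 1
    rw [Real.exp_zero, sub_self] at h4
    exact h4
  have p2 : Tendsto (fun x : ℕ => 1 / ((x : ℝ) ^ (1 - 2 * e₁) *
      Real.exp (-c) ^ (T * ell x + 1))) atTop (𝓝 0) := by
    have h3 : Tendsto (fun x : ℕ => Real.exp ((1 - 2 * e₁ - T * c) * ell x - c)) atTop atTop := by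
      apply Real.tendsto_exp_atTop.comp
      apply tendsto_atTop_add_const_right
      exact ell_tendsto.const_mul_atTop (by linarith)
    have h4 := h3.inv_tendsto_atTop
    refine h4.congr' ?_
    filter_upwards [eventually_gt_atTop 0] with x hx
    have hx0 : (0 : ℝ) < x := by exact_mod_cast hx
    simp only [Pi.inv_apply]
    rw [one_div, Real.rpow_def_of_pos hx0, ← Real.exp_mul, ← Real.exp_add]
    congr 2
    rw [ell]
    ring
  have := p1.add p2
  rw [add_zero] at this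
  exact this

end Pool.Agent.Work.MP_b0c12c_nt_helper41
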