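import Pool.Agent.Work.MP_b0c12c_nt_helper41.Gasym

/-!
# The total number of survivors in the aligned windows
-/

set_option autoImplicit false

open Finset Filter Topology

namespace Pool.Agent.Work.MP_b0c12c_nt_helper41

/-- The integers of the window `(t, t + y]` without prime factor `≤ z`. -/
def AA (z y t : ℕ) : Finset ℕ := (Ioc t (t + y)).filter fun n => n.Coprime (primorial z)

theorem coprime_primorial_PP (w z : ℕ) : (primorial w).Coprime (PP w z) := by
  rw [PP, Nat.coprime_prod_right_iff]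
  intro p hp
  obtain ⟨⟨hwp, _⟩, hp'⟩ := mem_PQ.1 hp
  rw [Nat.coprime_comm, hp'.coprime_iff_not_dvd, hp'.dvd_primorial_iff]
  omega

theorem card_AA_le {w z : ℕ} (hwz : w ≤ z) (y m : ℕ) :
    (AA z y (m * primorial w)).card ≤ ∑ j ∈ JJ w y,
      if ∀ p ∈ PQ w z, ¬ p ∣ m * primorial w + j then 1 else 0 := by
  rw [← card_filter]
  apply card_le_card_of_injOn (fun n => n - m * primorial w)
  · intro n hn
    simp only [AA, coe_filter, mem_Ioc, Set.mem_ofPred_eq] at hn
    obtain ⟨⟨h1, h2⟩, h3⟩ := hn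
    have hn' : m * primorial w + (n - m * primorial w) = n := by omega
    simp only [coe_filter, Set.mem_ofPred_eq, JJ, mem_filter, mem_Ioc]
    refine ⟨⟨⟨by omega, by omega⟩, ?_⟩, ?_⟩
    · have h4 : n.Coprime (primorial w) := h3.coprime_dvd_right (primorial_dvd_primorial hwz)
      rw [← hn'] at h4
      rw [Nat.Coprime] at h4 ⊢
      rwa [Nat.mul_comm m, Nat.gcd_comm, Nat.gcd_mul_left_add_right, Nat.gcd_comm,
        Nat.mul_comm _ m] at h4
    · rw [hn']
      intro p hp hpn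
      obtain ⟨⟨_, hpz⟩, hp'⟩ := mem_PQ.1 hp
      have h5 : p ∣ primorial z := hp'.dvd_primorial_iff.2 hpz
      have h6 := Nat.dvd_gcd hpn h5
      rw [h3] at h6
      exact hp'.one_lt.ne' (Nat.dvd_one.1 h6)
  · intro a ha b hb hab
    simp only [AA, coe_filter, mem_Ioc, Set.mem_ofPred_eq] at ha hb hab
    omega

theorem sum_card_AA {w z : ℕ} (hwz : w ≤ z) (y m0 H : ℕ) {D : ℕ} (hD : 1 ≤ D) :
    ∑ m ∈ Ioc m0 (m0 + H), ((AA z y (m * primorial w)).card : ℝ) ≤
      (JJ w y).card * (H / GG w z D + (D : ℝ) ^ 2) := by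
  have h1 : ∑ m ∈ Ioc m0 (m0 + H), ((AA z y (m * primorial w)).card : ℝ) ≤
      ∑ m ∈ Ioc m0 (m0 + H), ∑ j ∈ JJ w y,
        (if ∀ p ∈ PQ w z, ¬ p ∣ m * primorial w + j then (1:ℝ) else 0) := by
    apply sum_le_sum
    intro m _
    have := card_AA_le hwz y m
    exact_mod_cast this
  refine h1.trans ?_
  rw [sum_comm]
  calc ∑ j ∈ JJ w y, ∑ m ∈ Ioc m0 (m0 + H),
        (if ∀ p ∈ PQ w z, ¬ p ∣ m * primorial w + j then (1:ℝ) else 0) ≤
      ∑ j ∈ JJ w y, (H / GG w z D + (D : ℝ) ^ 2) := by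
        apply sum_le_sum
        intro j _
        have h2 := ap_count_le (primorial_pos w) j m0 H w z hD (coprime_primorial_PP w z)
        rw [card_filter] at h2
        push_cast at h2
        exact h2
    _ = _ := by rw [sum_const, nsmul_eq_mul]

end Pool.Agent.Work.MP_b0c12c_nt_helper41
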