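import Pool.Agent.Work.MP_b0c12c_nt_helper63.Defs

/-!
# The model: true sieving up to `n ^ θ`, random sieving up to `n ^ η`
-/

set_option autoImplicit false

namespace Pool.Agent.Work.MP_b0c12c_nt_helper41

/-- The integers `n ≥ 2` which have no prime factor `p ≤ n ^ θ` and avoid the residue class
`a p` modulo every prime `p` with `n ^ θ < p ≤ n ^ η`. -/
def Semi (θ η : ℝ) (a : ℕ → ℕ) : Set ℕ :=
  {n | 2 ≤ n ∧ ∀ p : ℕ, p.Prime → ((p : ℝ) ≤ (n : ℝ) ^ θ → ¬ p ∣ n) ∧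
    ((n : ℝ) ^ θ < p → (p : ℝ) ≤ (n : ℝ) ^ η → n % p ≠ a p)}

/-- `limsup (s_{k+1} - s_k) / (log s_k)^2` for the increasing enumeration of `S`. -/
noncomputable def cramerLimsup (S : Set ℕ) : EReal :=
  Filter.limsup (fun k : ℕ =>
    (((((Nat.nth (· ∈ S) (k + 1) : ℕ) : ℝ) - ((Nat.nth (· ∈ S) k : ℕ) : ℝ)) /
      (Real.log ((Nat.nth (· ∈ S) k : ℕ) : ℝ)) ^ 2 : ℝ) : EReal)) Filter.atTop

/-- For all large `x` there are consecutive elements `s < s'` of `S` with `s ≤ x` and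
`s' - s ≥ c (log x)^2`. -/
def GapsEverywhere (S : Set ℕ) (c : ℝ) : Prop :=
  ∀ᶠ x : ℕ in Filter.atTop, ∃ i : ℕ, Nat.nth (· ∈ S) i ≤ x ∧
    c * Real.log x ^ 2 ≤ (Nat.nth (· ∈ S) (i + 1) : ℝ) - Nat.nth (· ∈ S) i

/-- `2 θ (1 - exp (- u log u + u - 1)) / (- log (1 - θ / η))` with `u = 1 / (2 θ)`. -/
noncomputable def gapBound (θ η : ℝ) : ℝ :=
  2 * θ * (1 - Real.exp (-(1 / (2 * θ) * Real.log (1 / (2 * θ))) + 1 / (2 * θ) - 1)) /
    (-Real.log (1 - θ / η))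

end Pool.Agent.Work.MP_b0c12c_nt_helper41
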