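import Pool.Agent.Work.MP_b0c12c_nt_helper41.Main

/-!
# From dyadic intervals to all `x` and to the limsup
-/

set_option autoImplicit false
set_option linter.unusedSectionVars false
set_option linter.deprecated false

open MeasureTheory ProbabilityTheory Finset Filter Topology
open Pool.Agent.Work.MP_b0c12c_nt_helper63 (RandomClasses)

namespace Pool.Agent.Work.MP_b0c12c_nt_helper41

theorem GapsEverywhere.mono {S : Set ℕ} {c c' : ℝ} (h : GapsEverywhere S c) (hc : c' ≤ c) :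
    GapsEverywhere S c' := by
  filter_upwards [h] with x hx
  obtain ⟨i, h1, h2⟩ := hx
  exact ⟨i, h1, (mul_le_mul_of_nonneg_right hc (by positivity)).trans h2⟩

theorem gaps_of_dyadic {S : Set ℕ} {lam c : ℝ} (hc : 0 < c) (hcl : c < lam)
    (h : ∀ᶠ j : ℕ in atTop, ∃ i, Nat.nth (· ∈ S) i ≤ 2 ^ (j + 1) ∧
      lam * Real.log ((2 : ℝ) ^ (j + 1)) ^ 2 ≤
        (Nat.nth (· ∈ S) (i + 1) : ℝ) - Nat.nth (· ∈ S) i) : GapsEverywhere S c := by
  obtain ⟨J, hJ⟩ := eventually_atTop.1 h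
  have h1 : Tendsto (fun x : ℕ => (ell x - Real.log 2) ^ 2 / ell x ^ 2) atTop (𝓝 1) := by
    have h2 : Tendsto (fun x : ℕ => 1 - Real.log 2 / ell x) atTop (𝓝 1) := by
      have := ((tendsto_const_nhds (x := Real.log 2)).div_atTop ell_tendsto).const_sub 1
      rwa [sub_zero] at this
    have h3 := h2.pow 2
    rw [one_pow] at h3
    refine h3.congr' ?_
    filter_upwards [ell_tendsto.eventually_gt_atTop 0] with x hx
    field_simp
  have hcl' : c / lam < 1 := by rw [div_lt_one (by linarith)]; exact hcl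
  filter_upwards [h1.eventually_const_lt hcl', ell_tendsto.eventually_gt_atTop (Real.log 2),
    eventually_ge_atTop (2 ^ (J + 2))] with x h2 h3 h4
  have hx0 : 0 < x := lt_of_lt_of_le (by positivity) h4
  have hx0' : (0 : ℝ) < x := by exact_mod_cast hx0
  have hlog2 : 0 < Real.log 2 := Real.log_pos (by norm_num)
  have hlow := Nat.pow_log_le_self 2 hx0.ne'
  have hupp := Nat.lt_pow_succ_log_self (b := 2) (by norm_num) x
  have hL : J + 2 ≤ Nat.log 2 x := (Nat.le_log_iff_pow_le (by norm_num) hx0.ne').2 h4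
  obtain ⟨j, hj⟩ : ∃ j, Nat.log 2 x = j + 1 := ⟨Nat.log 2 x - 1, by omega⟩
  rw [hj] at hlow hupp
  obtain ⟨i, hi1, hi2⟩ := hJ j (by omega)
  refine ⟨i, hi1.trans hlow, ?_⟩
  refine le_trans ?_ hi2
  have hl : ell x - Real.log 2 ≤ Real.log ((2 : ℝ) ^ (j + 1)) := by
    have h5 : ell x ≤ Real.log ((2 : ℝ) ^ (j + 1 + 1)) := by
      rw [ell]
      apply Real.log_le_log hx0'
      exact_mod_cast hupp.le
    rw [pow_succ, Real.log_mul (by positivity) (by norm_num)] at h5
    linarith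
  have h6 : (ell x - Real.log 2) ^ 2 ≤ Real.log ((2 : ℝ) ^ (j + 1)) ^ 2 :=
    pow_le_pow_left₀ (by linarith) hl 2
  have h7 : 0 < ell x := by linarith
  have h8 : c * ell x ^ 2 ≤ lam * (ell x - Real.log 2) ^ 2 := by
    rw [div_lt_div_iff₀ (by linarith) (by positivity)] at h2
    linarith
  calc c * Real.log x ^ 2 = c * ell x ^ 2 := rfl
    _ ≤ lam * (ell x - Real.log 2) ^ 2 := h8
    _ ≤ _ := mul_le_mul_of_nonneg_left h6 (by linarith)

theorem limsup_of_gaps {S : Set ℕ} (hS : S.Infinite) {c : ℝ} (hc : 0 < c)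
    (h : GapsEverywhere S c) : ((c : ℝ) : EReal) ≤ cramerLimsup S := by
  unfold cramerLimsup
  have hsm := Nat.nth_strictMono (p := (· ∈ S)) hS
  apply le_limsup_of_frequently_le
  · rw [frequently_atTop]
    intro K
    set K' := max K 2 with hK'
    have h1 : Tendsto (fun x : ℕ => c * Real.log x ^ 2) atTop atTop :=
      ((tendsto_pow_atTop two_ne_zero).comp ell_tendsto).const_mul_atTop hc
    obtain ⟨x, hx1, hx2, hx3⟩ := (h.and ((h1.eventually_gt_atTop
      ((Nat.nth (· ∈ S) K' : ℕ) : ℝ)).and (eventually_gt_atTop 1))).exists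
    obtain ⟨i, hi1, hi2⟩ := hx1
    have hiK : K' ≤ i := by
      by_contra hcon
      rw [not_le] at hcon
      have h2 : Nat.nth (· ∈ S) (i + 1) ≤ Nat.nth (· ∈ S) K' := hsm.monotone (by omega)
      have h3 : ((Nat.nth (· ∈ S) (i + 1) : ℕ) : ℝ) ≤ Nat.nth (· ∈ S) K' := by exact_mod_cast h2
      have h4 : (0 : ℝ) ≤ Nat.nth (· ∈ S) i := Nat.cast_nonneg _
      linarith
    refine ⟨i, (le_max_left _ _).trans hiK, ?_⟩
    rw [EReal.coe_le_coe_iff]
    have hs2 : 2 ≤ Nat.nth (· ∈ S) i := by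
      have h2 : i ≤ Nat.nth (· ∈ S) i := hsm.le_apply
      have h3 : 2 ≤ K' := le_max_right _ _
      omega
    have hlogs : 0 < Real.log (Nat.nth (· ∈ S) i : ℕ) :=
      Real.log_pos (by exact_mod_cast (by omega : 1 < Nat.nth (· ∈ S) i))
    have hlogx : Real.log (Nat.nth (· ∈ S) i : ℕ) ≤ Real.log x :=
      Real.log_le_log (by exact_mod_cast (by omega : 0 < Nat.nth (· ∈ S) i)) (by exact_mod_cast hi1)
    rw [le_div_iff₀ (by positivity)]
    refine le_trans ?_ hi2
    exact mul_le_mul_of_nonneg_left (pow_le_pow_left₀ hlogs.le hlogx 2) hc.le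
  · exact isBoundedUnder_of ⟨⊤, fun _ => le_top⟩

variable {Ω : Type*} [MeasurableSpace Ω] {μ : Measure Ω} [IsProbabilityMeasure μ]
  {a : ℕ → Ω → ℕ}

/-- The lower bound with a free parameter `k`. -/
noncomputable def bd (k θ η : ℝ) : ℝ :=
  2 * θ * (1 - Real.exp (-(k / (2 * θ)) + (Real.exp k - 1))) / (-Real.log (1 - θ / η))

theorem bd_pos {k θ η : ℝ} (hθ : 0 < θ) (hθη : θ < η)
    (hτ : -(k / (2 * θ)) + (Real.exp k - 1) < 0) : 0 < bd k θ η := by
  have hη : 0 < η := by linarith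
  have hq0 : 0 < θ / η := by positivity
  have hq1 : θ / η < 1 := by rw [div_lt_one hη]; exact hθη
  have hL'0 : 0 < -Real.log (1 - θ / η) := by
    rw [neg_pos]; exact Real.log_neg (by linarith) (by linarith)
  have := Real.exp_lt_one_iff.2 hτ
  exact div_pos (mul_pos (by positivity) (by linarith)) hL'0

theorem ae_main (h : RandomClasses μ a) {θ η k : ℝ} (hθ : 0 < θ) (hθ1 : θ < 1)
    (hθη : θ < η) (hk : 0 < k) (hτ : -(k / (2 * θ)) + (Real.exp k - 1) < 0) :
    ∀ᵐ ω ∂μ, (Semi θ η (fun p => a p ω)).Infinite ∧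
      (∀ c < bd k θ η, GapsEverywhere (Semi θ η (fun p => a p ω)) c) ∧
      ((bd k θ η : ℝ) : EReal) ≤ cramerLimsup (Semi θ η (fun p => a p ω)) := by
  have hη : 0 < η := by linarith
  have hq0 : 0 < θ / η := by positivity
  have hq1 : θ / η < 1 := by rw [div_lt_one hη]; exact hθη
  have hL'0 : 0 < -Real.log (1 - θ / η) := by
    rw [neg_pos]; exact Real.log_neg (by linarith) (by linarith)
  set B := bd k θ η with hB
  have hB0 : 0 < B := bd_pos hθ hθη hτ
  set lam : ℕ → ℝ := fun n => B * (1 - 1 / ((n : ℝ) + 2)) with hlam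
  have hn2 : ∀ n : ℕ, 1 / ((n : ℝ) + 2) ≤ 1 / 2 := fun n =>
    one_div_le_one_div_of_le (by norm_num) (by have : (0:ℝ) ≤ n := Nat.cast_nonneg n
                                               linarith)
  have hlam0 : ∀ n, 0 < lam n := fun n => mul_pos hB0 (by have := hn2 n; linarith)
  have hlamB : ∀ n, lam n < B := fun n => by
    have : 0 < 1 / ((n : ℝ) + 2) := by positivity
    simp only [hlam]
    nlinarith
  have hlamt : Tendsto lam atTop (𝓝 B) := by
    have h1 : Tendsto (fun n : ℕ => 1 / ((n : ℝ) + 2)) atTop (𝓝 0) :=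
      tendsto_const_nhds.div_atTop (tendsto_atTop_add_const_right _ _ tendsto_natCast_atTop_atTop)
    have h2 := (h1.const_sub 1).const_mul B
    rwa [sub_zero, mul_one] at h2
  have hcond : ∀ n, lam n * (-Real.log (1 - θ / η)) <
      2 * θ * (1 - Real.exp (-(k / (2 * θ)) + (Real.exp k - 1))) := by
    intro n
    have h1 := hlamB n
    rw [hB, bd, lt_div_iff₀ hL'0] at h1
    exact h1
  have hall : ∀ᵐ ω ∂μ, ∀ n : ℕ, (Semi θ η (fun p => a p ω)).Infinite ∧ ∀ᶠ j : ℕ in atTop,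
      ∃ i, Nat.nth (· ∈ Semi θ η (fun p => a p ω)) i ≤ 2 ^ (j + 1) ∧
        lam n * Real.log ((2 : ℝ) ^ (j + 1)) ^ 2 ≤
          (Nat.nth (· ∈ Semi θ η (fun p => a p ω)) (i + 1) : ℝ) -
            Nat.nth (· ∈ Semi θ η (fun p => a p ω)) i := by
    rw [ae_all_iff]
    intro n
    exact ae_gaps h hθ hθ1 hθη (hlam0 n) hk hτ (hcond n)
  filter_upwards [hall] with ω hω
  have hinf := (hω 0).1
  have hG : ∀ c < B, GapsEverywhere (Semi θ η (fun p => a p ω)) c := by
    intro c hc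
    have h1 : max c (B / 2) < B := max_lt hc (by linarith)
    obtain ⟨n, hn⟩ := (hlamt.eventually_const_lt h1).exists
    have h2 := gaps_of_dyadic (lam := lam n) (c := max c (B / 2))
      (lt_of_lt_of_le (by linarith) (le_max_right _ _)) hn (hω n).2
    exact h2.mono (le_max_left _ _)
  refine ⟨hinf, hG, ?_⟩
  have h1 : Tendsto (fun n => ((lam n : ℝ) : EReal)) atTop (𝓝 ((B : ℝ) : EReal)) :=
    (continuous_coe_real_ereal.tendsto B).comp hlamt
  exact le_of_tendsto' h1 fun n => limsup_of_gaps hinf (hlam0 n) (hG _ (hlamB n))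

end Pool.Agent.Work.MP_b0c12c_nt_helper41
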