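import Pool.Agent.Work.MP_b0c12c_nt_helper41.Mert
import Pool.Agent.Work.MP_484fb8_nt.Selberg

/-!
# Lower bound for Selberg's `G` in the sieve by the primes in `(w, z]` (Rankin's trick)
-/

set_option autoImplicit false

open Finset Nat ArithmeticFunction

namespace Pool.Agent.Work.MP_b0c12c_nt_helper41

/-- primes in `(w, z]` -/
def PQ (w z : ℕ) : Finset ℕ := (Ioc w z).filter Nat.Prime

/-- product of the primes in `(w, z]` -/
def PP (w z : ℕ) : ℕ := ∏ p ∈ PQ w z, p

theorem mem_PQ {w z p : ℕ} : p ∈ PQ w z ↔ (w < p ∧ p ≤ z) ∧ p.Prime := by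
  rw [PQ, mem_filter, mem_Ioc]

theorem PP_primeFactors (w z : ℕ) : (PP w z).primeFactors = PQ w z :=
  Nat.primeFactors_prod fun _ hp => (mem_PQ.1 hp).2

theorem PP_pos (w z : ℕ) : 0 < PP w z := Finset.prod_pos fun _ hp => (mem_PQ.1 hp).2.pos

theorem PP_dvd_primorial (w z : ℕ) : PP w z ∣ primorial z := by
  rw [PP, primorial]
  apply Finset.prod_dvd_prod_of_subset
  intro p hp
  rw [mem_PQ] at hp
  simp only [mem_filter, mem_range]
  exact ⟨by omega, hp.2⟩

theorem PP_squarefree (w z : ℕ) : Squarefree (PP w z) :=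
  (squarefree_primorial z).squarefree_of_dvd (PP_dvd_primorial w z)

/-- sum over the divisors as a product -/
theorem sum_divisors_prod (w z : ℕ) (f : ℕ → ℝ) :
    ∑ l ∈ (PP w z).divisors, ∏ p ∈ l.primeFactors, f p = ∏ p ∈ PQ w z, (1 + f p) := by
  have h := (ArithmeticFunction.IsMultiplicative.prodPrimeFactors
    f).prodPrimeFactors_one_add_of_squarefree (PP_squarefree w z)
  rw [PP_primeFactors] at h
  have h1 : ∏ p ∈ PQ w z, (1 + f p) =
      ∏ p ∈ PQ w z, (1 + (ArithmeticFunction.prodPrimeFactors f) p) := by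
    apply prod_congr rfl
    intro p hp
    have hp' := (mem_PQ.1 hp).2
    rw [ArithmeticFunction.prodPrimeFactors_apply hp'.ne_zero, hp'.primeFactors, prod_singleton]
  rw [h1, h]
  apply sum_congr rfl
  intro l hl
  have : l ≠ 0 := (Nat.pos_of_mem_divisors hl).ne'
  rw [ArithmeticFunction.prodPrimeFactors_apply this]

/-- `1/φ(l)` for squarefree `l` -/
noncomputable def gg (l : ℕ) : ℝ := ∏ p ∈ l.primeFactors, 1 / ((p : ℝ) - 1)

theorem gg_nonneg (l : ℕ) : 0 ≤ gg l := by
  apply prod_nonneg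
  intro p hp
  have : (1 : ℝ) ≤ p := by exact_mod_cast (Nat.prime_of_mem_primeFactors hp).one_lt.le
  apply div_nonneg zero_le_one
  linarith

/-- `G(D)` -/
noncomputable def GG (w z D : ℕ) : ℝ := ∑ l ∈ (PP w z).divisors with l ≤ D, gg l

/-- `V = ∏ (1 - 1/p)⁻¹` -/
noncomputable def VV (w z : ℕ) : ℝ := ∏ p ∈ PQ w z, (1 + 1 / ((p : ℝ) - 1))

theorem VV_pos (w z : ℕ) : 0 < VV w z := by
  apply prod_pos
  intro p hp
  have : (1 : ℝ) ≤ p := by exact_mod_cast (mem_PQ.1 hp).2.one_lt.le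
  have : 0 ≤ 1 / ((p : ℝ) - 1) := div_nonneg zero_le_one (by linarith)
  linarith

theorem VV_ge (w z : ℕ) : Real.exp (∑ p ∈ PQ w z, 1 / (p : ℝ)) ≤ VV w z := by
  rw [Real.exp_sum, VV]
  apply prod_le_prod
  · intro p _; exact (Real.exp_pos _).le
  · intro p hp
    have hp1 : (1 : ℝ) < p := by exact_mod_cast (mem_PQ.1 hp).2.one_lt
    have h1 : 1 - 1 / (p : ℝ) ≤ Real.exp (-(1 / (p : ℝ))) := by
      have := Real.add_one_le_exp (-(1 / (p : ℝ))); linarith
    have h2 : 0 < 1 - 1 / (p : ℝ) := by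
      have : 1 / (p : ℝ) < 1 := by rw [div_lt_one (by linarith)]; exact hp1
      linarith
    have h3 : 1 + 1 / ((p : ℝ) - 1) = (1 - 1 / (p : ℝ))⁻¹ := by
      have : (p : ℝ) - 1 ≠ 0 := by linarith
      field_simp
      ring
    rw [h3]
    rw [Real.exp_neg] at h1
    rw [← inv_inv (Real.exp (1 / (p : ℝ)))]
    exact inv_anti₀ h2 h1

theorem tail_le {w z D : ℕ} (hD : 1 ≤ D) {a : ℝ} (ha : 0 < a) :
    ∑ l ∈ (PP w z).divisors with ¬ l ≤ D, gg l ≤
      VV w z * Real.exp (-(a * Real.log D) + ∑ p ∈ PQ w z, ((p : ℝ) ^ a - 1) / p) := by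
  have hD0 : (0 : ℝ) < D := by exact_mod_cast hD
  have h1 : ∑ l ∈ (PP w z).divisors with ¬ l ≤ D, gg l ≤
      ∑ l ∈ (PP w z).divisors, Real.exp (-(a * Real.log D)) *
        ∏ p ∈ l.primeFactors, (p : ℝ) ^ a / ((p : ℝ) - 1) := by
    refine le_trans (sum_le_sum fun l hl => ?_)
      (sum_le_sum_of_subset_of_nonneg (filter_subset _ _) fun l hl _ => ?_)
    · rw [mem_filter, not_le] at hl
      have hlsq : Squarefree l := (PP_squarefree w z).squarefree_of_dvd (Nat.dvd_of_mem_divisors hl.1)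
      have e1 : ∏ p ∈ l.primeFactors, (p : ℝ) ^ a / ((p : ℝ) - 1) = (l : ℝ) ^ a * gg l := by
        rw [gg]
        have e2 : ∏ p ∈ l.primeFactors, (p : ℝ) ^ a / ((p : ℝ) - 1) =
            (∏ p ∈ l.primeFactors, (p : ℝ) ^ a) * ∏ p ∈ l.primeFactors, 1 / ((p : ℝ) - 1) := by
          rw [← prod_mul_distrib]
          apply prod_congr rfl
          intro p _
          ring
        rw [e2, Real.finsetProd_rpow _ _ (fun p _ => Nat.cast_nonneg p), ← Nat.cast_prod,
          Nat.prod_primeFactors_of_squarefree hlsq]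
      rw [e1, ← mul_assoc]
      have e3 : 1 ≤ Real.exp (-(a * Real.log D)) * (l : ℝ) ^ a := by
        have hl0 : (0 : ℝ) < l := lt_trans hD0 (by exact_mod_cast hl.2)
        rw [Real.rpow_def_of_pos hl0, ← Real.exp_add]
        apply Real.one_le_exp
        have : Real.log D ≤ Real.log l := Real.log_le_log hD0 (by exact_mod_cast hl.2.le)
        nlinarith
      calc gg l = 1 * gg l := (one_mul _).symm
        _ ≤ _ := mul_le_mul_of_nonneg_right e3 (gg_nonneg l)
    · apply mul_nonneg (Real.exp_pos _).le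
      apply prod_nonneg
      intro p hp
      have : (1 : ℝ) ≤ p := by exact_mod_cast (Nat.prime_of_mem_primeFactors hp).one_lt.le
      apply div_nonneg (by positivity)
      linarith
  refine h1.trans ?_
  rw [← mul_sum, sum_divisors_prod, Real.exp_add, Real.exp_sum, VV]
  have h2 : ∏ p ∈ PQ w z, (1 + (p : ℝ) ^ a / ((p : ℝ) - 1)) ≤
      (∏ p ∈ PQ w z, (1 + 1 / ((p : ℝ) - 1))) * ∏ p ∈ PQ w z, Real.exp (((p : ℝ) ^ a - 1) / p) := by
    rw [← prod_mul_distrib]
    apply prod_le_prod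
    · intro p hp
      have : (1 : ℝ) ≤ p := by exact_mod_cast (mem_PQ.1 hp).2.one_lt.le
      have : 0 ≤ (p : ℝ) ^ a / ((p : ℝ) - 1) := div_nonneg (by positivity) (by linarith)
      linarith
    · intro p hp
      have hp1 : (1 : ℝ) < p := by exact_mod_cast (mem_PQ.1 hp).2.one_lt
      have hp2 : (p : ℝ) - 1 ≠ 0 := by linarith
      have e : 1 + (p : ℝ) ^ a / ((p : ℝ) - 1) =
          (1 + 1 / ((p : ℝ) - 1)) * (1 + ((p : ℝ) ^ a - 1) / p) := by
        field_simp; ring
      rw [e]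
      have h3 : 0 ≤ 1 + 1 / ((p : ℝ) - 1) := by
        have : 0 ≤ 1 / ((p : ℝ) - 1) := div_nonneg zero_le_one (by linarith)
        linarith
      apply mul_le_mul_of_nonneg_left _ h3
      have := Real.add_one_le_exp (((p : ℝ) ^ a - 1) / p)
      linarith
  calc Real.exp (-(a * Real.log D)) * ∏ p ∈ PQ w z, (1 + (p : ℝ) ^ a / ((p : ℝ) - 1)) ≤
      Real.exp (-(a * Real.log D)) * ((∏ p ∈ PQ w z, (1 + 1 / ((p : ℝ) - 1))) *
        ∏ p ∈ PQ w z, Real.exp (((p : ℝ) ^ a - 1) / p)) :=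
        mul_le_mul_of_nonneg_left h2 (Real.exp_pos _).le
    _ = _ := by ring

theorem exp_convex {t κ : ℝ} (h0 : 0 ≤ t) (h1 : t ≤ 1) :
    Real.exp (κ * t) - 1 ≤ t * (Real.exp κ - 1) := by
  have h := convexOn_exp.2 (Set.mem_univ (0:ℝ)) (Set.mem_univ κ) (sub_nonneg.2 h1) h0 (by ring)
  simp only [smul_eq_mul, mul_zero, zero_add, Real.exp_zero, mul_one] at h
  rw [mul_comm κ t]
  linarith

/-- The lower bound for `G(D)`. -/
theorem GG_ge {w z D : ℕ} (hz : 2 ≤ z) (hD : 1 ≤ D) {κ : ℝ} (hκ : 0 < κ) :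
    VV w z * (1 - Real.exp (-(κ * Real.log D / Real.log z) +
      (Real.exp κ - 1) * (1 + 6 / Real.log z))) ≤ GG w z D := by
  have hlz : 0 < Real.log z := Real.log_pos (by exact_mod_cast (by omega : 1 < z))
  set a := κ / Real.log z with ha
  have ha0 : 0 < a := by positivity
  have h1 := tail_le (w := w) (z := z) hD ha0
  have h2 : GG w z D + ∑ l ∈ (PP w z).divisors with ¬ l ≤ D, gg l = VV w z := by
    rw [GG, sum_filter_add_sum_filter_not]
    exact sum_divisors_prod w z _
  have hκ1 : 0 ≤ Real.exp κ - 1 := by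
    have := Real.one_le_exp hκ.le; linarith
  have h3 : ∑ p ∈ PQ w z, ((p : ℝ) ^ a - 1) / p ≤ (Real.exp κ - 1) * (1 + 6 / Real.log z) := by
    calc ∑ p ∈ PQ w z, ((p : ℝ) ^ a - 1) / p ≤
        ∑ p ∈ PQ w z, (Real.exp κ - 1) / Real.log z * (Real.log p / p) := by
          apply sum_le_sum
          intro p hp
          obtain ⟨⟨hwp, hpz⟩, hp'⟩ := mem_PQ.1 hp
          have hp0 : (0 : ℝ) < p := by exact_mod_cast hp'.pos
          have hlp : 0 ≤ Real.log p := Real.log_nonneg (by exact_mod_cast hp'.one_lt.le)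
          have hlpz : Real.log p ≤ Real.log z := Real.log_le_log hp0 (by exact_mod_cast hpz)
          have h4 := exp_convex (κ := κ) (t := Real.log p / Real.log z) (by positivity)
            (by rw [div_le_one hlz]; exact hlpz)
          have h5 : (p : ℝ) ^ a = Real.exp (κ * (Real.log p / Real.log z)) := by
            rw [Real.rpow_def_of_pos hp0, ha]; congr 1; ring
          rw [h5]
          calc (Real.exp (κ * (Real.log p / Real.log z)) - 1) / p ≤
              (Real.log p / Real.log z * (Real.exp κ - 1)) / p :=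
                div_le_div_of_nonneg_right h4 hp0.le
            _ = _ := by ring
      _ = (Real.exp κ - 1) / Real.log z * ∑ p ∈ PQ w z, Real.log p / p := by rw [mul_sum]
      _ ≤ (Real.exp κ - 1) / Real.log z * (Real.log z + 6) := by
          apply mul_le_mul_of_nonneg_left _ (by positivity)
          refine le_trans ?_ (FF_le (by omega : 1 ≤ z))
          rw [FF]
          apply sum_le_sum_of_subset_of_nonneg
          · intro p hp
            obtain ⟨⟨hwp, hpz⟩, hp'⟩ := mem_PQ.1 hp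
            rw [mem_filter, mem_Icc]
            exact ⟨⟨hp'.one_lt.le, hpz⟩, hp'⟩
          · intro p hp _
            have : 0 ≤ Real.log p := Real.log_natCast_nonneg p
            positivity
      _ = (Real.exp κ - 1) * (1 + 6 / Real.log z) := by field_simp
  have h4 : a * Real.log D = κ * Real.log D / Real.log z := by rw [ha]; ring
  rw [h4] at h1
  have h5 : VV w z * Real.exp (-(κ * Real.log D / Real.log z) +
      ∑ p ∈ PQ w z, ((p : ℝ) ^ a - 1) / p) ≤ VV w z * Real.exp (-(κ * Real.log D / Real.log z) +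
      (Real.exp κ - 1) * (1 + 6 / Real.log z)) := by
    apply mul_le_mul_of_nonneg_left _ (VV_pos w z).le
    apply Real.exp_le_exp.2
    linarith
  rw [mul_sub, mul_one]
  linarith

end Pool.Agent.Work.MP_b0c12c_nt_helper41
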