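import Pool.Agent.Work.MP_b0c12c_nt_helper41.Jcount

/-!
# Asymptotics of the parameters, part 2
-/

set_option autoImplicit false

open Finset Filter Topology

namespace Pool.Agent.Work.MP_b0c12c_nt_helper41

/-- `⌊x ^ θ⌋` -/
noncomputable def zf (θ : ℝ) (x : ℕ) : ℕ := ⌊(x : ℝ) ^ θ⌋₊

theorem log_zf {θ : ℝ} (hθ : 0 < θ) : Tendsto (fun x => Real.log (zf θ x) / ell x) atTop (𝓝 θ) :=
  log_floor_rpow hθ

theorem zf_tendsto {θ : ℝ} (hθ : 0 < θ) : Tendsto (zf θ) atTop atTop :=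
  floor_tendsto (rpow_tendsto hθ)

theorem log_zf_tendsto {θ : ℝ} (hθ : 0 < θ) : Tendsto (fun x => Real.log (zf θ x)) atTop atTop :=
  Real.tendsto_log_atTop.comp (tendsto_natCast_atTop_atTop.comp (zf_tendsto hθ))

theorem wf_lt_zf {e θ : ℝ} (_he : 0 < e) (hθ : 0 < θ) : ∀ᶠ x in atTop, wf e x ≤ zf θ x := by
  have h1 : Tendsto (fun x : ℕ => ell x / (x : ℝ) ^ θ) atTop (𝓝 0) :=
    (isLittleO_log_rpow_atTop hθ).tendsto_div_nhds_zero.comp tendsto_natCast_atTop_atTop
  have h2 : Tendsto (fun x : ℕ => e * (ell x / (x : ℝ) ^ θ)) atTop (𝓝 (e * 0)) := h1.const_mul e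
  rw [mul_zero] at h2
  filter_upwards [h2.eventually_lt_const (show (0:ℝ) < 1 by norm_num), eventually_gt_atTop 0]
    with x h3 h4
  have h5 : (0 : ℝ) < (x : ℝ) ^ θ := Real.rpow_pos_of_pos (by exact_mod_cast h4) _
  rw [← mul_div_assoc, div_lt_one h5] at h3
  exact Nat.floor_le_floor h3.le

/-- The lower bound for `G` -/
noncomputable def Glow (C κ e₁ θ e : ℝ) (x : ℕ) : ℝ :=
  (Real.log (zf θ x) / Real.log (wf e₁ x)) * Real.exp (-(C / Real.log (wf e₁ x))) *
    (1 - Real.exp (-(κ * Real.log (zf e x) / Real.log (zf θ x)) +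
      (Real.exp κ - 1) * (1 + 6 / Real.log (zf θ x))))

theorem Glow_tendsto {C κ e₁ θ e : ℝ} (he₁ : 0 < e₁) (hθ : 0 < θ) (he : 0 < e) :
    Tendsto (fun x => Glow C κ e₁ θ e x * Real.log (ell x) / ell x) atTop
      (𝓝 (θ * (1 - Real.exp (-(κ * e / θ) + (Real.exp κ - 1))))) := by
  have hlw : Tendsto (fun x => Real.log (wf e₁ x)) atTop atTop :=
    Real.tendsto_log_atTop.comp (tendsto_natCast_atTop_atTop.comp (wf_tendsto he₁))
  have h1 : Tendsto (fun x => Real.exp (-(C / Real.log (wf e₁ x)))) atTop (𝓝 1) := by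
    have h := (tendsto_const_nhds (x := C)).div_atTop hlw
    have h' := Real.continuous_exp.continuousAt.tendsto.comp h.neg
    rw [neg_zero, Real.exp_zero] at h'
    exact h'
  have h2 : Tendsto (fun x => 1 - Real.exp (-(κ * Real.log (zf e x) / Real.log (zf θ x)) +
      (Real.exp κ - 1) * (1 + 6 / Real.log (zf θ x)))) atTop
      (𝓝 (1 - Real.exp (-(κ * e / θ) + (Real.exp κ - 1)))) := by
    have h3 : Tendsto (fun x => κ * Real.log (zf e x) / Real.log (zf θ x)) atTop
        (𝓝 (κ * e / θ)) := by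
      have h := ((log_zf he).const_mul κ).div (log_zf hθ) hθ.ne'
      refine h.congr' ?_
      filter_upwards [ell_tendsto.eventually_gt_atTop 0] with x hx
      simp only [Pi.div_apply]
      field_simp
    have h4 : Tendsto (fun x => (Real.exp κ - 1) * (1 + 6 / Real.log (zf θ x))) atTop
        (𝓝 ((Real.exp κ - 1) * (1 + 0))) :=
      (((tendsto_const_nhds (x := (6:ℝ))).div_atTop (log_zf_tendsto hθ)).const_add 1).const_mul _
    rw [add_zero, mul_one] at h4
    exact (Real.continuous_exp.continuousAt.tendsto.comp (h3.neg.add h4)).const_sub 1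
  have h := (((log_zf hθ).div (log_wf he₁) one_ne_zero).mul h1).mul h2
  rw [div_one, mul_one] at h
  refine h.congr' ?_
  filter_upwards [ell_tendsto.eventually_gt_atTop 0, hlw.eventually_gt_atTop 0,
    (Real.tendsto_log_atTop.comp ell_tendsto).eventually_gt_atTop 0] with x h4 h5 h6
  simp only [Function.comp_apply] at h6
  simp only [Pi.div_apply, Glow]
  field_simp

theorem GG_ge_Glow {κ e₁ θ e : ℝ} (hκ : 0 < κ) (he₁ : 0 < e₁) (hθ : 0 < θ) (he : 0 < e)
    (hτ : -(κ * e / θ) + (Real.exp κ - 1) < 0) : ∃ C : ℝ, ∀ᶠ x in atTop,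
    Glow C κ e₁ θ e x ≤ GG (wf e₁ x) (zf θ x) (zf e x) := by
  obtain ⟨C, hC0, hC⟩ := mertens2
  refine ⟨C, ?_⟩
  have hG := Glow_tendsto (C := C) (κ := κ) he₁ hθ he
  have hpos : 0 < θ * (1 - Real.exp (-(κ * e / θ) + (Real.exp κ - 1))) := by
    have := Real.exp_lt_one_iff.2 hτ
    exact mul_pos hθ (by linarith)
  filter_upwards [wf_lt_zf he₁ hθ, (wf_tendsto he₁).eventually_ge_atTop 2,
    (zf_tendsto hθ).eventually_ge_atTop 2, (zf_tendsto he).eventually_ge_atTop 1,
    hG.eventually_const_lt hpos, ell_tendsto.eventually_gt_atTop 0,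
    (Real.tendsto_log_atTop.comp ell_tendsto).eventually_gt_atTop 0] with x h1 h2 h3 h4 h5 h6 h7
  simp only [Function.comp_apply] at h7
  have h8 := GG_ge (w := wf e₁ x) h3 h4 hκ
  refine le_trans ?_ h8
  have hlw : 0 < Real.log (wf e₁ x) := Real.log_pos (by exact_mod_cast (by omega : 1 < wf e₁ x))
  have hlz : 0 < Real.log (zf θ x) := Real.log_pos (by exact_mod_cast (by omega : 1 < zf θ x))
  have hGL : 0 < Glow C κ e₁ θ e x := by
    have e1 : Glow C κ e₁ θ e x * Real.log (ell x) / ell x =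
        Glow C κ e₁ θ e x * (Real.log (ell x) / ell x) := by ring
    rw [e1] at h5
    exact (pos_iff_pos_of_mul_pos h5).2 (by positivity)
  rw [Glow] at hGL ⊢
  have hq : 0 < Real.log (zf θ x) / Real.log (wf e₁ x) * Real.exp (-(C / Real.log (wf e₁ x))) := by
    positivity
  have h9 : 0 < 1 - Real.exp (-(κ * Real.log (zf e x) / Real.log (zf θ x)) +
      (Real.exp κ - 1) * (1 + 6 / Real.log (zf θ x))) := (pos_iff_pos_of_mul_pos hGL).1 hq
  apply mul_le_mul_of_nonneg_right _ h9.le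
  refine le_trans ?_ (VV_ge _ _)
  have h10 := (abs_le.1 (hC (wf e₁ x) (zf θ x) h2 h1)).1
  calc Real.log (zf θ x) / Real.log (wf e₁ x) * Real.exp (-(C / Real.log (wf e₁ x))) =
      Real.exp ((Real.log (Real.log (zf θ x)) - Real.log (Real.log (wf e₁ x))) -
        C / Real.log (wf e₁ x)) := by
        rw [sub_eq_add_neg _ (C / _), Real.exp_add, Real.exp_sub, Real.exp_log hlz,
          Real.exp_log hlw]
    _ ≤ _ := by
        apply Real.exp_le_exp.2
        rw [PQ]
        linarith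

/-- the mean number of survivors -/
theorem mean_bound {κ e₁ θ e lam T : ℝ} (hκ : 0 < κ) (he₁ : 0 < e₁) (hθ : 0 < θ) (he : 0 < e)
    (hl : 0 < lam) (hτ : -(κ * e / θ) + (Real.exp κ - 1) < 0)
    (hT : lam / (2 * θ * (1 - Real.exp (-(κ * e / θ) + (Real.exp κ - 1)))) < T) :
    ∀ᶠ x in atTop, JU lam e₁ x / GG (wf e₁ x) (zf θ x) (zf e x) ≤ T * ell x := by
  obtain ⟨C, hC⟩ := GG_ge_Glow hκ he₁ hθ he hτ
  have hpos : 0 < θ * (1 - Real.exp (-(κ * e / θ) + (Real.exp κ - 1))) := by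
    have := Real.exp_lt_one_iff.2 hτ
    exact mul_pos hθ (by linarith)
  have hG := Glow_tendsto (C := C) (κ := κ) he₁ hθ he
  have h1 := (JU_tendsto hl he₁).div hG hpos.ne'
  have e1 : lam / 2 / (θ * (1 - Real.exp (-(κ * e / θ) + (Real.exp κ - 1)))) =
      lam / (2 * θ * (1 - Real.exp (-(κ * e / θ) + (Real.exp κ - 1)))) := by
    rw [div_div]; ring_nf
  rw [e1] at h1
  filter_upwards [hC, h1.eventually_lt_const hT, ell_tendsto.eventually_gt_atTop 0,
    (Real.tendsto_log_atTop.comp ell_tendsto).eventually_gt_atTop 0,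
    hG.eventually_const_lt hpos] with x h2 h3 h4 h5 h6
  simp only [Function.comp_apply] at h5
  have hGL : 0 < Glow C κ e₁ θ e x := by
    have e1 : Glow C κ e₁ θ e x * Real.log (ell x) / ell x =
        Glow C κ e₁ θ e x * (Real.log (ell x) / ell x) := by ring
    rw [e1] at h6
    exact (pos_iff_pos_of_mul_pos h6).2 (by positivity)
  have hJ : 0 ≤ JU lam e₁ x := by rw [JU]; positivity
  have h7 : JU lam e₁ x / GG (wf e₁ x) (zf θ x) (zf e x) ≤ JU lam e₁ x / Glow C κ e₁ θ e x :=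
    div_le_div_of_nonneg_left hJ hGL h2
  refine h7.trans ?_
  have e2 : (JU lam e₁ x * Real.log (ell x) / ell x ^ 2) /
      (Glow C κ e₁ θ e x * Real.log (ell x) / ell x) = JU lam e₁ x / Glow C κ e₁ θ e x / ell x := by
    field_simp
  have h3' : (JU lam e₁ x * Real.log (ell x) / ell x ^ 2) /
      (Glow C κ e₁ θ e x * Real.log (ell x) / ell x) < T := h3
  rw [e2, div_lt_iff₀ h4] at h3'
  exact h3'.le

end Pool.Agent.Work.MP_b0c12c_nt_helper41
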