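import Pool.Agent.Work.MP_b0c12c_nt_helper41.Phi

/-!
# Random residue classes hitting a finite set of integers
-/

set_option autoImplicit false

open Finset

namespace Pool.Agent.Work.MP_b0c12c_nt_helper41

/-- The part of `B` outside the residue class `r` mod `p`. -/
def cut (p r : ℕ) (B : Finset ℕ) : Finset ℕ := B.filter fun b => b % p ≠ r

/-- The probability that every element of `B` lies in the random residue class of some member of
the list. -/
noncomputable def hit : List ℕ → Finset ℕ → ℝ
  | [], B => if B = ∅ then 1 else 0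
  | p :: l, B => (1 / p) * ∑ r ∈ range p, hit l (cut p r B)

theorem hit_nil (B : Finset ℕ) : hit [] B = if B = ∅ then 1 else 0 := rfl

theorem hit_cons (p : ℕ) (l : List ℕ) (B : Finset ℕ) :
    hit (p :: l) B = (1 / p) * ∑ r ∈ range p, hit l (cut p r B) := rfl

/-- `B` is injective modulo all members of `l`. -/
def Inj (l : List ℕ) (B : Finset ℕ) : Prop := ∀ p ∈ l, Set.InjOn (fun b => b % p) (B : Set ℕ)

theorem Inj.cut {l : List ℕ} {B : Finset ℕ} (h : Inj l B) (p r : ℕ) : Inj l (cut p r B) :=
  fun q hq => (h q hq).mono (by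
    intro b hb
    simp only [Pool.Agent.Work.MP_b0c12c_nt_helper41.cut, coe_filter, Set.mem_ofPred_eq] at hb
    exact hb.1)

/-- number of elements of `B` in the class `r` -/
def cls (p r : ℕ) (B : Finset ℕ) : ℕ := (B.filter fun b => b % p = r).card

theorem card_cut (p r : ℕ) (B : Finset ℕ) : (cut p r B).card + cls p r B = B.card := by
  rw [cut, cls, add_comm]
  exact Finset.card_filter_add_card_filter_not (fun b => b % p = r)

theorem cls_le_one {p : ℕ} {B : Finset ℕ} (h : Set.InjOn (fun b => b % p) (B : Set ℕ)) (r : ℕ) :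
    cls p r B ≤ 1 := by
  rw [cls, Finset.card_le_one]
  intro a ha b hb
  rw [mem_filter] at ha hb
  exact h ha.1 hb.1 (by simp only; rw [ha.2, hb.2])

theorem sum_cls {p : ℕ} (hp : 0 < p) (B : Finset ℕ) : ∑ r ∈ range p, cls p r B = B.card := by
  symm
  exact Finset.card_eq_sum_card_fiberwise (f := fun b => b % p) (t := range p)
    (fun b _ => by simp only [coe_range, Set.mem_Iio]; exact Nat.mod_lt _ hp)

theorem phi_sub {l : List ℕ} {m c : ℕ} (hc : c ≤ 1) :
    phi l (m - c) = phi l m + c * (phi l (m - 1) - phi l m) := by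
  interval_cases c
  · simp
  · simp

theorem hit_eq_phi {l : List ℕ} (hpos : ∀ p ∈ l, 0 < p) :
    ∀ B : Finset ℕ, Inj l B → hit l B = phi l B.card := by
  induction l with
  | nil => intro B _; rw [hit_nil, phi_nil]; simp
  | cons p l ih =>
    intro B hB
    have hp : 0 < p := hpos p (by simp)
    have hinj := hB p (by simp)
    have hB' : Inj l B := fun q hq => hB q (by simp [hq])
    rw [hit_cons, phi_cons]
    have h1 : ∀ r ∈ range p, hit l (cut p r B) =
        phi l B.card + (cls p r B : ℝ) * (phi l (B.card - 1) - phi l B.card) := by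
      intro r _
      rw [ih (fun q hq => hpos q (by simp [hq])) _ (hB'.cut p r)]
      have : (cut p r B).card = B.card - cls p r B := by
        have := card_cut p r B; omega
      rw [this, phi_sub (cls_le_one hinj r)]
    rw [sum_congr rfl h1, sum_add_distrib, ← sum_mul, ← Nat.cast_sum, sum_cls hp]
    simp only [sum_const, card_range, nsmul_eq_mul]
    have hp' : (p : ℝ) ≠ 0 := by exact_mod_cast hp.ne'
    field_simp
    ring

/-- the number of colliding pairs -/
def col (p : ℕ) (A A' : Finset ℕ) : ℕ := ∑ r ∈ range p, cls p r A * cls p r A'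

theorem cls_cut_le (p r q s : ℕ) (A : Finset ℕ) : cls p r (cut q s A) ≤ cls p r A := by
  rw [cls, cls, cut]
  apply card_le_card
  intro x hx
  simp only [mem_filter] at hx ⊢
  exact ⟨hx.1.1, hx.2⟩

theorem col_cut_le (p q s : ℕ) (A A' : Finset ℕ) :
    col p (cut q s A) (cut q s A') ≤ col p A A' :=
  sum_le_sum fun r _ => Nat.mul_le_mul (cls_cut_le _ _ _ _ _) (cls_cut_le _ _ _ _ _)

/-- The condition under which the two-set bound can be carried through the list. -/
def Ok (κ : ℝ) (M : ℕ) (A A' : Finset ℕ) : List ℕ → Prop
  | [] => True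
  | p :: l => (col p A A' = 0 ∨ Ratio l κ M) ∧ Ok κ M A A' l

/-- the correction factor -/
noncomputable def corr (κ : ℝ) (A A' : Finset ℕ) : List ℕ → ℝ
  | [] => 1
  | p :: l => (1 + (col p A A' : ℝ) * (1 / p) / κ ^ 2) * corr κ A A' l

theorem corr_ge_one (κ : ℝ) (A A' : Finset ℕ) (l : List ℕ) : 1 ≤ corr κ A A' l := by
  induction l with
  | nil => simp [corr]
  | cons p l ih =>
    simp only [corr]
    have : 0 ≤ (col p A A' : ℝ) * (1 / p) / κ ^ 2 := by positivity
    nlinarith

theorem hit_union_le {κ : ℝ} (hκ : 0 < κ) {M : ℕ} (hM : 0 < M) {A A' : Finset ℕ} {l : List ℕ}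
    (hb : Big M l) (hok : Ok κ M A A' l) :
    ∀ B B' : Finset ℕ, Disjoint B B' → B.card ≤ M → B'.card ≤ M → Inj l B → Inj l B' →
      (∀ p ∈ l, col p B B' ≤ col p A A') →
      hit l (B ∪ B') ≤ corr κ A A' l * (phi l B.card * phi l B'.card) := by
  induction l with
  | nil =>
    intro B B' _ _ _ _ _ _
    rw [hit_nil, phi_nil, phi_nil, corr]
    by_cases h1 : B = ∅
    · by_cases h2 : B' = ∅
      · simp [h1, h2]
      · simp [h1, h2]
    · simp [h1, Finset.union_eq_empty]
  | cons p l ih =>
    intro B B' hd hBM hB'M hB hB' hcol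
    obtain ⟨⟨hp, hMp⟩, hl⟩ := hb.cons
    have hp' : (0 : ℝ) < p := by exact_mod_cast hp
    obtain ⟨hok1, hok2⟩ := hok
    have hBl : Inj l B := fun q hq => hB q (by simp [hq])
    have hB'l : Inj l B' := fun q hq => hB' q (by simp [hq])
    set K := corr κ A A' l with hK
    have hK1 : 1 ≤ K := corr_ge_one _ _ _ _
    set m := B.card with hm
    set m' := B'.card with hm'
    set f := phi l m with hf
    set f' := phi l m' with hf'
    set D := phi l (m - 1) - phi l m with hD
    set D' := phi l (m' - 1) - phi l m' with hD'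
    have hf0 : 0 ≤ f := phi_nonneg hl m hBM
    have hf'0 : 0 ≤ f' := phi_nonneg hl m' hB'M
    have hD0 : 0 ≤ D := sub_nonneg.2 (phi_anti hl hBM)
    have hD'0 : 0 ≤ D' := sub_nonneg.2 (phi_anti hl hB'M)
    have h1 : ∀ r ∈ range p, hit l (cut p r (B ∪ B')) ≤
        K * ((f + (cls p r B : ℝ) * D) * (f' + (cls p r B' : ℝ) * D')) := by
      intro r _
      have e : cut p r (B ∪ B') = cut p r B ∪ cut p r B' := by
        rw [cut, cut, cut, filter_union]
      rw [e]
      have c1 : (cut p r B).card = m - cls p r B := by have := card_cut p r B; omega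
      have c2 : (cut p r B').card = m' - cls p r B' := by have := card_cut p r B'; omega
      have := ih hl hok2 (cut p r B) (cut p r B')
        (disjoint_of_subset_left (filter_subset _ _)
          (disjoint_of_subset_right (filter_subset _ _) hd))
        (by omega) (by omega) (hBl.cut p r) (hB'l.cut p r)
        (fun q hq => le_trans (col_cut_le q p r B B') (hcol q (by simp [hq])))
      rw [c1, c2, phi_sub (cls_le_one (hB p (by simp)) r),
        phi_sub (cls_le_one (hB' p (by simp)) r)] at this
      exact this
    have h2 : hit (p :: l) (B ∪ B') ≤ K * ((f + m / p * D) * (f' + m' / p * D') +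
        (col p B B' : ℝ) * (1 / p) * (D * D')) := by
      rw [hit_cons]
      have s1 : ∑ r ∈ range p, hit l (cut p r (B ∪ B')) ≤ ∑ r ∈ range p,
          K * ((f + (cls p r B : ℝ) * D) * (f' + (cls p r B' : ℝ) * D')) := sum_le_sum h1
      have s2 : ∑ r ∈ range p, K * ((f + (cls p r B : ℝ) * D) * (f' + (cls p r B' : ℝ) * D')) =
          K * (p * (f * f') + m * (D * f') + m' * (f * D') + (col p B B' : ℝ) * (D * D')) := by
        rw [← mul_sum]
        congr 1
        have e1 : ∀ r ∈ range p, (f + (cls p r B : ℝ) * D) * (f' + (cls p r B' : ℝ) * D') =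
            f * f' + (cls p r B : ℝ) * (D * f') + (cls p r B' : ℝ) * (f * D') +
              ((cls p r B * cls p r B' : ℕ) : ℝ) * (D * D') := by
          intro r _; push_cast; ring
        have t1 : ∑ r ∈ range p, (cls p r B : ℝ) * (D * f') = m * (D * f') := by
          rw [← sum_mul, ← Nat.cast_sum, sum_cls hp]
        have t2 : ∑ r ∈ range p, (cls p r B' : ℝ) * (f * D') = m' * (f * D') := by
          rw [← sum_mul, ← Nat.cast_sum, sum_cls hp]
        have t3 : ∑ r ∈ range p, ((cls p r B * cls p r B' : ℕ) : ℝ) * (D * D') =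
            (col p B B' : ℝ) * (D * D') := by
          rw [← sum_mul, ← Nat.cast_sum]; rfl
        rw [sum_congr rfl e1, sum_add_distrib, sum_add_distrib, sum_add_distrib, t1, t2, t3]
        simp only [sum_const, card_range, nsmul_eq_mul]
      rw [s2] at s1
      have h3 := mul_le_mul_of_nonneg_left s1 (by positivity : (0:ℝ) ≤ 1 / p)
      refine le_trans h3 ?_
      have e4 : 1 / (p : ℝ) * (K * (p * (f * f') + m * (D * f') + m' * (f * D') +
          (col p B B' : ℝ) * (D * D'))) = K * (f * f' + m / p * (D * f') + m' / p * (f * D') +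
          (col p B B' : ℝ) * (1 / p) * (D * D')) := by
        field_simp
      rw [e4]
      apply mul_le_mul_of_nonneg_left _ (by linarith)
      have : 0 ≤ (m : ℝ) / p * D * (m' / p * D') := by positivity
      nlinarith
    have hphi : phi (p :: l) m = f + m / p * D := by rw [phi_cons, hf, hD]; ring
    have hphi' : phi (p :: l) m' = f' + m' / p * D' := by rw [phi_cons, hf', hD']; ring
    rw [← hphi, ← hphi'] at h2
    have hcolB := hcol p (by simp)
    have hg : f ≤ phi (p :: l) m := phi_le_cons hb hBM
    have hg' : f' ≤ phi (p :: l) m' := phi_le_cons hb hB'M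
    set g := phi (p :: l) m with hgd
    set g' := phi (p :: l) m' with hgd'
    have h4 : (col p B B' : ℝ) * (1 / p) * (D * D') ≤
        (col p A A' : ℝ) * (1 / p) / κ ^ 2 * (g * g') := by
      rcases hok1 with h0 | hr
      · have : col p B B' = 0 := by omega
        rw [this, h0]; simp
      · by_cases hm0 : m = 0
        · have : D = 0 := by rw [hD, hm0]; simp
          rw [this]
          have : 0 ≤ g * g' := mul_nonneg (le_trans hf0 hg) (le_trans hf'0 hg')
          have : 0 ≤ (col p A A' : ℝ) * (1 / p) / κ ^ 2 * (g * g') := by positivity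
          simpa using this
        · by_cases hm'0 : m' = 0
          · have : D' = 0 := by rw [hD', hm'0]; simp
            rw [this]
            have : 0 ≤ g * g' := mul_nonneg (le_trans hf0 hg) (le_trans hf'0 hg')
            have : 0 ≤ (col p A A' : ℝ) * (1 / p) / κ ^ 2 * (g * g') := by positivity
            simpa using this
          · have r1 := hr m (by omega) hBM
            have r2 := hr m' (by omega) hB'M
            have d1 : κ * D ≤ g := by
              have : κ * D ≤ κ * phi l (m - 1) :=
                mul_le_mul_of_nonneg_left (by linarith) hκ.le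
              linarith
            have d2 : κ * D' ≤ g' := by
              have : κ * D' ≤ κ * phi l (m' - 1) :=
                mul_le_mul_of_nonneg_left (by linarith) hκ.le
              linarith
            have d3 : κ ^ 2 * (D * D') ≤ g * g' := by
              have := mul_le_mul d1 d2 (mul_nonneg hκ.le hD'0) (le_trans hf0 hg)
              calc κ ^ 2 * (D * D') = κ * D * (κ * D') := by ring
                _ ≤ g * g' := this
            have d4 : D * D' ≤ g * g' / κ ^ 2 := by
              rw [le_div_iff₀ (by positivity)]; linarith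
            have hcR : (col p B B' : ℝ) ≤ col p A A' := by exact_mod_cast hcolB
            calc (col p B B' : ℝ) * (1 / p) * (D * D')
                ≤ (col p A A' : ℝ) * (1 / p) * (g * g' / κ ^ 2) := by
                  apply mul_le_mul _ d4 (mul_nonneg hD0 hD'0) (by positivity)
                  exact mul_le_mul_of_nonneg_right hcR (by positivity)
              _ = _ := by ring
    calc hit (p :: l) (B ∪ B') ≤ K * (g * g' + (col p B B' : ℝ) * (1 / p) * (D * D')) := h2
      _ ≤ K * (g * g' + (col p A A' : ℝ) * (1 / p) / κ ^ 2 * (g * g')) := by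
          apply mul_le_mul_of_nonneg_left _ (by linarith)
          linarith
      _ = corr κ A A' (p :: l) * (g * g') := by
          rw [corr, ← hK]; ring

end Pool.Agent.Work.MP_b0c12c_nt_helper41
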