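import Pool.Agent.Work.MP_b0c12c_nt_helper41.Prob

/-!
# One scale of the second moment argument
-/

set_option autoImplicit false
set_option linter.unusedSectionVars false
set_option linter.deprecated false

open MeasureTheory ProbabilityTheory Finset
open Pool.Agent.Work.MP_b0c12c_nt_helper63 (RandomClasses Hit hit_meas')

namespace Pool.Agent.Work.MP_b0c12c_nt_helper41

theorem rsum_toList (R : Finset ℕ) : rsum R.toList = ∑ p ∈ R, 1 / (p : ℝ) := by
  rw [rsum, Finset.sum_map_toList]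

theorem card_primes_dvd_le {n K : ℕ} (hn : 0 < n) (hnK : n < 2 ^ K) (Q : Finset ℕ)
    (hQ : ∀ p ∈ Q, p.Prime) (hd : ∀ p ∈ Q, p ∣ n) : Q.card ≤ K := by
  have h1 : ∏ p ∈ Q, p ∣ n := Finset.prod_primes_dvd n (fun p hp => (hQ p hp).prime) hd
  have h2 : 2 ^ Q.card ≤ ∏ p ∈ Q, p := by
    rw [← Finset.prod_const]
    exact Finset.prod_le_prod' fun p hp => (hQ p hp).two_le
  have h3 : 2 ^ Q.card < 2 ^ K := lt_of_le_of_lt (h2.trans (Nat.le_of_dvd hn h1)) hnK
  exact ((Nat.pow_lt_pow_iff_right (by norm_num)).1 h3).le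

theorem card_congr_le {a b K : ℕ} (hab : a ≠ b) (ha : a < 2 ^ K) (hb : b < 2 ^ K) (R : Finset ℕ)
    (hR : ∀ p ∈ R, p.Prime) : (R.filter fun p => a % p = b % p).card ≤ K := by
  rcases Nat.lt_or_gt_of_ne hab with h | h
  · apply card_primes_dvd_le (n := b - a) (by omega) (by omega)
    · intro p hp; exact hR p (mem_filter.1 hp).1
    · intro p hp
      have := (mem_filter.1 hp).2
      exact (Nat.modEq_iff_dvd' h.le).1 this
  · apply card_primes_dvd_le (n := a - b) (by omega) (by omega)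
    · intro p hp; exact hR p (mem_filter.1 hp).1
    · intro p hp
      have := (mem_filter.1 hp).2
      exact (Nat.modEq_iff_dvd' h.le).1 this.symm

theorem col_eq {p : ℕ} (hp : 0 < p) (A A' : Finset ℕ) :
    col p A A' = ((A ×ˢ A').filter fun x => x.1 % p = x.2 % p).card := by
  rw [Finset.card_eq_sum_card_fiberwise (f := fun x : ℕ × ℕ => x.1 % p) (t := range p)
    (fun x _ => by simp only [coe_range, Set.mem_Iio]; exact Nat.mod_lt _ hp)]
  rw [col]
  refine sum_congr rfl fun r _ => ?_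
  rw [cls, cls, ← card_product]
  congr 1
  ext x
  simp only [mem_product, mem_filter]
  constructor
  · rintro ⟨⟨h1, h2⟩, h3, h4⟩
    exact ⟨⟨⟨h1, h3⟩, by rw [h2, h4]⟩, h2⟩
  · rintro ⟨⟨⟨h1, h3⟩, h4⟩, h2⟩
    exact ⟨⟨h1, h2⟩, h3, by rw [← h4, h2]⟩

theorem sum_col_le {K M : ℕ} {A A' : Finset ℕ} (hd : Disjoint A A') (hA : A.card ≤ M)
    (hA' : A'.card ≤ M) (hK : ∀ b ∈ A, b < 2 ^ K) (hK' : ∀ b ∈ A', b < 2 ^ K) (R : Finset ℕ)
    (hR : ∀ p ∈ R, p.Prime) : ∑ p ∈ R, col p A A' ≤ M ^ 2 * K := by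
  have h1 : ∑ p ∈ R, col p A A' =
      ∑ x ∈ A ×ˢ A', (R.filter fun p => x.1 % p = x.2 % p).card := by
    have e1 : ∀ p ∈ R, col p A A' = ∑ x ∈ A ×ˢ A', if x.1 % p = x.2 % p then 1 else 0 := by
      intro p hp
      rw [col_eq (hR p hp).pos, card_filter]
    rw [sum_congr rfl e1, sum_comm]
    refine sum_congr rfl fun x _ => ?_
    rw [card_filter]
  rw [h1]
  calc ∑ x ∈ A ×ˢ A', (R.filter fun p => x.1 % p = x.2 % p).card ≤ ∑ x ∈ A ×ˢ A', K := by
        apply sum_le_sum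
        intro x hx
        rw [mem_product] at hx
        apply card_congr_le _ (hK _ hx.1) (hK' _ hx.2) R hR
        intro h
        exact Finset.disjoint_left.1 hd hx.1 (h ▸ hx.2)
    _ = A.card * A'.card * K := by rw [sum_const, card_product, smul_eq_mul]
    _ ≤ M * M * K := Nat.mul_le_mul_right _ (Nat.mul_le_mul hA hA')
    _ = M ^ 2 * K := by ring

/-- Crude ratio bound. -/
theorem ratio_crude {M : ℕ} {T s s₀ : ℝ} (hT : 0 < T) (hs0 : 0 < s₀) {N : List ℕ}
    (hbig : Big M N) (hNT : ∀ p ∈ N, T ≤ p) (hs : rsum N ≤ s) (hs0' : s₀ ≤ rsum N)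
    (hM : (M : ℝ) / T ≤ s₀ / 2) : Ratio N (s₀ / (2 * (1 + s))) M := by
  have hs1 : 0 < s := by linarith
  intro k hk hkM
  have h := ratio_start (ε := 1 / T) (c := 1 / (1 + s)) (s := s) (M := M) (by positivity)
    (by rw [one_div, inv_mul_cancel₀ (by positivity)]) hbig
    (fun p hp => one_div_le_one_div_of_le hT (hNT p hp)) hs k hk hkM
  refine le_trans ?_ h
  apply mul_le_mul_of_nonneg_right _ (phi_nonneg hbig _ (by omega))
  have h1 : (((k : ℝ) - 1) * (1 / T)) ≤ s₀ / 2 := by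
    refine le_trans ?_ hM
    rw [mul_one_div]
    have : (k : ℝ) ≤ M := by exact_mod_cast hkM
    exact div_le_div_of_nonneg_right (by linarith) hT.le
  have h2 : s₀ / 2 ≤ max 0 (rsum N - (k - 1) * (1 / T)) := le_trans (by linarith) (le_max_right _ _)
  calc s₀ / (2 * (1 + s)) = 1 / (1 + s) * (s₀ / 2) := by field_simp
    _ ≤ _ := mul_le_mul_of_nonneg_left h2 (by positivity)

theorem window_inj {p t M : ℕ} (hMp : M ≤ p) {A : Finset ℕ} (hA : A ⊆ Ioc t (t + M)) :
    Set.InjOn (fun b => b % p) (A : Set ℕ) := by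
  intro b hb c hc hbc
  simp only at hbc
  have h1 := mem_Ioc.1 (hA hb)
  have h2 := mem_Ioc.1 (hA hc)
  rcases lt_trichotomy b c with h | h | h
  · exfalso
    have h3 : p ∣ c - b := (Nat.modEq_iff_dvd' h.le).1 hbc
    have := Nat.le_of_dvd (by omega) h3
    omega
  · exact h
  · exfalso
    have h3 : p ∣ b - c := (Nat.modEq_iff_dvd' h.le).1 hbc.symm
    have := Nat.le_of_dvd (by omega) h3
    omega

variable {Ω : Type*} [MeasurableSpace Ω] {μ : Measure Ω} [IsProbabilityMeasure μ]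
  {a : ℕ → Ω → ℕ}

theorem scale (h : RandomClasses μ a) (R : Finset ℕ) (hR : ∀ p ∈ R, p.Prime) {T s s₀ : ℝ}
    {M X K : ℕ} (hT : ∀ p ∈ R, T ≤ p) (hM : 0 < M) (hMT : (M : ℝ) ≤ T)
    (hs : ∑ p ∈ R, 1 / (p : ℝ) ≤ s) (hs0 : 0 < s₀) (hs0' : s₀ ≤ ∑ p ∈ R, 1 / (p : ℝ))
    (hK : X < 2 ^ K) (h1 : (M : ℝ) ^ 2 * K / T ≤ s₀ / 2) (h2 : (M : ℝ) / T ≤ s₀ / 4)
    {ι : Type*} (W : Finset ι) (t : ι → ℕ) (A : ι → Finset ℕ)
    (hA : ∀ i ∈ W, A i ⊆ Ioc (t i) (t i + M)) (hAX : ∀ i ∈ W, t i + M ≤ X)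
    (hdisj : ∀ i ∈ W, ∀ j ∈ W, i ≠ j → Disjoint (A i) (A j)) {κ : ℝ} (hκ : 0 ≤ κ)
    (hr : Ratio R.toList κ M) {lam : ℝ} (hlam : 0 < lam) (hl : lam ≤ ∑ i ∈ W, κ ^ (A i).card) :
    μ.real {ω | ∀ i ∈ W, ω ∉ Hit a R.toList (A i)} ≤
      (Real.exp ((M : ℝ) ^ 2 * K / T / (s₀ / (4 * (1 + s))) ^ 2) - 1) + 1 / lam := by
  classical
  have hMp : ∀ p ∈ R, M ≤ p := fun p hp => by exact_mod_cast hMT.trans (hT p hp)
  have hM0 : (0 : ℝ) < M := by exact_mod_cast hM
  have hT0 : 0 < T := lt_of_lt_of_le hM0 hMT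
  have hs1 : 0 < s := by linarith
  set κc := s₀ / (4 * (1 + s)) with hκc
  have hκc0 : 0 < κc := by positivity
  have hκc1 : κc ≤ 1 := by
    rw [hκc, div_le_one (by positivity)]; linarith
  have hcard : ∀ i ∈ W, (A i).card ≤ M := by
    intro i hi
    have := card_le_card (hA i hi)
    simpa using this
  have hlt : ∀ i ∈ W, ∀ b ∈ A i, b < 2 ^ K := by
    intro i hi b hb
    have h3 := mem_Ioc.1 (hA i hi hb)
    have h4 := hAX i hi
    omega
  have hpos : ∀ p ∈ R.toList, 0 < p := fun p hp => (hR p (by simpa using hp)).pos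
  have hinj : ∀ i ∈ W, ∀ p ∈ R, Set.InjOn (fun b => b % p) (A i : Set ℕ) := fun i hi p hp =>
    window_inj (hMp p hp) (hA i hi)
  apply second_moment' W (fun i => Hit a R.toList (A i)) (fun i _ => hit_meas' h.meas _ _)
  · have h3 : 0 ≤ (M : ℝ) ^ 2 * K / T / κc ^ 2 := by positivity
    have := Real.add_one_le_exp ((M : ℝ) ^ 2 * K / T / κc ^ 2)
    linarith
  · intro i hi j hj hij
    have hd := hdisj i hi j hj hij
    have hsc := sum_col_le hd (hcard i hi) (hcard j hj) (hlt i hi) (hlt j hj) R hR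
    have hscR : ∑ p ∈ R, (col p (A i) (A j) : ℝ) ≤ (M : ℝ) ^ 2 * K := by
      rw [← Nat.cast_sum]
      exact_mod_cast hsc
    -- the primes without collisions
    set N := R.filter fun p => col p (A i) (A j) = 0 with hN
    have hNR : N ⊆ R := filter_subset _ _
    have hrN : s₀ / 2 ≤ rsum N.toList := by
      rw [rsum_toList]
      have e1 : ∑ p ∈ R, 1 / (p : ℝ) = ∑ p ∈ N, 1 / (p : ℝ) +
          ∑ p ∈ R.filter (fun p => ¬ col p (A i) (A j) = 0), 1 / (p : ℝ) :=
        (sum_filter_add_sum_filter_not _ _ _).symm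
      have e2 : ∑ p ∈ R.filter (fun p => ¬ col p (A i) (A j) = 0), 1 / (p : ℝ) ≤
          (M : ℝ) ^ 2 * K / T := by
        calc ∑ p ∈ R.filter (fun p => ¬ col p (A i) (A j) = 0), 1 / (p : ℝ) ≤
            ∑ p ∈ R.filter (fun p => ¬ col p (A i) (A j) = 0),
              (col p (A i) (A j) : ℝ) * (1 / T) := by
              apply sum_le_sum
              intro p hp
              rw [mem_filter] at hp
              have h4 : (1 : ℝ) ≤ col p (A i) (A j) := by
                exact_mod_cast Nat.one_le_iff_ne_zero.2 hp.2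
              have h5 : 1 / (p : ℝ) ≤ 1 / T := one_div_le_one_div_of_le hT0 (hT p hp.1)
              have h6 : 0 < 1 / T := by positivity
              nlinarith
          _ ≤ ∑ p ∈ R, (col p (A i) (A j) : ℝ) * (1 / T) :=
              sum_le_sum_of_subset_of_nonneg (filter_subset _ _) fun _ _ _ => by positivity
          _ = (∑ p ∈ R, (col p (A i) (A j) : ℝ)) * (1 / T) := by rw [sum_mul]
          _ ≤ ((M : ℝ) ^ 2 * K) * (1 / T) := mul_le_mul_of_nonneg_right hscR (by positivity)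
          _ = (M : ℝ) ^ 2 * K / T := by ring
      linarith
    have hsN : rsum N.toList ≤ s := by
      rw [rsum_toList]
      exact (sum_le_sum_of_subset_of_nonneg hNR fun _ _ _ => by positivity).trans hs
    have hratio : Ratio N.toList κc M := by
      have := ratio_crude (M := M) (T := T) (s := s) (s₀ := s₀ / 2) hT0 (by linarith)
        (N := N.toList) (fun p hp => ⟨(hR p (hNR (by simpa using hp))).pos,
          hMp p (hNR (by simpa using hp))⟩) (fun p hp => hT p (hNR (by simpa using hp))) hsN hrN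
        (by linarith)
      have e : s₀ / 2 / (2 * (1 + s)) = κc := by rw [hκc]; field_simp; ring
      rwa [e] at this
    have hpb := pair_bound h R hR hκc0 hκc1 hM hd (hcard i hi) (hcard j hj) hMp (hinj i hi)
      (hinj j hj) hratio
    refine hpb.trans ?_
    apply mul_le_mul_of_nonneg_right _ (by positivity)
    have e3 : ∑ p ∈ R, (col p (A i) (A j) : ℝ) * (1 / p) / κc ^ 2 ≤
        (M : ℝ) ^ 2 * K / T / κc ^ 2 := by
      rw [← sum_div]
      apply div_le_div_of_nonneg_right _ (by positivity)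
      calc ∑ p ∈ R, (col p (A i) (A j) : ℝ) * (1 / p) ≤
          ∑ p ∈ R, (col p (A i) (A j) : ℝ) * (1 / T) := by
            apply sum_le_sum
            intro p hp
            exact mul_le_mul_of_nonneg_left (one_div_le_one_div_of_le hT0 (hT p hp)) (by positivity)
        _ = (∑ p ∈ R, (col p (A i) (A j) : ℝ)) * (1 / T) := by rw [sum_mul]
        _ ≤ ((M : ℝ) ^ 2 * K) * (1 / T) := mul_le_mul_of_nonneg_right hscR (by positivity)
        _ = (M : ℝ) ^ 2 * K / T := by ring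
    have := Real.exp_le_exp.2 e3
    linarith
  · exact hlam
  · refine hl.trans (sum_le_sum fun i hi => ?_)
    rw [real_hit h R.toList R.nodup_toList (fun p hp => hR p (by simpa using hp)),
      hit_eq_phi hpos (A i) (fun p hp => hinj i hi p (by simpa using hp))]
    exact hr.lower hκ _ (hcard i hi)

end Pool.Agent.Work.MP_b0c12c_nt_helper41
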