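import Pool.Agent.Work.MP_b0c12c_nt_helper41.Sizes
import Pool.Agent.Work.MP_b0c12c_nt_helper41.Scale

/-!
# The ratio bound for the primes in `((2x)^θ, x^η]`
-/

set_option autoImplicit false

open Finset Filter Topology

namespace Pool.Agent.Work.MP_b0c12c_nt_helper41

/-- `⌊(2x) ^ θ⌋` -/
noncomputable def zf' (θ : ℝ) (x : ℕ) : ℕ := ⌊(2 * (x : ℝ)) ^ θ⌋₊

theorem log_zf' {θ : ℝ} (hθ : 0 < θ) :
    Tendsto (fun x => Real.log (zf' θ x) / ell x) atTop (𝓝 θ) := log_floor_rpow' hθ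

theorem Ratio.mono {l : List ℕ} {κ κ' : ℝ} {M : ℕ} (hb : Big M l) (h : κ' ≤ κ)
    (hr : Ratio l κ M) : Ratio l κ' M := by
  intro k hk hkM
  exact (mul_le_mul_of_nonneg_right h (phi_nonneg hb _ (by omega))).trans (hr k hk hkM)

theorem PQ_perm {u v w : ℕ} (huv : u ≤ v) (hvw : v ≤ w) :
    ((PQ v w).toList ++ (PQ u v).toList).Perm (PQ u w).toList := by
  rw [List.perm_ext_iff_of_nodup]
  · intro p
    simp only [List.mem_append, mem_toList, mem_PQ]
    constructor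
    · rintro (⟨⟨h1, h2⟩, h3⟩ | ⟨⟨h1, h2⟩, h3⟩)
      · exact ⟨⟨by omega, h2⟩, h3⟩
      · exact ⟨⟨h1, by omega⟩, h3⟩
    · rintro ⟨⟨h1, h2⟩, h3⟩
      by_cases h : p ≤ v
      · exact Or.inr ⟨⟨h1, h⟩, h3⟩
      · exact Or.inl ⟨⟨by omega, h2⟩, h3⟩
  · rw [List.nodup_append]
    refine ⟨nodup_toList _, nodup_toList _, ?_⟩
    intro p hp q hq hpq
    subst hpq
    rw [mem_toList, mem_PQ] at hp hq
    omega
  · exact nodup_toList _

theorem PQ_large {θ : ℝ} {x w p : ℕ} (hθ : 0 < θ) (hp : p ∈ PQ (zf' θ x) w) :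
    (x : ℝ) ^ θ ≤ p := by
  have h1 := (mem_PQ.1 hp).1.1
  have h2 : (2 * (x : ℝ)) ^ θ < p := by
    rw [zf'] at h1
    exact Nat.lt_of_floor_lt h1
  refine le_trans ?_ h2.le
  apply Real.rpow_le_rpow (by positivity) _ hθ.le
  have : (0 : ℝ) ≤ x := Nat.cast_nonneg x
  linarith

theorem PQ_large' {θ : ℝ} {x w p : ℕ} (hp : p ∈ PQ (zf θ x) w) : (x : ℝ) ^ θ ≤ p := by
  have h1 := (mem_PQ.1 hp).1.1
  rw [zf] at h1
  exact (Nat.lt_of_floor_lt h1).le

theorem prod_le_exp {δ : ℝ} (hδ0 : 0 ≤ δ) (l : List ℕ) (hl : ∀ p ∈ l, 0 < p) :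
    (l.map fun p : ℕ => 1 - (1 - δ) * (1 / (p : ℝ))).prod ≤ Real.exp (-((1 - δ) * rsum l)) := by
  induction l with
  | nil => simp
  | cons p l ih =>
    have ih' := ih (fun q hq => hl q (by simp [hq]))
    have hp : (1 : ℝ) ≤ p := by exact_mod_cast hl p (by simp)
    have h1 : 1 / (p : ℝ) ≤ 1 := by rw [div_le_one (by linarith)]; exact hp
    have h0 : 0 ≤ 1 / (p : ℝ) := by positivity
    simp only [List.map_cons, List.prod_cons, rsum_cons]
    have e : Real.exp (-((1 - δ) * (1 / (p : ℝ) + rsum l))) =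
        Real.exp (-((1 - δ) * (1 / (p : ℝ)))) * Real.exp (-((1 - δ) * rsum l)) := by
      rw [← Real.exp_add]; congr 1; ring
    rw [e]
    apply mul_le_mul _ ih' _ (Real.exp_pos _).le
    · have := Real.add_one_le_exp (-((1 - δ) * (1 / (p : ℝ))))
      linarith
    · apply List.prod_nonneg
      intro a ha
      rw [List.mem_map] at ha
      obtain ⟨q, hq, rfl⟩ := ha
      have hq1 : (1 : ℝ) ≤ q := by exact_mod_cast hl q (by simp [hq])
      have h1 : 1 / (q : ℝ) ≤ 1 := by rw [div_le_one (by linarith)]; exact hq1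
      have h0 : 0 ≤ 1 / (q : ℝ) := by positivity
      nlinarith

theorem eventually_le_of_log {u v : ℕ → ℕ} {a b : ℝ} (ha : 0 < a) (hab : a < b)
    (hu : Tendsto (fun x => Real.log (u x) / ell x) atTop (𝓝 a))
    (hv : Tendsto (fun x => Real.log (v x) / ell x) atTop (𝓝 b)) :
    ∀ᶠ x : ℕ in atTop, u x ≤ v x := by
  filter_upwards [ell_tendsto.eventually_gt_atTop 0, hu.eventually_lt_const
    (show a < (a + b) / 2 by linarith), hv.eventually_const_lt
    (show (a + b) / 2 < b by linarith)] with x h3 h4 h5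
  rw [div_lt_iff₀ h3] at h4
  rw [lt_div_iff₀ h3] at h5
  have h7 : Real.log (u x) < Real.log (v x) := by linarith
  by_contra hcon
  rw [not_le] at hcon
  have hv0 : 0 < v x := by
    rcases Nat.eq_zero_or_pos (v x) with h | h
    · rw [h] at h5; simp at h5
      have : 0 < (a + b) / 2 * ell x := by
        have : 0 < (a + b) / 2 := by linarith
        positivity
      linarith
    · exact h
  have := Real.log_le_log (by exact_mod_cast hv0)
    (show ((v x : ℕ) : ℝ) ≤ (u x : ℕ) by exact_mod_cast hcon.le)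
  linarith

/-- **The ratio bound.** -/
theorem ratio_eventually {θ η κ lam : ℝ} (hθ : 0 < θ) (hθη : θ < η) (hκ : κ < 1 - θ / η)
    (hl : 0 < lam) : ∀ᶠ x : ℕ in atTop, Ratio (PQ (zf' θ x) (zf η x)).toList κ (yf lam x) := by
  have hη : 0 < η := by linarith
  set Λ := Real.log η - Real.log θ with hΛ
  have hΛ0 : 0 < Λ := sub_pos.2 (Real.log_lt_log hθ hθη)
  have hexpΛ : Real.exp (-Λ) = θ / η := by
    rw [hΛ, neg_sub, Real.exp_sub, Real.exp_log hθ, Real.exp_log hη]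
  have hκ1 : 0 < 1 - κ := by
    have : 0 < θ / η := by positivity
    linarith
  set ρ := max (-Real.log (1 - κ)) (Λ / 2) with hρ
  have hρΛ : ρ < Λ := by
    rw [hρ, max_lt_iff]
    refine ⟨?_, by linarith⟩
    have : Real.log (θ / η) < Real.log (1 - κ) := Real.log_lt_log (by positivity) (by linarith)
    rw [← hexpΛ, Real.log_exp] at this
    linarith
  set g := Λ - ρ with hg
  have hg0 : 0 < g := by linarith
  have hgΛ : g ≤ Λ / 2 := by
    have := le_max_right (-Real.log (1 - κ)) (Λ / 2)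
    linarith
  set θ₁ := θ * Real.exp (g / 3) with hθ₁
  have hθ₁0 : 0 < θ₁ := by positivity
  have hlogθ₁ : Real.log θ₁ = Real.log θ + g / 3 := by
    rw [hθ₁, Real.log_mul hθ.ne' (Real.exp_pos _).ne', Real.log_exp]
  have hθθ₁ : θ < θ₁ := by
    rw [← Real.log_lt_log_iff hθ hθ₁0, hlogθ₁]; linarith
  have hθ₁η : θ₁ < η := by
    rw [← Real.log_lt_log_iff hθ₁0 hη, hlogθ₁]; linarith
  set δ := g / (3 * Λ) with hδ
  have hδ0 : 0 < δ := by positivity
  have hδ1 : δ ≤ 1 := by rw [hδ, div_le_one (by positivity)]; linarith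
  have hδΛ : δ * Λ = g / 3 := by rw [hδ]; field_simp
  -- the sums
  have h1 := mertens_tendsto hθ hθθ₁ (log_zf' hθ) (log_zf hθ₁0)
  have h2 := mertens_tendsto hθ₁0 hθ₁η (log_zf hθ₁0) (log_zf hη)
  rw [hlogθ₁] at h1 h2
  have e1 : Real.log θ + g / 3 - Real.log θ = g / 3 := by ring
  have e2 : Real.log η - (Real.log θ + g / 3) = Λ - g / 3 := by rw [hΛ]; ring
  rw [e1] at h1
  rw [e2] at h2
  set s₀ := g / 6 with hs₀
  set s := g / 2 with hs
  set κ₁ := s₀ / (2 * (1 + s)) with hκ₁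
  have hs₀0 : 0 < s₀ := by positivity
  have hκ₁0 : 0 < κ₁ := by positivity
  have hκ₁1 : κ₁ ≤ 1 := by
    rw [hκ₁, div_le_one (by positivity)]; linarith
  have hy := yf_small (lam := lam) (a := θ) hl.le hθ
  have hmin : 0 < min 1 (min (s₀ / 2) (δ * κ₁)) := by positivity
  -- the target
  have hlim : ρ < (1 - δ) * (Λ - g / 3) := by
    have : (1 - δ) * (Λ - g / 3) = Λ - g / 3 - δ * Λ + δ * (g / 3) := by ring
    rw [this, hδΛ]
    have : 0 < δ * (g / 3) := by positivity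
    linarith
  have h3 := (h2.const_mul (1 - δ)).eventually_const_lt hlim
  filter_upwards [h1.eventually_lt_const (show g / 3 < s by linarith),
    h1.eventually_const_lt (show s₀ < g / 3 by linarith), h3, hy.eventually_lt_const hmin,
    eventually_le_of_log hθ hθθ₁ (log_zf' hθ) (log_zf hθ₁0),
    eventually_le_of_log hθ₁0 hθ₁η (log_zf hθ₁0) (log_zf hη), eventually_gt_atTop 0]
    with x a1 a2 a3 a4 a5 a6 a7
  have hx0 : (0 : ℝ) < x := by exact_mod_cast a7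
  have hT0 : (0 : ℝ) < (x : ℝ) ^ θ := Real.rpow_pos_of_pos hx0 _
  rw [lt_min_iff, lt_min_iff] at a4
  obtain ⟨b1, b2, b3⟩ := a4
  rw [div_lt_one hT0] at b1
  have hmem : ∀ p ∈ (PQ (zf θ₁ x) (zf η x)).toList ++ (PQ (zf' θ x) (zf θ₁ x)).toList,
      p.Prime ∧ (x : ℝ) ^ θ ≤ p := by
    intro p hp
    rw [(PQ_perm a5 a6).mem_iff, mem_toList] at hp
    exact ⟨(mem_PQ.1 hp).2, PQ_large hθ hp⟩
  have hbig : Big (yf lam x) ((PQ (zf θ₁ x) (zf η x)).toList ++ (PQ (zf' θ x) (zf θ₁ x)).toList) := by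
    intro p hp
    obtain ⟨c1, c2⟩ := hmem p hp
    exact ⟨c1.pos, by exact_mod_cast b1.le.trans c2⟩
  have hmem1 : ∀ p ∈ (PQ (zf' θ x) (zf θ₁ x)).toList, p.Prime ∧ (x : ℝ) ^ θ ≤ p := fun p hp =>
    hmem p (List.mem_append_right _ hp)
  have hmem2 : ∀ p ∈ (PQ (zf θ₁ x) (zf η x)).toList, p.Prime ∧ (x : ℝ) ^ θ ≤ p := fun p hp =>
    hmem p (List.mem_append_left _ hp)
  have hr1 : Ratio (PQ (zf' θ x) (zf θ₁ x)).toList κ₁ (yf lam x) := by
    apply ratio_crude (T := (x : ℝ) ^ θ) (s := s) (s₀ := s₀) hT0 hs₀0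
    · intro p hp; exact hbig p (List.mem_append_right _ hp)
    · intro p hp; exact (hmem1 p hp).2
    · rw [rsum_toList]; exact a1.le
    · rw [rsum_toList]; exact a2.le
    · exact b2.le
  have hM : ∀ p ∈ (PQ (zf θ₁ x) (zf η x)).toList, (yf lam x : ℝ) * (1 / (p : ℝ)) ≤ δ * κ₁ := by
    intro p hp
    have c2 := (hmem2 p hp).2
    calc (yf lam x : ℝ) * (1 / (p : ℝ)) ≤ (yf lam x : ℝ) * (1 / (x : ℝ) ^ θ) :=
          mul_le_mul_of_nonneg_left (one_div_le_one_div_of_le hT0 c2) (by positivity)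
      _ = (yf lam x : ℝ) / (x : ℝ) ^ θ := by ring
      _ ≤ δ * κ₁ := b3.le
  have hr2 := hr1.grow_append hκ₁0 hκ₁1 hδ0.le hδ1 hbig hM
  have hr3 := hr2.perm (PQ_perm a5 a6)
  refine hr3.mono ?_ ?_
  · intro p hp
    rw [← (PQ_perm a5 a6).mem_iff] at hp
    exact hbig p hp
  · have d1 := prod_le_exp hδ0.le (PQ (zf θ₁ x) (zf η x)).toList
      (fun p hp => (hmem2 p hp).1.pos)
    rw [rsum_toList] at d1
    set Pr := ((PQ (zf θ₁ x) (zf η x)).toList.map fun p : ℕ => 1 - (1 - δ) * (1 / (p : ℝ))).prod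
      with hPr
    have d2 : Real.exp (-((1 - δ) * ∑ p ∈ PQ (zf θ₁ x) (zf η x), 1 / (p : ℝ))) ≤ Real.exp (-ρ) :=
      Real.exp_le_exp.2 (by linarith)
    have d3 : Real.exp (-ρ) ≤ 1 - κ := by
      rw [← Real.exp_log hκ1]
      apply Real.exp_le_exp.2
      have := le_max_left (-Real.log (1 - κ)) (Λ / 2)
      linarith
    have d4 : 0 ≤ Pr := by
      apply List.prod_nonneg
      intro b hb
      rw [List.mem_map] at hb
      obtain ⟨q, hq, rfl⟩ := hb
      have hq1 : (1 : ℝ) ≤ q := by exact_mod_cast (hmem2 q hq).1.one_lt.le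
      have h1 : 1 / (q : ℝ) ≤ 1 := by rw [div_le_one (by linarith)]; exact hq1
      have h0 : 0 ≤ 1 / (q : ℝ) := by positivity
      nlinarith
    have d5 : (1 - κ₁) * Pr = Pr - κ₁ * Pr := by ring
    have d6 : 0 ≤ κ₁ * Pr := mul_nonneg hκ₁0.le d4
    rw [d5]
    linarith

end Pool.Agent.Work.MP_b0c12c_nt_helper41
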