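import Pool.Agent.Work.MP_b0c12c_nt_helper41.Defs
import Pool.Agent.Work.MP_b0c12c_nt_helper41.Rat
import Pool.Agent.Work.MP_b0c12c_nt_helper63.Inf

/-!
# The random set is almost surely infinite
-/

set_option autoImplicit false
set_option linter.unusedSectionVars false
set_option linter.deprecated false

open MeasureTheory ProbabilityTheory Finset Filter Topology
open Pool.Agent.Work.MP_b0c12c_nt_helper63 (RandomClasses avoid_prob prod_lower second_moment)

namespace Pool.Agent.Work.MP_b0c12c_nt_helper41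

variable {Ω : Type*} [MeasurableSpace Ω] {μ : Measure Ω} [IsProbabilityMeasure μ]
  {a : ℕ → Ω → ℕ}

theorem exists_scales' (θ η : ℝ) (hθ0 : 0 < θ) (hη0 : 0 < η) (N₀ : ℕ) : ∃ g : ℕ → ℕ,
    StrictMono g ∧ (∀ j, (g j).Prime ∧ N₀ ≤ g j) ∧
    ∀ i j, i < j → ((g i : ℕ) : ℝ) ^ η ≤ ((g j : ℕ) : ℝ) ^ θ := by
  have h1 : ∀ N : ℕ, ∃ n : ℕ, N < n ∧ n.Prime ∧ (N : ℝ) ^ η ≤ (n : ℝ) ^ θ := by
    intro N
    have h2 : Filter.Tendsto (fun n : ℕ => (n : ℝ) ^ θ) Filter.atTop Filter.atTop :=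
      (tendsto_rpow_atTop hθ0).comp tendsto_natCast_atTop_atTop
    obtain ⟨K, hK⟩ := Filter.eventually_atTop.mp (h2.eventually_ge_atTop ((N : ℝ) ^ η))
    obtain ⟨n, hn1, hn2⟩ := Nat.exists_infinite_primes (max K (N + 1))
    exact ⟨n, by have := le_max_right K (N + 1); omega, hn2, hK n ((le_max_left _ _).trans hn1)⟩
  choose f hf1 hf2 hf3 using h1
  set g : ℕ → ℕ := fun j => Nat.rec (f N₀) (fun _ m => f m) j with hg
  have hgs : ∀ j, g (j + 1) = f (g j) := fun j => rfl
  have hmono : StrictMono g := strictMono_nat_of_lt_succ fun j => by rw [hgs]; exact hf1 _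
  refine ⟨g, hmono, ?_, ?_⟩
  · intro j
    constructor
    · cases j with
      | zero => exact hf2 N₀
      | succ j => rw [hgs]; exact hf2 _
    · have h2 : g 0 ≤ g j := hmono.monotone (Nat.zero_le j)
      have h3 : N₀ < g 0 := hf1 N₀
      omega
  · intro i j hij
    obtain ⟨k, rfl⟩ : ∃ k, j = k + 1 := ⟨j - 1, by omega⟩
    have h2 : g i ≤ g k := hmono.monotone (by omega)
    have h3 := hf3 (g k)
    rw [← hgs] at h3
    have h4 : ((g i : ℕ) : ℝ) ^ η ≤ ((g k : ℕ) : ℝ) ^ η :=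
      Real.rpow_le_rpow (by positivity) (by exact_mod_cast h2) hη0.le
    linarith

/-- The random set is almost surely infinite. -/
theorem semi_infinite (ha : RandomClasses μ a) {θ η : ℝ} (hθ0 : 0 < θ) (hθ1 : θ < 1)
    (hθη : θ < η) : ∀ᵐ ω ∂μ, (Semi θ η (fun p => a p ω)).Infinite := by
  classical
  have hη0 : 0 < η := by linarith
  set Λ := Real.log η - Real.log θ with hΛ
  have hR := mertens_tendsto hθ0 hθη (log_zf hθ0) (log_zf hη0)
  rw [← hΛ] at hR
  obtain ⟨N₀, hN₀⟩ := eventually_atTop.1 (hR.eventually_lt_const (show Λ < Λ + 1 by linarith))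
  obtain ⟨g, hmono, hg1, hg2⟩ := exists_scales' θ η hθ0 hη0 N₀
  set B : ℕ → Finset ℕ := fun j => PQ (zf θ (g j)) (zf η (g j)) with hB
  have hg0 : ∀ j, (1 : ℝ) < g j := fun j => by exact_mod_cast (hg1 j).1.one_lt
  have hBmem : ∀ j, ∀ p ∈ B j, p.Prime ∧ ((g j : ℕ) : ℝ) ^ θ < p ∧ (p : ℝ) ≤ ((g j : ℕ) : ℝ) ^ η := by
    intro j p hp
    obtain ⟨⟨h1, h2⟩, h3⟩ := mem_PQ.1 hp
    rw [zf] at h1 h2
    refine ⟨h3, Nat.lt_of_floor_lt h1, ?_⟩
    have h4 : (0:ℝ) ≤ ((g j : ℕ) : ℝ) ^ η := by positivity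
    exact (Nat.le_floor_iff h4).1 h2
  have hBmem' : ∀ j, ∀ p : ℕ, p.Prime → ((g j : ℕ) : ℝ) ^ θ < p →
      (p : ℝ) ≤ ((g j : ℕ) : ℝ) ^ η → p ∈ B j := by
    intro j p hp h1 h2
    rw [hB]
    simp only [mem_PQ]
    refine ⟨⟨?_, ?_⟩, hp⟩
    · rw [zf]
      exact (Nat.floor_lt (by positivity)).2 h1
    · rw [zf]
      exact Nat.le_floor h2
  have hBprime : ∀ j, ∀ p ∈ B j, p.Prime := fun j p hp => (hBmem j p hp).1
  set F : ℕ → Set Ω := fun j => {ω | ∀ p ∈ B j, a p ω ≠ g j % p} with hF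
  have hFm : ∀ j, MeasurableSet (F j) := by
    intro j
    have : F j = ⋂ p ∈ B j, a p ⁻¹' {g j % p}ᶜ := by ext ω; simp [hF]
    rw [this]
    exact Finset.measurableSet_biInter _ fun p _ => ha.meas p MeasurableSet.of_discrete
  have hFS : ∀ j ω, ω ∈ F j → g j ∈ Semi θ η (fun p => a p ω) := by
    intro j ω hω
    refine ⟨(hg1 j).1.two_le, ?_⟩
    intro p hp
    refine ⟨?_, ?_⟩
    · intro hpn hdvd
      rcases (Nat.dvd_prime (hg1 j).1).mp hdvd with h | h
      · exact hp.one_lt.ne' h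
      · rw [h] at hpn
        have h2 : ((g j : ℕ) : ℝ) ^ θ < ((g j : ℕ) : ℝ) ^ (1 : ℝ) :=
          Real.rpow_lt_rpow_of_exponent_lt (hg0 j) hθ1
        rw [Real.rpow_one] at h2
        linarith
    · intro h1 h2
      exact (hω p (hBmem' j p hp h1 h2)).symm
  set c0 := Real.exp (-2 * (Λ + 1)) with hc0
  have hc0pos : 0 < c0 := Real.exp_pos _
  have hFlow : ∀ j, c0 ≤ μ.real (F j) := by
    intro j
    rw [hF]
    simp only
    rw [avoid_prob ha (B j) (hBprime j) (fun p => g j % p)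
      (fun p hp => Nat.mod_lt _ (hBprime j p hp).pos)]
    refine le_trans ?_ (prod_lower (B j) (hBprime j))
    apply Real.exp_le_exp.mpr
    have h1 := hN₀ (g j) (hg1 j).2
    have h2 : ∑ p ∈ B j, (1 : ℝ) / p < Λ + 1 := h1
    linarith
  have hdisj : ∀ i j, i < j → Disjoint (B i) (B j) := by
    intro i j hij
    rw [Finset.disjoint_left]
    intro p hpi hpj
    obtain ⟨_, _, h2⟩ := hBmem i p hpi
    obtain ⟨_, h6, _⟩ := hBmem j p hpj
    have h8 := hg2 i j hij
    linarith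
  have hpair' : ∀ i j, i < j → μ.real (F i ∩ F j) = μ.real (F i) * μ.real (F j) := by
    intro i j hij
    have hd := hdisj i j hij
    have h1 : F i ∩ F j =
        {ω | ∀ p ∈ B i ∪ B j, a p ω ≠ (if p ∈ B i then g i % p else g j % p)} := by
      ext ω
      simp only [hF, Set.mem_inter_iff, Set.mem_setOf_eq, mem_union]
      constructor
      · rintro ⟨h1, h2⟩ p hp
        by_cases hpi : p ∈ B i
        · rw [if_pos hpi]; exact h1 p hpi
        · rw [if_neg hpi]; exact h2 p (hp.resolve_left hpi)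
      · intro h1
        refine ⟨fun p hp => ?_, fun p hp => ?_⟩
        · have := h1 p (Or.inl hp); rwa [if_pos hp] at this
        · have hpi : p ∉ B i := fun h => (Finset.disjoint_left.mp hd) h hp
          have := h1 p (Or.inr hp); rwa [if_neg hpi] at this
    rw [h1, avoid_prob ha (B i ∪ B j) _ (fun p => if p ∈ B i then g i % p else g j % p),
      Finset.prod_union hd]
    · rw [hF]
      simp only
      rw [avoid_prob ha (B i) (hBprime i) (fun p => g i % p)
        (fun p hp => Nat.mod_lt _ (hBprime i p hp).pos),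
        avoid_prob ha (B j) (hBprime j) (fun p => g j % p)
        (fun p hp => Nat.mod_lt _ (hBprime j p hp).pos)]
    · intro p hp
      have hp' : p.Prime := by
        rw [mem_union] at hp
        exact hp.elim (hBprime i p) (hBprime j p)
      split_ifs <;> exact Nat.mod_lt _ hp'.pos
    · intro p hp
      rw [mem_union] at hp
      exact hp.elim (hBprime i p) (hBprime j p)
  have hpair : ∀ i j, i ≠ j → μ.real (F i ∩ F j) ≤ μ.real (F i) * μ.real (F j) := by
    intro i j hij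
    rcases Nat.lt_or_gt_of_ne hij with h | h
    · exact (hpair' i j h).le
    · rw [Set.inter_comm, mul_comm]; exact (hpair' j i h).le
  -- for each K, almost surely some F j occurs with j ≥ K
  have hK : ∀ K : ℕ, μ {ω | ∀ j, K ≤ j → ω ∉ F j} = 0 := by
    intro K
    have h1 : ∀ N : ℕ, 1 ≤ N → μ.real {ω | ∀ j, K ≤ j → ω ∉ F j} ≤ 1 / (c0 * N) := by
      intro N hN
      have hN0 : (0 : ℝ) < N := by exact_mod_cast hN
      have h2 := second_moment (μ := μ) (Ico K (K + N)) F (fun j _ => hFm j)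
        (fun i _ j _ hij => hpair i j hij) (lam := c0 * N) (by positivity) (by
          calc c0 * N = ∑ j ∈ Ico K (K + N), c0 := by
                rw [Finset.sum_const, Nat.card_Ico, nsmul_eq_mul, Nat.add_sub_cancel_left]; ring
            _ ≤ _ := Finset.sum_le_sum fun j _ => hFlow j)
      refine le_trans (measureReal_mono ?_) h2
      intro ω hω j hj
      rw [mem_Ico] at hj
      exact hω j hj.1
    have h3 : μ.real {ω | ∀ j, K ≤ j → ω ∉ F j} ≤ 0 := by
      apply ge_of_tendsto (f := fun N : ℕ => 1 / (c0 * N)) (x := Filter.atTop) _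
        (Filter.eventually_atTop.mpr ⟨1, h1⟩)
      have h4 : Filter.Tendsto (fun N : ℕ => c0 * (N : ℝ)) Filter.atTop Filter.atTop :=
        tendsto_natCast_atTop_atTop.const_mul_atTop hc0pos
      refine h4.inv_tendsto_atTop.congr fun N => ?_
      simp only [Pi.inv_apply, one_div]
    have h4 : μ.real {ω | ∀ j, K ≤ j → ω ∉ F j} = 0 := le_antisymm h3 measureReal_nonneg
    rwa [measureReal_eq_zero_iff] at h4
  have hall : ∀ᵐ ω ∂μ, ∀ K : ℕ, ∃ j, K ≤ j ∧ ω ∈ F j := by
    rw [ae_all_iff]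
    intro K
    rw [ae_iff]
    convert! hK K using 3
    push Not
    rfl
  filter_upwards [hall] with ω hω
  rw [Set.infinite_iff_exists_gt]
  intro N
  obtain ⟨j, hj, hjF⟩ := hω (N + 1)
  refine ⟨g j, hFS j ω hjF, ?_⟩
  have : j ≤ g j := hmono.le_apply
  omega

end Pool.Agent.Work.MP_b0c12c_nt_helper41
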