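import Pool.Agent.Work.MP_b0c12c_nt_helper41.Asym

/-!
# Integers up to `y` without prime factors `≤ w`, when `y < w³`
-/

set_option autoImplicit false

open Finset Filter Topology

namespace Pool.Agent.Work.MP_b0c12c_nt_helper41

/-- integers `j ≤ y` coprime to the primes up to `w` -/
def JJ (w y : ℕ) : Finset ℕ := (Ioc 0 y).filter fun j => j.Coprime (primorial w)

theorem card_primes_le (n : ℕ) : ((Icc 1 n).filter Nat.Prime).card = Nat.primeCounting n := by
  rw [Nat.primeCounting, Nat.primeCounting', Nat.count_eq_card_filter_range]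
  congr 1
  ext p
  simp only [mem_filter, mem_Icc, mem_range]
  constructor
  · rintro ⟨⟨_, h⟩, hp⟩; exact ⟨by omega, hp⟩
  · rintro ⟨h, hp⟩; exact ⟨⟨hp.one_lt.le, by omega⟩, hp⟩

theorem card_JJ_le {w y : ℕ} (hw : 1 ≤ w) (hy : y < (w + 1) ^ 3) :
    (JJ w y).card ≤ 1 + Nat.primeCounting y + Nat.primeCounting (y / w) ^ 2 := by
  set A := (Icc 1 y).filter Nat.Prime with hA
  set B := (Icc 1 (y / w)).filter Nat.Prime with hB
  have hsub : JJ w y ⊆ ({1} ∪ A) ∪ (B ×ˢ B).image (fun x => x.1 * x.2) := by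
    intro j hj
    rw [JJ, mem_filter, mem_Ioc] at hj
    obtain ⟨⟨hj0, hjy⟩, hjc⟩ := hj
    have hfac : ∀ p : ℕ, p.Prime → p ∣ j → w + 1 ≤ p := by
      intro p hp hpj
      by_contra hcon
      have h1 : p ∣ primorial w := (hp.dvd_primorial_iff).2 (by omega)
      have h2 := Nat.dvd_gcd hpj h1
      rw [hjc] at h2
      exact hp.one_lt.ne' (Nat.dvd_one.1 h2)
    rw [mem_union, mem_union, mem_singleton]
    by_cases hj1 : j = 1
    · exact Or.inl (Or.inl hj1)
    by_cases hjp : j.Prime
    · exact Or.inl (Or.inr (by rw [hA, mem_filter, mem_Icc]; exact ⟨⟨hj0, hjy⟩, hjp⟩))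
    right
    have hp := Nat.minFac_prime hj1
    have hpj := Nat.minFac_dvd j
    set p := j.minFac with hpd
    obtain ⟨m, hm⟩ := hpj
    have hm0 : m ≠ 0 := by rintro rfl; simp at hm; omega
    have hm1 : m ≠ 1 := by rintro rfl; rw [mul_one] at hm; rw [hm] at hjp; exact hjp hp
    have hq := Nat.minFac_prime hm1
    have hqm := Nat.minFac_dvd m
    set q := m.minFac with hqd
    obtain ⟨r, hr⟩ := hqm
    have hqj : q ∣ j := by rw [hm, hr]; exact ⟨p * r, by ring⟩
    have hpw := hfac p hp ⟨m, hm⟩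
    have hqw := hfac q hq hqj
    have hr0 : r ≠ 0 := by rintro rfl; simp at hr; omega
    have hr1 : r = 1 := by
      by_contra hne
      have hs := Nat.minFac_prime hne
      have hsr := Nat.minFac_dvd r
      have hsw : w + 1 ≤ r.minFac := by
        apply hfac _ hs
        rw [hm, hr]
        exact (hsr.trans (Dvd.intro_left q rfl)).trans (Dvd.intro_left p rfl)
      have hrw : w + 1 ≤ r := hsw.trans (Nat.le_of_dvd (Nat.pos_of_ne_zero hr0) hsr)
      have h1 : (w + 1) ^ 3 ≤ j := by
        calc (w + 1) ^ 3 = (w + 1) * ((w + 1) * (w + 1)) := by ring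
          _ ≤ p * (q * r) := Nat.mul_le_mul hpw (Nat.mul_le_mul hqw hrw)
          _ = j := by rw [hm, hr]
      omega
    rw [hr1, mul_one] at hr
    rw [hr] at hm
    rw [mem_image]
    refine ⟨(p, q), ?_, hm.symm⟩
    rw [mem_product, hB, mem_filter, mem_filter, mem_Icc, mem_Icc]
    have h1 : p ≤ y / w := by
      rw [Nat.le_div_iff_mul_le (by omega)]
      calc p * w ≤ p * q := Nat.mul_le_mul_left _ (by omega)
        _ = j := hm.symm
        _ ≤ y := hjy
    have h2 : q ≤ y / w := by
      rw [Nat.le_div_iff_mul_le (by omega)]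
      calc q * w ≤ q * p := Nat.mul_le_mul_left _ (by omega)
        _ = j := by rw [hm]; ring
        _ ≤ y := hjy
    exact ⟨⟨⟨hp.one_lt.le, h1⟩, hp⟩, ⟨⟨hq.one_lt.le, h2⟩, hq⟩⟩
  calc (JJ w y).card ≤ (({1} ∪ A) ∪ (B ×ˢ B).image (fun x => x.1 * x.2)).card := card_le_card hsub
    _ ≤ ({1} ∪ A).card + ((B ×ˢ B).image (fun x => x.1 * x.2)).card := card_union_le _ _
    _ ≤ (({1} : Finset ℕ).card + A.card) + (B ×ˢ B).card :=
        Nat.add_le_add (card_union_le _ _) card_image_le
    _ = 1 + Nat.primeCounting y + Nat.primeCounting (y / w) ^ 2 := by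
        rw [card_singleton, card_product, hA, hB, card_primes_le, card_primes_le]
        ring

/-- `w = ⌊e log x⌋` -/
noncomputable def wf (e : ℝ) (x : ℕ) : ℕ := ⌊e * ell x⌋₊

/-- `y = ⌈lam log²(2x)⌉` -/
noncomputable def yf (lam : ℝ) (x : ℕ) : ℕ := ⌈lam * Real.log (2 * (x : ℝ)) ^ 2⌉₊

theorem wf_div {e : ℝ} (he : 0 ≤ e) : Tendsto (fun x => (wf e x : ℝ) / ell x) atTop (𝓝 e) :=
  (tendsto_nat_floor_mul_div_atTop he).comp ell_tendsto

theorem wf_tendsto {e : ℝ} (he : 0 < e) : Tendsto (wf e) atTop atTop :=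
  floor_tendsto (ell_tendsto.const_mul_atTop he)

theorem yf_div {lam : ℝ} (hl : 0 ≤ lam) :
    Tendsto (fun x => (yf lam x : ℝ) / ell x ^ 2) atTop (𝓝 lam) := by
  have h0 : Tendsto (fun x : ℕ => Real.log (2 * (x : ℝ)) ^ 2) atTop atTop :=
    (tendsto_pow_atTop two_ne_zero).comp (Real.tendsto_log_atTop.comp two_mul_tendsto)
  have h1 : Tendsto (fun x : ℕ => (yf lam x : ℝ) / Real.log (2 * (x : ℝ)) ^ 2) atTop (𝓝 lam) :=
    (tendsto_nat_ceil_mul_div_atTop hl).comp h0
  have h2 := h1.mul (log_two_mul_div.pow 2)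
  rw [one_pow, mul_one] at h2
  refine h2.congr' ?_
  filter_upwards [h0.eventually_gt_atTop 0, ell_tendsto.eventually_gt_atTop 0] with x h3 h4
  have h5 : Real.log (2 * (x : ℝ)) ≠ 0 := by
    intro h; rw [h] at h3; norm_num at h3
  rw [div_pow]
  field_simp

theorem yf_tendsto {lam : ℝ} (hl : 0 < lam) : Tendsto (fun x => (yf lam x : ℝ)) atTop atTop := by
  have h := (yf_div hl.le).pos_mul_atTop hl ((tendsto_pow_atTop two_ne_zero).comp ell_tendsto)
  refine h.congr' ?_
  filter_upwards [ell_tendsto.eventually_gt_atTop 0] with x h3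
  simp only [Function.comp_apply]
  field_simp

theorem log_wf {e : ℝ} (he : 0 < e) :
    Tendsto (fun x => Real.log (wf e x) / Real.log (ell x)) atTop (𝓝 1) :=
  log_ratio he ell_tendsto (wf_div he.le)

theorem log_yf {lam : ℝ} (hl : 0 < lam) :
    Tendsto (fun x => Real.log (yf lam x) / Real.log (ell x)) atTop (𝓝 2) := by
  refine log_ratio' hl ((tendsto_pow_atTop two_ne_zero).comp ell_tendsto) (yf_div hl.le) ?_
  refine tendsto_const_nhds.congr' ?_
  filter_upwards [(Real.tendsto_log_atTop.comp ell_tendsto).eventually_gt_atTop 0] with x hx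
  simp only [Function.comp_apply] at hx ⊢
  rw [Real.log_pow]
  field_simp
  norm_num

theorem pi_yf {lam : ℝ} (hl : 0 < lam) :
    Tendsto (fun x => (Nat.primeCounting (yf lam x) : ℝ) * Real.log (ell x) / ell x ^ 2) atTop
      (𝓝 (lam / 2)) := by
  have h1 := PNT70.primeCounting_tendsto.comp (yf_tendsto hl)
  have h2 := (h1.mul (yf_div hl.le)).div (log_yf hl) (by norm_num)
  rw [one_mul] at h2
  refine h2.congr' ?_
  filter_upwards [ell_tendsto.eventually_gt_atTop 0, (yf_tendsto hl).eventually_gt_atTop 1,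
    (Real.tendsto_log_atTop.comp ell_tendsto).eventually_gt_atTop 0] with x h3 h4 h5
  simp only [Function.comp_apply, Nat.floor_natCast] at h5 ⊢
  have h6 : 0 < Real.log (yf lam x) := Real.log_pos h4
  have h7 : (0:ℝ) < yf lam x := by linarith
  simp only [Pi.div_apply]
  field_simp

theorem pi_quot {lam e : ℝ} (hl : 0 < lam) (he : 0 < e) :
    Tendsto (fun x => ((Nat.primeCounting (yf lam x / wf e x) : ℝ)) ^ 2 * Real.log (ell x) /
      ell x ^ 2) atTop (𝓝 0) := by
  set r : ℕ → ℝ := fun x => (yf lam x : ℝ) / wf e x with hr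
  have hrdiv : Tendsto (fun x => r x / ell x) atTop (𝓝 (lam / e)) := by
    have h := (yf_div hl.le).div (wf_div he.le) he.ne'
    refine h.congr' ?_
    filter_upwards [ell_tendsto.eventually_gt_atTop 0] with x h3
    simp only [Pi.div_apply, hr]
    field_simp
  have hc : 0 < lam / e := by positivity
  have hrt : Tendsto r atTop atTop := by
    have h := hrdiv.pos_mul_atTop hc ell_tendsto
    refine h.congr' ?_
    filter_upwards [ell_tendsto.eventually_gt_atTop 0] with x h3
    field_simp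
  have hlogr := log_ratio hc ell_tendsto hrdiv
  have h1 := PNT70.primeCounting_tendsto.comp hrt
  -- π(r) log L / L → lam / e
  have h2 : Tendsto (fun x => (Nat.primeCounting ⌊r x⌋₊ : ℝ) * Real.log (ell x) / ell x) atTop
      (𝓝 (lam / e)) := by
    have h := (h1.mul hrdiv).div hlogr one_ne_zero
    rw [one_mul, div_one] at h
    refine h.congr' ?_
    filter_upwards [ell_tendsto.eventually_gt_atTop 0, hrt.eventually_gt_atTop 1,
      (Real.tendsto_log_atTop.comp ell_tendsto).eventually_gt_atTop 0] with x h3 h4 h5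
    simp only [Function.comp_apply] at h5
    have h6 : 0 < Real.log (r x) := Real.log_pos h4
    simp only [Pi.div_apply, Function.comp_apply]
    field_simp
  have hll : Tendsto (fun x => Real.log (ell x)) atTop atTop :=
    Real.tendsto_log_atTop.comp ell_tendsto
  have h3 := (h2.pow 2).div_atTop hll
  refine h3.congr' ?_
  filter_upwards [ell_tendsto.eventually_gt_atTop 0, hll.eventually_gt_atTop 0] with x h4 h5
  have e1 : ⌊r x⌋₊ = yf lam x / wf e x := by rw [hr]; exact Nat.floor_div_eq_div _ _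
  rw [e1]
  field_simp

/-- The upper bound for `|J|` -/
noncomputable def JU (lam e : ℝ) (x : ℕ) : ℝ :=
  1 + Nat.primeCounting (yf lam x) + (Nat.primeCounting (yf lam x / wf e x) : ℝ) ^ 2

theorem JU_tendsto {lam e : ℝ} (hl : 0 < lam) (he : 0 < e) :
    Tendsto (fun x => JU lam e x * Real.log (ell x) / ell x ^ 2) atTop (𝓝 (lam / 2)) := by
  have h0 : Tendsto (fun x => Real.log (ell x) / ell x ^ 2) atTop (𝓝 0) := by
    have h1 : Tendsto (fun t : ℝ => Real.log t / t ^ 2) atTop (𝓝 0) :=
      (isLittleO_log_rpow_atTop (by norm_num : (0:ℝ) < 2)).tendsto_div_nhds_zero.congr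
        (fun t => by norm_num)
    exact h1.comp ell_tendsto
  have h := (h0.add (pi_yf hl)).add (pi_quot hl he)
  rw [zero_add, add_zero] at h
  refine h.congr fun x => ?_
  rw [JU]
  ring

theorem card_JJ_eventually {lam e : ℝ} (hl : 0 < lam) (he : 0 < e) :
    ∀ᶠ x in atTop, ((JJ (wf e x) (yf lam x)).card : ℝ) ≤ JU lam e x := by
  have h1 : ∀ᶠ x in atTop, yf lam x < (wf e x + 1) ^ 3 := by
    have h2 : Tendsto (fun x => (yf lam x : ℝ) / (wf e x : ℝ) ^ 3) atTop (𝓝 0) := by
      have h3 := (yf_div hl.le).div ((wf_div he.le).pow 3) (by positivity)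
      have h4 := h3.div_atTop ell_tendsto
      refine h4.congr' ?_
      filter_upwards [ell_tendsto.eventually_gt_atTop 0,
        (wf_tendsto he).eventually_gt_atTop 0] with x h5 h6
      have h7 : (0 : ℝ) < wf e x := by exact_mod_cast h6
      simp only [Pi.div_apply]
      field_simp
    filter_upwards [h2.eventually_lt_const (show (0:ℝ) < 1 by norm_num),
      (wf_tendsto he).eventually_gt_atTop 0] with x h5 h6
    have h7 : (0 : ℝ) < wf e x := by exact_mod_cast h6
    rw [div_lt_one (by positivity)] at h5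
    have h8 : yf lam x < wf e x ^ 3 := by exact_mod_cast h5
    exact h8.trans_le (Nat.pow_le_pow_left (by omega) 3)
  filter_upwards [h1, (wf_tendsto he).eventually_ge_atTop 1] with x h2 h3
  have := card_JJ_le h3 h2
  rw [JU]
  exact_mod_cast this

end Pool.Agent.Work.MP_b0c12c_nt_helper41
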