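import Pool.Agent.Work.MP_b0c12c_nt_helper41.Bad
import Pool.Agent.Work.MP_b0c12c_nt_helper41.Inf
import Pool.Agent.Work.MP_b0c12c_nt_helper63.Gap

/-!
# Almost sure lower bounds for the large gaps of the random set
-/

set_option autoImplicit false
set_option linter.unusedSectionVars false
set_option linter.deprecated false

open MeasureTheory ProbabilityTheory Finset Filter Topology
open Pool.Agent.Work.MP_b0c12c_nt_helper63 (RandomClasses Hit hit_meas' exists_consecutive)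

namespace Pool.Agent.Work.MP_b0c12c_nt_helper41

variable {Ω : Type*} [MeasurableSpace Ω] {μ : Measure Ω} [IsProbabilityMeasure μ]
  {a : ℕ → Ω → ℕ}

/-- The bad events have polynomially small probability. -/
theorem bad_pow (h : RandomClasses μ a) {θ η lam k : ℝ} (hθ : 0 < θ) (hθη : θ < η)
    (hl : 0 < lam) (hk : 0 < k) (hτ : -(k / (2 * θ)) + (Real.exp k - 1) < 0)
    (hlam : lam * (-Real.log (1 - θ / η)) <
      2 * θ * (1 - Real.exp (-(k / (2 * θ)) + (Real.exp k - 1)))) :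
    ∃ e₁ c₀ : ℝ, 0 < e₁ ∧ 0 < c₀ ∧
      ∀ᶠ x : ℕ in atTop, μ.real (Bad a θ η lam e₁ x) ≤ (x : ℝ) ^ (-c₀) := by
  have hη : 0 < η := by linarith
  have hq0 : 0 < θ / η := by positivity
  have hq1 : θ / η < 1 := by rw [div_lt_one hη]; exact hθη
  set L' := -Real.log (1 - θ / η) with hL'
  have hL'0 : 0 < L' := by
    rw [hL', neg_pos]; exact Real.log_neg (by linarith) (by linarith)
  set A := 2 * θ * (1 - Real.exp (-(k / (2 * θ)) + (Real.exp k - 1))) with hA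
  have hA0 : 0 < A := by
    have := Real.exp_lt_one_iff.2 hτ
    exact mul_pos (by positivity) (by linarith)
  have h1 : lam / A < 1 / L' := by
    rw [div_lt_div_iff₀ hA0 hL'0]; linarith
  set T := (lam / A + 1 / L') / 2 with hT
  have hT1 : lam / A < T := by rw [hT]; linarith
  have hT2 : T < 1 / L' := by rw [hT]; linarith
  have hT0 : 0 < T := lt_trans (by positivity) hT1
  have h2 : L' < 1 / T := by
    rw [lt_div_iff₀ hT0]
    rw [lt_div_iff₀ hL'0] at hT2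
    linarith
  set c := (L' + 1 / T) / 2 with hc
  have hc1 : L' < c := by rw [hc]; linarith
  have hc2 : c < 1 / T := by rw [hc]; linarith
  have hTc : T * c < 1 := by
    rw [lt_div_iff₀ hT0] at hc2
    linarith
  have hκ : Real.exp (-c) < 1 - θ / η := by
    rw [← Real.exp_log (show 0 < 1 - θ / η by linarith)]
    apply Real.exp_lt_exp.2
    linarith
  -- choice of e₁
  have hcont : Tendsto (fun t : ℝ => -(k * (1 / 2 - 2 * t) / θ) + (Real.exp k - 1)) (𝓝 0)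
      (𝓝 (-(k / (2 * θ)) + (Real.exp k - 1))) := by
    have : Continuous fun t : ℝ => -(k * (1 / 2 - 2 * t) / θ) + (Real.exp k - 1) := by fun_prop
    have h3 := this.tendsto 0
    have e : -(k * (1 / 2 - 2 * 0) / θ) + (Real.exp k - 1) =
        -(k / (2 * θ)) + (Real.exp k - 1) := by
      field_simp; ring
    rwa [e] at h3
  have hcont2 : Tendsto (fun t : ℝ => lam / (2 * θ * (1 - Real.exp (-(k * (1 / 2 - 2 * t) / θ) +
      (Real.exp k - 1))))) (𝓝 0) (𝓝 (lam / A)) := by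
    apply Tendsto.div tendsto_const_nhds _ hA0.ne'
    exact ((Real.continuous_exp.continuousAt.tendsto.comp hcont).const_sub 1).const_mul (2 * θ)
  have hcont3 : Tendsto (fun t : ℝ => 1 - 2 * t) (𝓝 0) (𝓝 1) := by
    have : Continuous fun t : ℝ => 1 - 2 * t := by fun_prop
    have h3 := this.tendsto 0
    simpa using h3
  have hev : ∀ᶠ t : ℝ in 𝓝[>] 0, ((-(k * (1 / 2 - 2 * t) / θ) + (Real.exp k - 1) < 0 ∧
      lam / (2 * θ * (1 - Real.exp (-(k * (1 / 2 - 2 * t) / θ) + (Real.exp k - 1)))) < T) ∧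
      (T * c < 1 - 2 * t ∧ t < 1 / 4)) ∧ 0 < t := by
    refine Filter.Eventually.and ?_ self_mem_nhdsWithin
    apply Filter.Eventually.filter_mono nhdsWithin_le_nhds
    exact ((hcont.eventually_lt_const hτ).and (hcont2.eventually_lt_const hT1)).and
      ((hcont3.eventually_const_lt hTc).and (gt_mem_nhds (by norm_num)))
  obtain ⟨e₁, ⟨⟨g1, g2⟩, g3, g4⟩, g5⟩ := hev.exists
  set g := 1 - 2 * e₁ - T * c with hg
  have hg0 : 0 < g := by linarith
  refine ⟨e₁, min (θ / 2) (g / 2), g5, by positivity, ?_⟩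
  have hb := bad_le h (e := 1 / 2 - 2 * e₁) hθ hθη hl g5 (by linarith) (by linarith) (by linarith)
    hk g1 g2 (Real.exp_pos (-c)) hκ
  set cc := ((Real.log η - Real.log θ) / 2 / (4 * (1 + (Real.log η - Real.log θ + 1)))) ^ 2
    with hcc
  have hcc0 : 0 < cc := by
    have : 0 < Real.log η - Real.log θ := sub_pos.2 (Real.log_lt_log hθ hθη)
    positivity
  have p1 : Tendsto (fun x : ℕ => (yf lam x : ℝ) ^ 2 * Kf x / (x : ℝ) ^ (θ / 2) / cc)
      atTop (𝓝 0) := by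
    have h3 := (y2K_small (lam := lam) (θ := θ / 2) hl (by positivity)).div_const cc
    rwa [zero_div] at h3
  have p2 : Tendsto (fun x : ℕ => Real.exp c * (x : ℝ) ^ (-(g / 2))) atTop (𝓝 0) := by
    have h3 : Tendsto (fun x : ℕ => (x : ℝ) ^ (-(g / 2))) atTop (𝓝 0) :=
      (tendsto_rpow_neg_atTop (by positivity)).comp tendsto_natCast_atTop_atTop
    have h4 := h3.const_mul (Real.exp c)
    rwa [mul_zero] at h4
  filter_upwards [hb, p1.eventually_lt_const (show (0:ℝ) < 1 / 4 by norm_num),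
    p2.eventually_lt_const (show (0:ℝ) < 1 / 2 by norm_num), eventually_ge_atTop 1]
    with x q1 q2 q3 q4
  have hx1 : (1 : ℝ) ≤ x := by exact_mod_cast q4
  have hx0 : (0 : ℝ) < x := by linarith
  have hA1 : (0 : ℝ) < (x : ℝ) ^ (θ / 2) := Real.rpow_pos_of_pos hx0 _
  have hA2 : (1 : ℝ) ≤ (x : ℝ) ^ (θ / 2) := Real.one_le_rpow hx1 (by positivity)
  have hxθ : (x : ℝ) ^ θ = (x : ℝ) ^ (θ / 2) * (x : ℝ) ^ (θ / 2) := by
    rw [← Real.rpow_add hx0]; congr 1; ring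
  set z := (yf lam x : ℝ) ^ 2 * Kf x / (x : ℝ) ^ θ / cc with hz
  have hz0 : 0 ≤ z := by positivity
  have hz1 : z = (yf lam x : ℝ) ^ 2 * Kf x / (x : ℝ) ^ (θ / 2) / cc * (x : ℝ) ^ (-(θ / 2)) := by
    rw [hz, hxθ, Real.rpow_neg hx0.le]
    field_simp
  have hz2 : z ≤ 1 / 4 * (x : ℝ) ^ (-(θ / 2)) := by
    rw [hz1]
    exact mul_le_mul_of_nonneg_right q2.le (Real.rpow_pos_of_pos hx0 _).le
  have hN1 : (x : ℝ) ^ (-(θ / 2)) ≤ 1 := by
    rw [Real.rpow_neg hx0.le]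
    exact inv_le_one_of_one_le₀ hA2
  have hz3 : Real.exp z - 1 ≤ 2 * z := by
    have h3 := Real.abs_exp_sub_one_le (x := z) (by rw [abs_of_nonneg hz0]; linarith)
    rw [abs_of_nonneg hz0] at h3
    exact (le_abs_self _).trans h3
  have hq : 1 / ((x : ℝ) ^ (1 - 2 * e₁) * Real.exp (-c) ^ (T * ell x + 1)) =
      (Real.exp c * (x : ℝ) ^ (-(g / 2))) * (x : ℝ) ^ (-(g / 2)) := by
    rw [mul_assoc, ← Real.rpow_add hx0, Real.rpow_def_of_pos hx0, Real.rpow_def_of_pos hx0,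
      ← Real.exp_mul, ← Real.exp_add, ← Real.exp_add, one_div, ← Real.exp_neg]
    congr 1
    rw [ell, hg]
    ring
  rw [hq] at q1
  have hmin1 : (x : ℝ) ^ (-(θ / 2)) ≤ (x : ℝ) ^ (-(min (θ / 2) (g / 2))) :=
    Real.rpow_le_rpow_of_exponent_le hx1 (by
      have := min_le_left (θ / 2) (g / 2); linarith)
  have hmin2 : (x : ℝ) ^ (-(g / 2)) ≤ (x : ℝ) ^ (-(min (θ / 2) (g / 2))) :=
    Real.rpow_le_rpow_of_exponent_le hx1 (by
      have := min_le_right (θ / 2) (g / 2); linarith)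
  have hq2 : (Real.exp c * (x : ℝ) ^ (-(g / 2))) * (x : ℝ) ^ (-(g / 2)) ≤
      1 / 2 * (x : ℝ) ^ (-(g / 2)) :=
    mul_le_mul_of_nonneg_right q3.le (Real.rpow_pos_of_pos hx0 _).le
  linarith

/-- An integer of the random set in a window lies in the set of candidates. -/
theorem window_free {θ η lam e₁ : ℝ} (hθ : 0 < θ) (hη : 0 < η) {x m : ℕ} {ω : Ω}
    (hm : m ∈ Wx e₁ x) (hyP : yf lam x ≤ primorial (wf e₁ x))
    (hhit : ω ∈ Hit a (PQ (zf' θ x) (zf η x)).toList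
      (AA (zf θ x) (yf lam x) (m * primorial (wf e₁ x)))) :
    x < m * primorial (wf e₁ x) ∧ m * primorial (wf e₁ x) + yf lam x ≤ 2 * x ∧
    ∀ n ∈ Semi θ η (fun p => a p ω),
      ¬ (m * primorial (wf e₁ x) < n ∧ n ≤ m * primorial (wf e₁ x) + yf lam x) := by
  set P := primorial (wf e₁ x) with hP
  have hP0 : 0 < P := primorial_pos _
  rw [Wx, mem_Ioc, Hf, ← hP] at hm
  have h1 : m ≤ 2 * (x / P) - 1 := by omega
  have h2 : x / P * P ≤ x := Nat.div_mul_le_self _ _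
  have h3 : m * P ≤ (2 * (x / P) - 1) * P := Nat.mul_le_mul_right _ h1
  have h4 : (2 * (x / P) - 1) * P = 2 * (x / P * P) - P := by
    rw [Nat.sub_mul, one_mul, mul_assoc]
  have h5 : P ≤ x / P * P := Nat.le_mul_of_pos_left _ (by omega)
  have hlow : x < m * P := (Nat.div_lt_iff_lt_mul hP0).1 hm.1
  have hupp : m * P + yf lam x ≤ 2 * x := by omega
  refine ⟨hlow, hupp, ?_⟩
  rintro n hn ⟨hn1, hn2⟩
  have hxn : (x : ℝ) ≤ n := by exact_mod_cast (by omega : x ≤ n)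
  have hn2x : (n : ℝ) ≤ 2 * (x : ℝ) := by exact_mod_cast (by omega : n ≤ 2 * x)
  have hx0 : (0 : ℝ) ≤ x := Nat.cast_nonneg x
  have hcop : n.Coprime (primorial (zf θ x)) := by
    by_contra hcon
    rw [Nat.Prime.not_coprime_iff_dvd] at hcon
    obtain ⟨q, hq, hqn, hqz⟩ := hcon
    rw [hq.dvd_primorial_iff, zf] at hqz
    have h6 : (q : ℝ) ≤ (x : ℝ) ^ θ := (Nat.le_floor_iff (by positivity)).1 hqz
    have h7 : (x : ℝ) ^ θ ≤ (n : ℝ) ^ θ := Real.rpow_le_rpow hx0 hxn hθ.le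
    exact (hn.2 q hq).1 (h6.trans h7) hqn
  have hnA : n ∈ AA (zf θ x) (yf lam x) (m * P) := by
    rw [AA, mem_filter, mem_Ioc]
    exact ⟨⟨hn1, hn2⟩, hcop⟩
  obtain ⟨p, hp, hap⟩ := hhit n hnA
  rw [mem_toList] at hp
  obtain ⟨⟨hp1, hp2⟩, hp3⟩ := mem_PQ.1 hp
  rw [zf'] at hp1
  rw [zf] at hp2
  have h8 : (2 * (x : ℝ)) ^ θ < p := Nat.lt_of_floor_lt hp1
  have h9 : (p : ℝ) ≤ (x : ℝ) ^ η := (Nat.le_floor_iff (by positivity)).1 hp2
  have h10 : (n : ℝ) ^ θ ≤ (2 * (x : ℝ)) ^ θ := Real.rpow_le_rpow (by linarith) hn2x hθ.le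
  have h11 : (x : ℝ) ^ η ≤ (n : ℝ) ^ η := Real.rpow_le_rpow hx0 hxn hη.le
  exact (hn.2 p hp3).2 (by linarith) (by linarith) hap.symm

/-- Almost surely every large dyadic interval contains a long gap. -/
theorem ae_gaps (h : RandomClasses μ a) {θ η lam k : ℝ} (hθ : 0 < θ) (hθ1 : θ < 1)
    (hθη : θ < η) (hl : 0 < lam) (hk : 0 < k) (hτ : -(k / (2 * θ)) + (Real.exp k - 1) < 0)
    (hlam : lam * (-Real.log (1 - θ / η)) <
      2 * θ * (1 - Real.exp (-(k / (2 * θ)) + (Real.exp k - 1)))) :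
    ∀ᵐ ω ∂μ, (Semi θ η (fun p => a p ω)).Infinite ∧ ∀ᶠ j : ℕ in atTop,
      ∃ i, Nat.nth (· ∈ Semi θ η (fun p => a p ω)) i ≤ 2 ^ (j + 1) ∧
        lam * Real.log ((2 : ℝ) ^ (j + 1)) ^ 2 ≤
          (Nat.nth (· ∈ Semi θ η (fun p => a p ω)) (i + 1) : ℝ) -
            Nat.nth (· ∈ Semi θ η (fun p => a p ω)) i := by
  have hη : 0 < η := by linarith
  obtain ⟨e₁, c₀, he₁, hc₀, hb⟩ := bad_pow h hθ hθη hl hk hτ hlam
  have hpow : Tendsto (fun j : ℕ => 2 ^ j) atTop atTop :=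
    tendsto_pow_atTop_atTop_of_one_lt (by norm_num : (1:ℕ) < 2)
  obtain ⟨J, hJ⟩ := eventually_atTop.1 (hpow.eventually hb)
  set r := (2 : ℝ) ^ (-c₀) with hr
  have hr0 : 0 < r := Real.rpow_pos_of_pos (by norm_num) _
  have hr1 : r < 1 := Real.rpow_lt_one_of_one_lt_of_neg (by norm_num) (by linarith)
  have hsum : (∑' j, μ (Bad a θ η lam e₁ (2 ^ (j + J)))) ≠ ⊤ := by
    have hs : Summable fun j : ℕ => r ^ (j + J) := by
      simp_rw [pow_add]
      exact (summable_geometric_of_lt_one hr0.le hr1).mul_right _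
    have h1 : ∀ j, μ (Bad a θ η lam e₁ (2 ^ (j + J))) ≤ ENNReal.ofReal (r ^ (j + J)) := by
      intro j
      rw [← ofReal_measureReal]
      apply ENNReal.ofReal_le_ofReal
      refine (hJ (j + J) (by omega)).trans (le_of_eq ?_)
      push_cast
      rw [hr, ← Real.rpow_natCast, ← Real.rpow_natCast, ← Real.rpow_mul (by norm_num),
        ← Real.rpow_mul (by norm_num), mul_comm]
    exact ne_top_of_le_ne_top hs.tsum_ofReal_ne_top (ENNReal.tsum_le_tsum h1)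
  have hBC := ae_eventually_notMem hsum
  filter_upwards [semi_infinite h hθ hθ1 hθη, hBC] with ω hinf hev
  refine ⟨hinf, ?_⟩
  set S := Semi θ η (fun p => a p ω) with hS
  have hev2 : ∀ᶠ j : ℕ in atTop, ω ∉ Bad a θ η lam e₁ (2 ^ j) := by
    obtain ⟨J', hJ'⟩ := eventually_atTop.1 hev
    filter_upwards [eventually_ge_atTop (J' + J)] with j hj
    have := hJ' (j - J) (by omega)
    rwa [Nat.sub_add_cancel (by omega)] at this
  have hyP := hpow.eventually (yf_le_primorial (lam := lam) he₁ hl.le)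
  filter_upwards [hev2, hyP, hpow.eventually_ge_atTop (Nat.nth (· ∈ S) 0)] with j h1 h2 h3
  rw [Bad] at h1
  simp only [Set.mem_setOf_eq] at h1
  push Not at h1
  obtain ⟨m, hm, hhit⟩ := h1
  obtain ⟨w1, w2, w3⟩ := window_free (lam := lam) hθ hη hm h2 hhit
  obtain ⟨i, _, hi1, hi2⟩ := exists_consecutive S hinf 0 (m * primorial (wf e₁ (2 ^ j)))
    (yf lam (2 ^ j)) (by omega) w3
  refine ⟨i, by rw [pow_succ]; omega, ?_⟩
  have hy : lam * Real.log ((2 : ℝ) ^ (j + 1)) ^ 2 ≤ (yf lam (2 ^ j) : ℝ) := by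
    rw [yf]
    refine le_trans (le_of_eq ?_) (Nat.le_ceil _)
    push_cast
    congr 3
    ring
  have h4 : (yf lam (2 ^ j) : ℝ) ≤ (Nat.nth (· ∈ S) (i + 1) : ℝ) - Nat.nth (· ∈ S) i := by
    have h5 : Nat.nth (· ∈ S) i + yf lam (2 ^ j) ≤ Nat.nth (· ∈ S) (i + 1) := by omega
    have h6 : ((Nat.nth (· ∈ S) i : ℕ) : ℝ) + (yf lam (2 ^ j) : ℝ) ≤ Nat.nth (· ∈ S) (i + 1) := by
      exact_mod_cast h5
    linarith
  exact hy.trans h4

end Pool.Agent.Work.MP_b0c12c_nt_helper41
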