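import Pool.Agent.Work.MP_b0c12c_nt_helper41.Fin

/-!
# Numerical consequences
-/

set_option autoImplicit false

open Finset Filter Topology

namespace Pool.Agent.Work.MP_b0c12c_nt_helper41

/-- `H_n - log(n + 1/2)` -/
noncomputable def vseq (n : ℕ) : ℝ := (harmonic n : ℝ) - Real.log ((n : ℝ) + 1 / 2)

theorem vseq_anti : Antitone vseq := by
  refine antitone_nat_of_succ_le fun n => ?_
  have hn : (0 : ℝ) ≤ n := Nat.cast_nonneg n
  have h := Real.hasSum_log_one_add_inv (a := (n : ℝ) + 1 / 2) (by positivity)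
  have h1 := le_hasSum h 0 (fun j _ => by positivity)
  have e1 : (2 : ℝ) * (1 / (2 * ((0 : ℕ) : ℝ) + 1)) * (1 / (2 * ((n : ℝ) + 1 / 2) + 1)) ^ (2 * 0 + 1) =
      1 / ((n : ℝ) + 1) := by
    push_cast
    field_simp
    ring
  have e2 : Real.log (1 + ((n : ℝ) + 1 / 2)⁻¹) =
      Real.log ((n : ℝ) + 1 + 1 / 2) - Real.log ((n : ℝ) + 1 / 2) := by
    rw [← Real.log_div (by positivity) (by positivity)]
    congr 1
    field_simp
    ring
  have h2 : 1 / ((n : ℝ) + 1) ≤ Real.log ((n : ℝ) + 1 + 1 / 2) - Real.log ((n : ℝ) + 1 / 2) := by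
    rw [← e1, ← e2]
    simpa using h1
  unfold vseq
  rw [harmonic_succ]
  push_cast
  rw [← one_div]
  linarith

theorem vseq_tendsto : Tendsto vseq atTop (𝓝 Real.eulerMascheroniConstant) := by
  have h1 := Real.tendsto_harmonic_sub_log
  have h2 : Tendsto (fun n : ℕ => Real.log ((n : ℝ) + 1 / 2) - Real.log n) atTop (𝓝 0) :=
    (Real.tendsto_log_comp_add_sub_log (1 / 2)).comp tendsto_natCast_atTop_atTop
  have h3 := h1.sub h2
  rw [sub_zero] at h3
  refine h3.congr fun n => ?_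
  unfold vseq
  ring

theorem gamma_le : Real.eulerMascheroniConstant ≤ 57836 / 100000 := by
  have h1 := vseq_anti.le_of_tendsto vseq_tendsto 7
  refine h1.trans ?_
  unfold vseq
  have h2 : (harmonic 7 : ℝ) = 363 / 140 := by
    have : harmonic 7 = 363 / 140 := by
      norm_num [harmonic, Finset.sum_range_succ]
    rw [this]; push_cast; norm_num
  have h3 : (20145 : ℝ) / 10000 ≤ Real.log (((7 : ℕ) : ℝ) + 1 / 2) := by
    rw [Real.le_log_iff_exp_le (by norm_num)]
    have e : (20145 : ℝ) / 10000 = 1 + 1 + 145 / 10000 := by norm_num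
    rw [e, Real.exp_add, Real.exp_add]
    have h4 := Real.exp_one_lt_d9
    have h5 := Real.exp_pos 1
    have h6 : Real.exp (145 / 10000) ≤ 10000 / (10000 - 145) := by
      have := Real.add_one_le_exp (-(145 / 10000 : ℝ))
      rw [Real.exp_neg] at this
      have hp := Real.exp_pos (145 / 10000 : ℝ)
      rw [← inv_inv (Real.exp (145 / 10000))]
      rw [inv_le_comm₀ (by positivity) (by norm_num)]
      refine le_trans ?_ this
      norm_num
    have h7 : Real.exp 1 * Real.exp 1 ≤ 2.7182818286 * 2.7182818286 :=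
      mul_le_mul h4.le h4.le h5.le (by norm_num)
    calc Real.exp 1 * Real.exp 1 * Real.exp (145 / 10000) ≤
        (2.7182818286 * 2.7182818286) * (10000 / (10000 - 145)) :=
          mul_le_mul h7 h6 (Real.exp_pos _).le (by norm_num)
      _ ≤ ((7 : ℕ) : ℝ) + 1 / 2 := by norm_num
  rw [h2]
  have : (363 : ℝ) / 140 - 20145 / 10000 ≤ 57836 / 100000 := by norm_num
  linarith

theorem exp_gamma_le : Real.exp Real.eulerMascheroniConstant ≤ 17832 / 10000 := by
  refine (Real.exp_le_exp.2 gamma_le).trans ?_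
  have h := Real.exp_bound' (x := 57836 / 100000) (by norm_num) (by norm_num) (n := 8) (by norm_num)
  refine h.trans ?_
  norm_num [Finset.sum_range_succ, Nat.factorial]

theorem exp_kk_le : Real.exp (8 / 5) ≤ 49531 / 10000 := by
  have e : (8 : ℝ) / 5 = 1 + 3 / 5 := by norm_num
  rw [e, Real.exp_add]
  have h := Real.exp_bound' (x := 3 / 5) (by norm_num) (by norm_num) (n := 8) (by norm_num)
  have h4 := Real.exp_one_lt_d9
  have h5 : Real.exp (3 / 5) ≤ 182213 / 100000 := by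
    refine h.trans ?_
    norm_num [Finset.sum_range_succ, Nat.factorial]
  calc Real.exp 1 * Real.exp (3 / 5) ≤ 2.7182818286 * (182213 / 100000) :=
        mul_le_mul h4.le h5 (Real.exp_pos _).le (by norm_num)
    _ ≤ 49531 / 10000 := by norm_num

theorem exp_four_ge : (545981 / 10000 : ℝ) ≤ Real.exp 4 := by
  have e : (4 : ℝ) = 1 + 1 + 1 + 1 := by norm_num
  rw [e, Real.exp_add, Real.exp_add, Real.exp_add]
  have h4 := Real.exp_one_gt_d9
  have h2 : (2.7182818283 : ℝ) * 2.7182818283 ≤ Real.exp 1 * Real.exp 1 :=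
    mul_le_mul h4.le h4.le (by norm_num) (Real.exp_pos _).le
  have h3 : (2.7182818283 : ℝ) * 2.7182818283 * 2.7182818283 ≤
      Real.exp 1 * Real.exp 1 * Real.exp 1 := mul_le_mul h2 h4.le (by norm_num) (by positivity)
  have h5 : (2.7182818283 : ℝ) * 2.7182818283 * 2.7182818283 * 2.7182818283 ≤
      Real.exp 1 * Real.exp 1 * Real.exp 1 * Real.exp 1 :=
    mul_le_mul h3 h4.le (by norm_num) (by positivity)
  refine le_trans ?_ h5
  norm_num

/-- monotonicity in `θ` of the denominator -/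
theorem log_chord {θ θ₀ η : ℝ} (hθ : 0 < θ) (hθθ₀ : θ ≤ θ₀) (hη : θ₀ < η) :
    -Real.log (1 - θ / η) ≤ θ / θ₀ * (-Real.log (1 - θ₀ / η)) := by
  have hθ₀ : 0 < θ₀ := by linarith
  have hη0 : 0 < η := by linarith
  have hq : θ₀ / η < 1 := by rw [div_lt_one hη0]; exact hη
  set s := θ / θ₀ with hs
  have hs0 : 0 ≤ s := by positivity
  have hs1 : s ≤ 1 := by rw [hs, div_le_one hθ₀]; exact hθθ₀
  have h := strictConcaveOn_log_Ioi.concaveOn.2 (x := 1 - θ₀ / η) (y := 1)
    (by simp only [Set.mem_Ioi]; linarith) (by simp) hs0 (sub_nonneg.2 hs1) (by ring)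
  simp only [smul_eq_mul, Real.log_one, mul_zero, add_zero, mul_one] at h
  have e : s * (1 - θ₀ / η) + (1 - s) = 1 - θ / η := by
    rw [hs]; field_simp; ring
  rw [e] at h
  linarith

/-- lower bound for `bd` -/
theorem bd_ge {k θ θ₀ η B τ : ℝ} (hθ : 0 < θ) (hθθ₀ : θ ≤ θ₀) (hη : θ₀ < η) (hk : 0 < k)
    (hB : -Real.log (1 - θ₀ / η) ≤ B) (hτ1 : τ ≤ 1)
    (hτ : Real.exp (-(k / (2 * θ₀)) + (Real.exp k - 1)) ≤ τ) :
    2 * θ₀ * (1 - τ) / B ≤ bd k θ η := by
  have hθ₀ : 0 < θ₀ := by linarith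
  have hη0 : 0 < η := by linarith
  have hq0 : 0 < θ / η := by positivity
  have hq1 : θ / η < 1 := by rw [div_lt_one hη0]; linarith
  have hq00 : 0 < θ₀ / η := by positivity
  have hq01 : θ₀ / η < 1 := by rw [div_lt_one hη0]; linarith
  have hL : 0 < -Real.log (1 - θ / η) := by
    rw [neg_pos]; exact Real.log_neg (by linarith) (by linarith)
  have hL0 : 0 < -Real.log (1 - θ₀ / η) := by
    rw [neg_pos]; exact Real.log_neg (by linarith) (by linarith)
  have hB0 : 0 < B := by linarith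
  have h1 := log_chord hθ hθθ₀ hη
  have h2 : Real.exp (-(k / (2 * θ)) + (Real.exp k - 1)) ≤ τ := by
    refine le_trans (Real.exp_le_exp.2 ?_) hτ
    have : k / (2 * θ₀) ≤ k / (2 * θ) :=
      div_le_div_of_nonneg_left hk.le (by positivity) (by linarith)
    linarith
  rw [bd, div_le_div_iff₀ hB0 hL]
  have h3 : -Real.log (1 - θ / η) ≤ θ / θ₀ * B :=
    h1.trans (mul_le_mul_of_nonneg_left hB (by positivity))
  calc 2 * θ₀ * (1 - τ) * (-Real.log (1 - θ / η)) ≤ 2 * θ₀ * (1 - τ) * (θ / θ₀ * B) :=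
        mul_le_mul_of_nonneg_left h3 (mul_nonneg (by positivity) (by linarith))
    _ = 2 * θ * (1 - τ) * B := by field_simp
    _ ≤ 2 * θ * (1 - Real.exp (-(k / (2 * θ)) + (Real.exp k - 1))) * B := by
        apply mul_le_mul_of_nonneg_right _ hB0.le
        exact mul_le_mul_of_nonneg_left (by linarith) (by positivity)

/-- Banks-Ford-Tao exponent -/
noncomputable def eg : ℝ := Real.exp (-Real.eulerMascheroniConstant)

theorem eg_gt : 1 / 2 < eg := by
  unfold eg
  rw [Real.exp_neg, one_div]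
  apply inv_strictAnti₀ (Real.exp_pos _)
  have := exp_gamma_le
  linarith

theorem div_eg (θ : ℝ) : θ / eg = θ * Real.exp Real.eulerMascheroniConstant := by
  unfold eg
  rw [Real.exp_neg, div_inv_eq_mul]

theorem neg_log_le {s B E : ℝ} (hs : s ≤ E) (hB : 0 ≤ B) (hE : E < 1)
    (hx : 1 ≤ (1 - E) * (1 + B + B ^ 2 / 2 + B ^ 3 / 6 + B ^ 4 / 24)) :
    -Real.log (1 - s) ≤ B := by
  have h1 : 1 + B + B ^ 2 / 2 + B ^ 3 / 6 + B ^ 4 / 24 ≤ Real.exp B := by
    have h := Real.sum_le_exp_of_nonneg hB 5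
    refine le_trans (le_of_eq ?_) h
    norm_num [Finset.sum_range_succ, Nat.factorial]
  have h2 : Real.log (1 - E) ≤ Real.log (1 - s) := Real.log_le_log (by linarith) (by linarith)
  have h3 : -B ≤ Real.log (1 - E) := by
    rw [Real.le_log_iff_exp_le (by linarith), Real.exp_neg]
    rw [inv_le_iff_one_le_mul₀ (Real.exp_pos _)]
    refine hx.trans ?_
    exact mul_le_mul_of_nonneg_left h1 (by linarith)
  linarith

theorem bd_tenth {θ : ℝ} (hθ : 0 < θ) (h : θ ≤ 1 / 10) :
    1 + 1 / 2500 ≤ bd (8 / 5) θ eg := by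
  have h1 := exp_gamma_le
  have h2 := exp_kk_le
  have hB : -Real.log (1 - 1 / 10 / eg) ≤ 19642 / 100000 := by
    rw [div_eg]
    apply neg_log_le (E := 17832 / 100000) (by linarith) (by norm_num) (by norm_num)
    norm_num
  have hτ : Real.exp (-(8 / 5 / (2 * (1 / 10))) + (Real.exp (8 / 5) - 1)) ≤ 175 / 10000 := by
    have h3 : -(8 / 5 / (2 * (1 / 10))) + (Real.exp (8 / 5) - 1) ≤ -(4 + 469 / 10000) := by
      linarith
    refine (Real.exp_le_exp.2 h3).trans ?_
    rw [Real.exp_neg, Real.exp_add]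
    have h4 := exp_four_ge
    have h5 : (1 + 469 / 10000 + (469 / 10000) ^ 2 / 2 : ℝ) ≤ Real.exp (469 / 10000) := by
      have h := Real.sum_le_exp_of_nonneg (x := 469 / 10000) (by norm_num) 3
      refine le_trans (le_of_eq ?_) h
      norm_num [Finset.sum_range_succ, Nat.factorial]
    rw [inv_le_iff_one_le_mul₀ (by positivity)]
    have h6 : (545981 / 10000 : ℝ) * (1 + 469 / 10000 + (469 / 10000) ^ 2 / 2) ≤
        Real.exp 4 * Real.exp (469 / 10000) :=
      mul_le_mul h4 h5 (by norm_num) (Real.exp_pos _).le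
    calc (1 : ℝ) ≤ 175 / 10000 * ((545981 / 10000 : ℝ) *
          (1 + 469 / 10000 + (469 / 10000) ^ 2 / 2)) := by norm_num
      _ ≤ _ := mul_le_mul_of_nonneg_left h6 (by norm_num)
  have h7 := bd_ge (k := 8 / 5) (B := 19642 / 100000) (τ := 175 / 10000) hθ h
    (by have := eg_gt; linarith) (by norm_num) hB (by norm_num) hτ
  refine le_trans ?_ h7
  norm_num

theorem bd_eleventh {θ : ℝ} (hθ : 0 < θ) (h : θ ≤ 1 / 11) :
    101 / 100 < bd (8 / 5) θ eg := by
  have h1 := exp_gamma_le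
  have h2 := exp_kk_le
  have hB : -Real.log (1 - 1 / 11 / eg) ≤ 1772 / 10000 := by
    rw [div_eg]
    apply neg_log_le (E := 17832 / 110000) (by linarith) (by norm_num) (by norm_num)
    norm_num
  have hτ : Real.exp (-(8 / 5 / (2 * (1 / 11))) + (Real.exp (8 / 5) - 1)) ≤ 1 / 100 := by
    have h3 : -(8 / 5 / (2 * (1 / 11))) + (Real.exp (8 / 5) - 1) ≤ -(4 + 8 / 10) := by
      linarith
    refine (Real.exp_le_exp.2 h3).trans ?_
    rw [Real.exp_neg, Real.exp_add]
    have h4 := exp_four_ge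
    have h5 : (1 + 8 / 10 + (8 / 10) ^ 2 / 2 : ℝ) ≤ Real.exp (8 / 10) := by
      have h := Real.sum_le_exp_of_nonneg (x := 8 / 10) (by norm_num) 3
      refine le_trans (le_of_eq ?_) h
      norm_num [Finset.sum_range_succ, Nat.factorial]
    rw [inv_le_iff_one_le_mul₀ (by positivity)]
    have h6 : (545981 / 10000 : ℝ) * (1 + 8 / 10 + (8 / 10) ^ 2 / 2) ≤
        Real.exp 4 * Real.exp (8 / 10) :=
      mul_le_mul h4 h5 (by norm_num) (Real.exp_pos _).le
    calc (1 : ℝ) ≤ 1 / 100 * ((545981 / 10000 : ℝ) * (1 + 8 / 10 + (8 / 10) ^ 2 / 2)) := by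
          norm_num
      _ ≤ _ := mul_le_mul_of_nonneg_left h6 (by norm_num)
  have h7 := bd_ge (k := 8 / 5) (B := 1772 / 10000) (τ := 1 / 100) hθ h
    (by have := eg_gt; linarith) (by norm_num) hB (by norm_num) hτ
  refine lt_of_lt_of_le ?_ h7
  norm_num

theorem tau_neg {θ : ℝ} (hθ : 0 < θ) (h : θ ≤ 1 / 10) :
    -(8 / 5 / (2 * θ)) + (Real.exp (8 / 5) - 1) < 0 := by
  have h2 := exp_kk_le
  have h3 : 8 / 5 / (2 * (1 / 10)) ≤ 8 / 5 / (2 * θ) :=
    div_le_div_of_nonneg_left (by norm_num) (by positivity) (by linarith)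
  have : (8 : ℝ) / 5 / (2 * (1 / 10)) = 8 := by norm_num
  linarith

/-- The optimal choice `k = log u`, `u = 1 / (2 θ)`. -/
theorem bd_opt {θ η : ℝ} (hθ : 0 < θ) (hθ1 : θ < 1 / 2) :
    0 < Real.log (1 / (2 * θ)) ∧
    -(Real.log (1 / (2 * θ)) / (2 * θ)) + (Real.exp (Real.log (1 / (2 * θ))) - 1) < 0 ∧
    bd (Real.log (1 / (2 * θ))) θ η = gapBound θ η := by
  set u := 1 / (2 * θ) with hu
  have hu1 : 1 < u := by rw [hu, lt_div_iff₀ (by positivity)]; linarith
  have hu0 : 0 < u := by linarith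
  have hlog : 0 < Real.log u := Real.log_pos hu1
  have e1 : Real.log u / (2 * θ) = u * Real.log u := by rw [hu]; ring
  refine ⟨hlog, ?_, ?_⟩
  · rw [e1, Real.exp_log hu0]
    have h1 : Real.log (1 / u) < 1 / u - 1 :=
      Real.log_lt_sub_one_of_pos (by positivity) (by
        intro h
        rw [div_eq_one_iff_eq hu0.ne'] at h
        linarith)
    rw [one_div, Real.log_inv] at h1
    have h2 : u * (-Real.log u) < u * (u⁻¹ - 1) := mul_lt_mul_of_pos_left h1 hu0
    have h3 : u * (u⁻¹ - 1) = 1 - u := by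
      rw [mul_sub, mul_inv_cancel₀ hu0.ne', mul_one]
    linarith
  · rw [bd, gapBound, ← hu, e1, Real.exp_log hu0]
    congr 4
    ring

/-- The limit `θ → 0`. -/
theorem bd_limit {η ε : ℝ} (hη : 0 < η) (hε : 0 < ε) : ∃ θ₀ > 0, θ₀ < 1 / 2 ∧ θ₀ < η ∧
    ∀ θ, 0 < θ → θ < θ₀ → -(1 / (2 * θ)) + (Real.exp 1 - 1) < 0 ∧ 2 * η - ε < bd 1 θ η := by
  have h1 : Tendsto (fun θ : ℝ => -(1 / (2 * θ)) + (Real.exp 1 - 1)) (𝓝[>] 0) atBot := by
    apply tendsto_atBot_add_const_right
    rw [tendsto_neg_atBot_iff]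
    have h2 : Tendsto (fun θ : ℝ => (1 / 2) * θ⁻¹) (𝓝[>] 0) atTop :=
      tendsto_inv_nhdsGT_zero.const_mul_atTop (by norm_num)
    refine h2.congr fun θ => ?_
    rw [one_div, one_div, mul_inv]
  have h2 : Tendsto (fun θ : ℝ => 2 * η * (1 - Real.exp (-(1 / (2 * θ)) + (Real.exp 1 - 1))) *
      (1 - θ / η)) (𝓝[>] 0) (𝓝 (2 * η * (1 - 0) * (1 - 0 / η))) := by
    apply Tendsto.mul
    · exact ((Real.tendsto_exp_atBot.comp h1).const_sub 1).const_mul (2 * η)
    · apply Tendsto.const_sub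
      apply Tendsto.div_const
      exact tendsto_id.mono_left nhdsWithin_le_nhds
  rw [sub_zero, zero_div, sub_zero, mul_one, mul_one] at h2
  have h3 : ∀ᶠ θ : ℝ in 𝓝[>] 0, (-(1 / (2 * θ)) + (Real.exp 1 - 1) < 0 ∧
      2 * η - ε < 2 * η * (1 - Real.exp (-(1 / (2 * θ)) + (Real.exp 1 - 1))) * (1 - θ / η)) :=
    (h1.eventually_lt_atBot 0).and (h2.eventually_const_lt (by linarith))
  rw [eventually_nhdsWithin_iff, Metric.eventually_nhds_iff] at h3
  obtain ⟨r, hr0, hr⟩ := h3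
  refine ⟨min r (min (1 / 4) (η / 2)), by positivity, ?_, ?_, ?_⟩
  · have := (min_le_right r (min (1 / 4) (η / 2))).trans (min_le_left _ _)
    linarith
  · have := (min_le_right r (min (1 / 4) (η / 2))).trans (min_le_right _ _)
    linarith
  · intro θ hθ hθ'
    rw [lt_min_iff, lt_min_iff] at hθ'
    obtain ⟨g1, g2, g3⟩ := hθ'
    obtain ⟨h4, h5⟩ := hr (y := θ) (by rw [Real.dist_eq, sub_zero, abs_of_pos hθ]; exact g1) hθ
    refine ⟨h4, h5.trans_le ?_⟩
    have hq0 : 0 < θ / η := by positivity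
    have hq1 : θ / η < 1 := by rw [div_lt_one hη]; linarith
    have hL : 0 < -Real.log (1 - θ / η) := by
      rw [neg_pos]; exact Real.log_neg (by linarith) (by linarith)
    have hE := Real.exp_lt_one_iff.2 h4
    rw [bd, le_div_iff₀ hL]
    have h6 : -Real.log (1 - θ / η) ≤ (θ / η) / (1 - θ / η) := by
      rw [← Real.log_inv]
      refine (Real.log_le_sub_one_of_pos (by rw [inv_pos]; linarith)).trans (le_of_eq ?_)
      have : 1 - θ / η ≠ 0 := by linarith
      have hne : η - θ ≠ 0 := by linarith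
      field_simp
      ring
    have h7 : 0 ≤ 2 * η * (1 - Real.exp (-(1 / (2 * θ)) + (Real.exp 1 - 1))) * (1 - θ / η) :=
      mul_nonneg (mul_nonneg (by positivity) (by linarith)) (by linarith)
    calc 2 * η * (1 - Real.exp (-(1 / (2 * θ)) + (Real.exp 1 - 1))) * (1 - θ / η) *
          (-Real.log (1 - θ / η)) ≤
        2 * η * (1 - Real.exp (-(1 / (2 * θ)) + (Real.exp 1 - 1))) * (1 - θ / η) *
          ((θ / η) / (1 - θ / η)) := mul_le_mul_of_nonneg_left h6 h7
      _ = 2 * θ * (1 - Real.exp (-(1 / (2 * θ)) + (Real.exp 1 - 1))) := by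
          have : 1 - θ / η ≠ 0 := by linarith
          have hne : η - θ ≠ 0 := by linarith
          field_simp

/-- If the true sieve goes up to `n ^ θ ≥ √n` and no random classes are used, the set is the set
of primes. -/
theorem semi_eq_primes {θ η : ℝ} (h0 : 1 / 2 ≤ θ) (h1 : θ < 1) (hη : η ≤ θ) (a : ℕ → ℕ) :
    Semi θ η a = {p | p.Prime} := by
  ext n
  simp only [Semi, Set.mem_ofPred_eq]
  constructor
  · rintro ⟨hn2, h⟩
    rw [Nat.prime_def_minFac]
    refine ⟨hn2, ?_⟩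
    by_contra hne
    have hn1 : n ≠ 1 := by omega
    have hp := Nat.minFac_prime hn1
    have hnp : ¬ n.Prime := by
      intro hnp
      exact hne (Nat.Prime.minFac_eq hnp)
    have hsq := Nat.minFac_sq_le_self (by omega : 0 < n) hnp
    have h3 : (n.minFac : ℝ) ≤ (n : ℝ) ^ θ := by
      have h4 : (n.minFac : ℝ) ^ 2 ≤ n := by exact_mod_cast hsq
      have h5 : (n.minFac : ℝ) ≤ (n : ℝ) ^ (1 / 2 : ℝ) := by
        rw [← Real.sqrt_eq_rpow]
        exact Real.le_sqrt_of_sq_le h4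
      refine h5.trans ?_
      exact Real.rpow_le_rpow_of_exponent_le (by exact_mod_cast (by omega : 1 ≤ n)) h0
    exact (h _ hp).1 h3 (Nat.minFac_dvd n)
  · intro hn
    refine ⟨hn.two_le, fun p hp => ⟨fun hpn hdvd => ?_, fun h3 h4 => ?_⟩⟩
    · rcases (Nat.dvd_prime hn).mp hdvd with h | h
      · exact hp.one_lt.ne' h
      · rw [h] at hpn
        have h2 : (n : ℝ) ^ θ < (n : ℝ) ^ (1 : ℝ) :=
          Real.rpow_lt_rpow_of_exponent_lt (by exact_mod_cast hn.one_lt) h1
        rw [Real.rpow_one] at h2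
        linarith
    · exfalso
      have h5 : (n : ℝ) ^ η ≤ (n : ℝ) ^ θ :=
        Real.rpow_le_rpow_of_exponent_le (by exact_mod_cast hn.one_lt.le) hη
      linarith

end Pool.Agent.Work.MP_b0c12c_nt_helper41
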