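import Mathlib

/-!
# The probability that random residue classes hit all of `m` given integers
-/

set_option autoImplicit false

namespace Pool.Agent.Work.MP_b0c12c_nt_helper41

/-- The probability that each of `m` bins is hit, when every number `p` of the list hits
independently each bin with probability `1/p` (and at most one bin). -/
noncomputable def phi : List ℕ → ℕ → ℝ
  | [], m => if m = 0 then 1 else 0
  | p :: l, m => (1 - m / p) * phi l m + (m / p) * phi l (m - 1)

@[simp] theorem phi_nil (m : ℕ) : phi [] m = if m = 0 then 1 else 0 := rfl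

theorem phi_cons (p : ℕ) (l : List ℕ) (m : ℕ) :
    phi (p :: l) m = (1 - m / p) * phi l m + (m / p) * phi l (m - 1) := rfl

@[simp] theorem phi_zero (l : List ℕ) : phi l 0 = 1 := by
  induction l with
  | nil => simp
  | cons p l ih => rw [phi_cons, ih]; simp

/-- all members of the list are at least `M` and positive -/
def Big (M : ℕ) (l : List ℕ) : Prop := ∀ p ∈ l, 0 < p ∧ M ≤ p

theorem Big.cons {M p : ℕ} {l : List ℕ} (h : Big M (p :: l)) : (0 < p ∧ M ≤ p) ∧ Big M l :=
  ⟨h p (by simp), fun q hq => h q (by simp [hq])⟩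

theorem phi_nonneg {M : ℕ} {l : List ℕ} (h : Big M l) : ∀ m, m ≤ M → 0 ≤ phi l m := by
  induction l with
  | nil => intro m _; rw [phi_nil]; split_ifs <;> norm_num
  | cons p l ih =>
    intro m hm
    obtain ⟨⟨hp, hMp⟩, hl⟩ := h.cons
    have h1 := ih hl m hm
    have h2 := ih hl (m - 1) (by omega)
    rw [phi_cons]
    have hp' : (0 : ℝ) < p := by exact_mod_cast hp
    have hu : (m : ℝ) / p ≤ 1 := by
      rw [div_le_one hp']; exact_mod_cast le_trans hm hMp
    have hu0 : 0 ≤ (m : ℝ) / p := by positivity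
    have := mul_nonneg (sub_nonneg.2 hu) h1
    have := mul_nonneg hu0 h2
    linarith

theorem phi_succ_le {M : ℕ} {l : List ℕ} (h : Big M l) : ∀ m, m + 1 ≤ M →
    phi l (m + 1) ≤ phi l m := by
  induction l with
  | nil => intro m _; rw [phi_nil, phi_nil]; simp; split_ifs <;> norm_num
  | cons p l ih =>
    intro m hm
    obtain ⟨⟨hp, hMp⟩, hl⟩ := h.cons
    have h1 := ih hl m hm
    have hp' : (0 : ℝ) < p := by exact_mod_cast hp
    have hu : ((m : ℝ) + 1) / p ≤ 1 := by
      rw [div_le_one hp']; exact_mod_cast le_trans hm hMp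
    have hu0 : 0 ≤ (m : ℝ) / p := by positivity
    rw [phi_cons, phi_cons]
    have h2 : phi l m ≤ phi l (m - 1) := by
      rcases Nat.eq_zero_or_pos m with rfl | hm0
      · simp
      · have := ih hl (m - 1) (by omega)
        rwa [Nat.sub_add_cancel hm0] at this
    push_cast
    have e1 := mul_nonneg (sub_nonneg.2 hu) (sub_nonneg.2 h1)
    have e2 := mul_nonneg hu0 (sub_nonneg.2 h2)
    nlinarith

theorem phi_anti {M : ℕ} {l : List ℕ} (h : Big M l) {m : ℕ} (hm : m ≤ M) :
    phi l m ≤ phi l (m - 1) := by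
  rcases Nat.eq_zero_or_pos m with rfl | hm0
  · simp
  · have := phi_succ_le h (m - 1) (by omega)
    rwa [Nat.sub_add_cancel hm0] at this

theorem phi_le_one {M : ℕ} {l : List ℕ} (h : Big M l) : ∀ m, m ≤ M → phi l m ≤ 1 := by
  intro m
  induction m with
  | zero => intro _; simp
  | succ m ih =>
    intro hm
    exact le_trans (phi_succ_le h m hm) (ih (by omega))

theorem phi_le_cons {M p : ℕ} {l : List ℕ} (h : Big M (p :: l)) {m : ℕ} (hm : m ≤ M) :
    phi l m ≤ phi (p :: l) m := by
  obtain ⟨⟨hp, hMp⟩, hl⟩ := h.cons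
  rw [phi_cons]
  have h2 := phi_anti hl hm
  have hu0 : 0 ≤ (m : ℝ) / p := by positivity
  have e2 := mul_nonneg hu0 (sub_nonneg.2 h2)
  nlinarith

/-- `phi l k ≥ κ phi l (k-1)` for `1 ≤ k ≤ M` -/
def Ratio (l : List ℕ) (κ : ℝ) (M : ℕ) : Prop :=
  ∀ k, 1 ≤ k → k ≤ M → κ * phi l (k - 1) ≤ phi l k

theorem Ratio.keep {M p : ℕ} {l : List ℕ} {κ : ℝ} (hκ1 : κ ≤ 1)
    (hb : Big M (p :: l)) (h : Ratio l κ M) : Ratio (p :: l) κ M := by
  intro k hk hkM
  obtain ⟨⟨hp, hMp⟩, hl⟩ := hb.cons
  have hp' : (0 : ℝ) < p := by exact_mod_cast hp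
  have hu : (k : ℝ) / p ≤ 1 := by
    rw [div_le_one hp']; exact_mod_cast le_trans hkM hMp
  obtain ⟨j, rfl⟩ : ∃ j, k = j + 1 := ⟨k - 1, by omega⟩
  rw [phi_cons, phi_cons, Nat.add_sub_cancel]
  have h1 := h (j + 1) (by omega) hkM
  rw [Nat.add_sub_cancel] at h1
  have h0 := phi_nonneg hl j (by omega)
  have h2 : κ * (j * phi l (j - 1)) ≤ j * phi l j := by
    rcases Nat.eq_zero_or_pos j with rfl | hj
    · simp
    · have := h j hj (by omega)
      have := mul_le_mul_of_nonneg_left this (Nat.cast_nonneg (α := ℝ) j)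
      linarith
  set u : ℝ := 1 / p with hu'
  have hu0 : 0 < u := by positivity
  have e1 : ((j : ℝ) + 1) / p = (j + 1) * u := by rw [hu']; ring
  have e2 : (j : ℝ) / p = j * u := by rw [hu']; ring
  push_cast at hu ⊢
  rw [e1] at hu ⊢
  rw [e2]
  have key : (1 - ((j : ℝ) + 1) * u) * phi l (j + 1) + ((j : ℝ) + 1) * u * phi l j -
      κ * ((1 - j * u) * phi l j + j * u * phi l (j - 1)) =
      (1 - ((j : ℝ) + 1) * u) * (phi l (j + 1) - κ * phi l j) +
        u * ((j * phi l j - κ * (j * phi l (j - 1))) + (1 - κ) * phi l j) := by ring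
  have t1 := mul_nonneg (sub_nonneg.2 hu) (sub_nonneg.2 h1)
  have t2 : 0 ≤ (j * phi l j - κ * (j * phi l (j - 1))) + (1 - κ) * phi l j := by
    have := mul_nonneg (sub_nonneg.2 hκ1) h0
    linarith
  have t3 := mul_nonneg hu0.le t2
  linarith

theorem Ratio.keep_append {M : ℕ} {l₂ l : List ℕ} {κ : ℝ} (hκ1 : κ ≤ 1)
    (hb : Big M (l₂ ++ l)) (h : Ratio l κ M) : Ratio (l₂ ++ l) κ M := by
  induction l₂ with
  | nil => simpa using h
  | cons p l₂ ih =>
    have hb' : Big M (p :: (l₂ ++ l)) := by simpa using hb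
    exact Ratio.keep hκ1 hb' (ih hb'.cons.2)

theorem Ratio.grow {M p : ℕ} {l : List ℕ} {κ δ : ℝ} (hκ0 : 0 < κ) (hκ1 : κ ≤ 1) (hδ0 : 0 ≤ δ)
    (hδ1 : δ ≤ 1) (hb : Big M (p :: l)) (hM : M * (1 / (p : ℝ)) ≤ δ * κ) (h : Ratio l κ M) :
    Ratio (p :: l) (κ + (1 - δ) * (1 / (p : ℝ)) * (1 - κ)) M := by
  intro k hk hkM
  obtain ⟨⟨hp, hMp⟩, hl⟩ := hb.cons
  have hp' : (0 : ℝ) < p := by exact_mod_cast hp
  have hu : (k : ℝ) / p ≤ 1 := by
    rw [div_le_one hp']; exact_mod_cast le_trans hkM hMp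
  obtain ⟨j, rfl⟩ : ∃ j, k = j + 1 := ⟨k - 1, by omega⟩
  rw [phi_cons, phi_cons, Nat.add_sub_cancel]
  have h1 := h (j + 1) (by omega) hkM
  rw [Nat.add_sub_cancel] at h1
  have h0 := phi_nonneg hl j (by omega)
  have h2 : κ * (j * phi l (j - 1)) ≤ j * phi l j := by
    rcases Nat.eq_zero_or_pos j with rfl | hj
    · simp
    · have := h j hj (by omega)
      have := mul_le_mul_of_nonneg_left this (Nat.cast_nonneg (α := ℝ) j)
      linarith
  set u : ℝ := 1 / p with hu'
  have hu0 : 0 < u := by positivity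
  have e1 : ((j : ℝ) + 1) / p = (j + 1) * u := by rw [hu']; ring
  have e2 : (j : ℝ) / p = j * u := by rw [hu']; ring
  push_cast at hu ⊢
  rw [e1] at hu ⊢
  rw [e2]
  have hju : (j : ℝ) * u ≤ δ * κ := by
    have : (j : ℝ) ≤ M := by exact_mod_cast (by omega : j ≤ M)
    exact le_trans (mul_le_mul_of_nonneg_right this hu0.le) hM
  have hj0 : 0 ≤ (j : ℝ) * u := by positivity
  -- lower bound of the left side and upper bound of the right side
  have a1 : (κ + ((j : ℝ) + 1) * u * (1 - κ)) * phi l j ≤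
      (1 - ((j : ℝ) + 1) * u) * phi l (j + 1) + ((j : ℝ) + 1) * u * phi l j := by
    have := mul_nonneg (sub_nonneg.2 hu) (sub_nonneg.2 h1)
    nlinarith
  have a2 : κ * ((1 - j * u) * phi l j + j * u * phi l (j - 1)) ≤
      (κ + j * u * (1 - κ)) * phi l j := by
    have : u * (κ * (j * phi l (j - 1))) ≤ u * (j * phi l j) :=
      mul_le_mul_of_nonneg_left h2 hu0.le
    nlinarith
  -- now compare the two factors
  set A := κ + ((j : ℝ) + 1) * u * (1 - κ) with hA
  set B := κ + (j : ℝ) * u * (1 - κ) with hB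
  set κ' := κ + (1 - δ) * u * (1 - κ) with hκ'
  have hκ'0 : 0 ≤ κ' := by
    have : 0 ≤ (1 - δ) * u * (1 - κ) :=
      mul_nonneg (mul_nonneg (by linarith) hu0.le) (by linarith)
    linarith
  have hcmp : κ' * B ≤ κ * A := by
    have e : κ * A - κ' * B = u * (1 - κ) * (δ * κ - (1 - δ) * (j * u) * (1 - κ)) := by
      rw [hA, hB, hκ']; ring
    have e3 : (1 - δ) * (j * u) * (1 - κ) ≤ δ * κ := by
      calc (1 - δ) * (j * u) * (1 - κ) ≤ 1 * (j * u) * 1 := by
            apply mul_le_mul _ (by linarith) (by linarith) (by positivity)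
            exact mul_le_mul_of_nonneg_right (by linarith) hj0
        _ ≤ δ * κ := by linarith
    have : 0 ≤ u * (1 - κ) * (δ * κ - (1 - δ) * (j * u) * (1 - κ)) :=
      mul_nonneg (mul_nonneg hu0.le (by linarith)) (by linarith)
    linarith
  have f1 : κ * (κ' * ((1 - j * u) * phi l j + j * u * phi l (j - 1))) ≤
      κ * ((1 - ((j : ℝ) + 1) * u) * phi l (j + 1) + ((j : ℝ) + 1) * u * phi l j) := by
    calc κ * (κ' * ((1 - j * u) * phi l j + j * u * phi l (j - 1)))
        = κ' * (κ * ((1 - j * u) * phi l j + j * u * phi l (j - 1))) := by ring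
      _ ≤ κ' * (B * phi l j) := mul_le_mul_of_nonneg_left a2 hκ'0
      _ = (κ' * B) * phi l j := by ring
      _ ≤ (κ * A) * phi l j := mul_le_mul_of_nonneg_right hcmp h0
      _ = κ * (A * phi l j) := by ring
      _ ≤ _ := mul_le_mul_of_nonneg_left a1 hκ0.le
  exact le_of_mul_le_mul_left f1 hκ0

/-- Sum of reciprocals. -/
noncomputable def rsum (l : List ℕ) : ℝ := (l.map fun p : ℕ => 1 / (p : ℝ)).sum

@[simp] theorem rsum_nil : rsum [] = 0 := rfl
@[simp] theorem rsum_cons (p : ℕ) (l : List ℕ) : rsum (p :: l) = 1 / p + rsum l := by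
  simp [rsum]

theorem rsum_nonneg (l : List ℕ) : 0 ≤ rsum l := by
  induction l with
  | nil => simp
  | cons p l ih => rw [rsum_cons]; positivity

/-- The start: a ratio bound from nothing. -/
theorem ratio_start {M : ℕ} {ε c s : ℝ} (hc0 : 0 ≤ c) (hcs : c * (1 + s) ≤ 1) {l : List ℕ}
    (hb : Big M l) (hε : ∀ p ∈ l, 1 / (p : ℝ) ≤ ε) (hs : rsum l ≤ s) :
    ∀ k, 1 ≤ k → k ≤ M → c * max 0 (rsum l - (k - 1) * ε) * phi l (k - 1) ≤ phi l k := by
  induction l with
  | nil =>
    intro k hk _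
    by_cases hε0 : 0 ≤ ε
    · have : max 0 (rsum [] - ((k : ℝ) - 1) * ε) = 0 := by
        rw [max_eq_left]
        have : (0 : ℝ) ≤ ((k : ℝ) - 1) * ε := by
          have : (1 : ℝ) ≤ k := by exact_mod_cast hk
          exact mul_nonneg (by linarith) hε0
        simp only [rsum_nil]; linarith
      rw [this]; simp
      split_ifs <;> norm_num
    · rcases Nat.lt_or_ge 1 k with h1 | h1
      · have : phi [] (k - 1) = 0 := by rw [phi_nil, if_neg (by omega)]
        rw [this]; simp; split_ifs <;> norm_num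
      · obtain rfl : k = 1 := by omega
        simp
  | cons p l ih =>
    intro k hk hkM
    obtain ⟨⟨hp, hMp⟩, hl⟩ := hb.cons
    have hp' : (0 : ℝ) < p := by exact_mod_cast hp
    have hu : (k : ℝ) / p ≤ 1 := by
      rw [div_le_one hp']; exact_mod_cast le_trans hkM hMp
    rw [rsum_cons] at hs ⊢
    have hu0 : (0 : ℝ) < 1 / p := by positivity
    have hεp : 1 / (p : ℝ) ≤ ε := hε p (by simp)
    have ih' := ih hl (fun q hq => hε q (by simp [hq])) (by linarith)
    obtain ⟨j, rfl⟩ : ∃ j, k = j + 1 := ⟨k - 1, by omega⟩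
    rw [phi_cons, phi_cons, Nat.add_sub_cancel]
    have h1 := ih' (j + 1) (by omega) hkM
    rw [Nat.add_sub_cancel] at h1
    have h0 := phi_nonneg hl j (by omega)
    have h00 := phi_nonneg hl (j + 1) (by omega)
    have h0' := phi_nonneg hl (j - 1) (by omega)
    set S := rsum l with hS
    set u : ℝ := 1 / p with hu'
    have e1 : ((j : ℝ) + 1) / p = (j + 1) * u := by rw [hu']; ring
    have e2 : (j : ℝ) / p = j * u := by rw [hu']; ring
    push_cast at hu h1 ⊢
    rw [e1] at hu ⊢
    rw [e2]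
    have e3 : (j : ℝ) + 1 - 1 = j := by ring
    rw [e3] at h1 ⊢
    set T := S - j * ε with hT
    have e4 : u + S - j * ε = T + u := by rw [hT]; ring
    rw [e4]
    have hε0 : 0 < ε := lt_of_lt_of_le hu0 hεp
    have hc1 : c ≤ 1 := by
      have hs0 : 0 ≤ s := by linarith [rsum_nonneg l]
      nlinarith
    by_cases hTu : T + u ≤ 0
    · rw [max_eq_left hTu]
      have t1 := mul_nonneg (sub_nonneg.2 hu) h00
      have t2 : 0 ≤ ((j : ℝ) + 1) * u * phi l j := by positivity
      simp only [mul_zero, zero_mul]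
      linarith
    · rw [not_le] at hTu
      rw [max_eq_right hTu.le]
      -- upper bound for the older term
      have hold : (c * (T + u)) * (j * u * phi l (j - 1)) ≤ j * u * phi l j := by
        rcases Nat.eq_zero_or_pos j with rfl | hj
        · simp
        · have h3 := ih' j hj (by omega)
          have hTε : T + u ≤ S - ((j : ℝ) - 1) * ε := by rw [hT]; linarith
          have hmax : c * (T + u) ≤ c * max 0 (S - ((j : ℝ) - 1) * ε) :=
            mul_le_mul_of_nonneg_left (le_trans hTε (le_max_right _ _)) hc0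
          have h4 : c * (T + u) * phi l (j - 1) ≤ phi l j :=
            le_trans (mul_le_mul_of_nonneg_right hmax h0') h3
          have := mul_le_mul_of_nonneg_left h4 (by positivity : (0:ℝ) ≤ (j : ℝ) * u)
          linarith
      have hju1 : (j : ℝ) * u ≤ 1 := by nlinarith
      have hcTu : 0 ≤ c * (T + u) := mul_nonneg hc0 hTu.le
      rcases le_or_gt 0 T with hT0 | hT0
      · rw [max_eq_right hT0] at h1
        have hTs : T + u ≤ s := by
          have : 0 ≤ (j : ℝ) * ε := by positivity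
          linarith
        have t1 := mul_nonneg (sub_nonneg.2 hu) (sub_nonneg.2 h1)
        have h5 : c * (T + 1) ≤ 1 := by
          have : c * (T + 1) ≤ c * (1 + s) := mul_le_mul_of_nonneg_left (by linarith) hc0
          linarith
        have key : 0 ≤ u * (1 - c * (T + 1)) * phi l j :=
          mul_nonneg (mul_nonneg hu0.le (by linarith)) h0
        have key2 : 0 ≤ c * j * u * u * phi l j := by positivity
        nlinarith
      · rw [max_eq_left hT0.le] at h1
        have t1 := mul_nonneg (sub_nonneg.2 hu) h00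
        have h6 : c * (T + u) ≤ u := by nlinarith
        have h7 : c * (T + u) * ((1 - j * u) * phi l j) ≤ u * phi l j := by
          calc c * (T + u) * ((1 - j * u) * phi l j) ≤ u * (1 * phi l j) := by
                apply mul_le_mul h6 _ (mul_nonneg (by linarith) h0) hu0.le
                exact mul_le_mul_of_nonneg_right (by nlinarith) h0
            _ = u * phi l j := by ring
        nlinarith

theorem Ratio.lower {M : ℕ} {l : List ℕ} {κ : ℝ} (hκ : 0 ≤ κ) (h : Ratio l κ M) :
    ∀ m, m ≤ M → κ ^ m ≤ phi l m := by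
  intro m
  induction m with
  | zero => intro _; simp
  | succ m ih =>
    intro hm
    have h1 := h (m + 1) (by omega) hm
    rw [Nat.add_sub_cancel] at h1
    calc κ ^ (m + 1) = κ * κ ^ m := by ring
      _ ≤ κ * phi l m := mul_le_mul_of_nonneg_left (ih (by omega)) hκ
      _ ≤ _ := h1

/-- Iterated growth of the ratio. -/
theorem Ratio.grow_append {M : ℕ} {l₂ l : List ℕ} {κ δ : ℝ} (hκ0 : 0 < κ) (hκ1 : κ ≤ 1)
    (hδ0 : 0 ≤ δ) (hδ1 : δ ≤ 1) (hb : Big M (l₂ ++ l))
    (hM : ∀ p ∈ l₂, M * (1 / (p : ℝ)) ≤ δ * κ) (h : Ratio l κ M) :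
    Ratio (l₂ ++ l) (1 - (1 - κ) * (l₂.map fun p : ℕ => 1 - (1 - δ) * (1 / (p : ℝ))).prod) M := by
  induction l₂ with
  | nil => simpa using h
  | cons p l₂ ih =>
    have hb' : Big M (p :: (l₂ ++ l)) := by simpa using hb
    obtain ⟨⟨hp, _⟩, _⟩ := hb'.cons
    have ih' := ih hb'.cons.2 (fun q hq => hM q (by simp [hq]))
    set P := (l₂.map fun p : ℕ => 1 - (1 - δ) * (1 / (p : ℝ))).prod with hP
    have hfac : ∀ q ∈ (p :: l₂), 0 ≤ 1 - (1 - δ) * (1 / (q : ℝ)) ∧
        1 - (1 - δ) * (1 / (q : ℝ)) ≤ 1 := by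
      intro q hq
      have hq0 : 0 < q := (hb q (by simp at hq ⊢; tauto)).1
      have h1 : (1 : ℝ) ≤ q := by exact_mod_cast hq0
      have h2 : 1 / (q : ℝ) ≤ 1 := by rw [div_le_one (by linarith)]; exact h1
      have h3 : 0 ≤ 1 / (q : ℝ) := by positivity
      constructor
      · nlinarith
      · have : 0 ≤ (1 - δ) * (1 / (q : ℝ)) := mul_nonneg (by linarith) h3
        linarith
    have hP0 : 0 ≤ P := by
      rw [hP]
      apply List.prod_nonneg
      intro a ha
      rw [List.mem_map] at ha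
      obtain ⟨q, hq, rfl⟩ := ha
      exact (hfac q (by simp [hq])).1
    have hP1 : P ≤ 1 := by
      rw [hP]
      clear hP0 hP ih' ih
      have : ∀ l' : List ℕ, (∀ q ∈ l', 0 ≤ 1 - (1 - δ) * (1 / (q : ℝ)) ∧
        1 - (1 - δ) * (1 / (q : ℝ)) ≤ 1) →
          (l'.map fun p : ℕ => 1 - (1 - δ) * (1 / (p : ℝ))).prod ≤ 1 := by
        intro l'
        induction l' with
        | nil => intro _; simp
        | cons a l' ih =>
          intro h
          simp only [List.map_cons, List.prod_cons]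
          have h1 := h a (by simp)
          have h2 := ih (fun q hq => h q (by simp [hq]))
          have h3 : 0 ≤ (l'.map fun p : ℕ => 1 - (1 - δ) * (1 / (p : ℝ))).prod := by
            apply List.prod_nonneg
            intro b hb
            rw [List.mem_map] at hb
            obtain ⟨q, hq, rfl⟩ := hb
            exact (h q (by simp [hq])).1
          nlinarith
      exact this l₂ (fun q hq => hfac q (by simp [hq]))
    set κ1 := 1 - (1 - κ) * P with hκ1'
    have hκκ1 : κ ≤ κ1 := by rw [hκ1']; nlinarith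
    have hκ11 : κ1 ≤ 1 := by
      have : 0 ≤ (1 - κ) * P := mul_nonneg (by linarith) hP0
      linarith
    have := Ratio.grow (p := p) (δ := δ) (lt_of_lt_of_le hκ0 hκκ1) hκ11 hδ0 hδ1 hb'
      (le_trans (hM p (by simp)) (mul_le_mul_of_nonneg_left hκκ1 hδ0)) ih'
    have e : κ1 + (1 - δ) * (1 / (p : ℝ)) * (1 - κ1) =
        1 - (1 - κ) * ((p :: l₂).map fun p : ℕ => 1 - (1 - δ) * (1 / (p : ℝ))).prod := by
      simp only [List.map_cons, List.prod_cons]
      rw [← hP, hκ1']
      ring
    rw [e] at this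
    simpa using this

end Pool.Agent.Work.MP_b0c12c_nt_helper41
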