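import Pool.Agent.Work.MP_b0c12c_nt_helper41.Hit
import Pool.Agent.Work.MP_b0c12c_nt_helper63.Prob

/-!
# Probability that a set of integers is covered by random residue classes
-/

set_option autoImplicit false
set_option linter.unusedSectionVars false
set_option linter.deprecated false

open MeasureTheory ProbabilityTheory Finset
open Pool.Agent.Work.MP_b0c12c_nt_helper63 (RandomClasses Hit hit_meas' indep_real)

namespace Pool.Agent.Work.MP_b0c12c_nt_helper41

variable {Ω : Type*} [MeasurableSpace Ω] {μ : Measure Ω} [IsProbabilityMeasure μ]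
  {a : ℕ → Ω → ℕ}

/-- the event probability is `hit` -/
theorem real_hit (h : RandomClasses μ a) : ∀ (l : List ℕ), l.Nodup → (∀ p ∈ l, p.Prime) →
    ∀ B : Finset ℕ, μ.real (Hit a l B) = hit l B := by
  intro l
  induction l with
  | nil =>
    intro _ _ B
    rw [hit_nil]
    rcases B.eq_empty_or_nonempty with h0 | ⟨n, hn⟩
    · subst h0; simp [Hit]
    · have h1 : Hit a [] B = ∅ := by
        ext ω; simp only [Hit, Set.mem_setOf_eq, Set.mem_empty_iff_false, iff_false]
        intro hh
        obtain ⟨p, hp, _⟩ := hh n hn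
        simp at hp
      have h2 : B ≠ ∅ := Finset.nonempty_iff_ne_empty.1 ⟨n, hn⟩
      rw [h1, if_neg h2]
      simp
  | cons p l ih =>
    intro hnd hprime B
    rw [List.nodup_cons] at hnd
    have hp : p.Prime := hprime p (by simp)
    have hprime' : ∀ q ∈ l, q.Prime := fun q hq => hprime q (by simp [hq])
    set E : ℕ → Set Ω := fun r => {ω | a p ω ∈ ({r} : Set ℕ)} with hE
    have hEm : ∀ r, MeasurableSet (E r) := fun r => h.meas p (MeasurableSet.of_discrete (s := {r}))
    have hEp : ∀ r ∈ range p, μ.real (E r) = 1 / p := by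
      intro r hr
      have := h.unif p hp r (mem_range.1 hr)
      simpa [hE] using this
    have hEd : ((range p : Finset ℕ) : Set ℕ).PairwiseDisjoint E := by
      intro r _ s _ hrs
      rw [Function.onFun, Set.disjoint_left]
      intro ω h1 h2
      simp only [hE, Set.mem_setOf_eq, Set.mem_singleton_iff] at h1 h2
      exact hrs (h1.symm.trans h2)
    set U : Set Ω := ⋃ r ∈ range p, E r with hU
    have hUm : MeasurableSet U := Finset.measurableSet_biUnion _ fun r _ => hEm r
    have hU1 : μ.real U = 1 := by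
      rw [hU, measureReal_biUnion_finset hEd (fun r _ => hEm r), sum_congr rfl hEp, sum_const,
        card_range, nsmul_eq_mul]
      have : (p : ℝ) ≠ 0 := by exact_mod_cast hp.ne_zero
      field_simp
    have hUc : μ Uᶜ = 0 := by
      have h1 := probReal_compl_eq_one_sub (μ := μ) hUm
      rw [hU1, sub_self] at h1
      rwa [measureReal_eq_zero_iff] at h1
    have h1 : μ.real (Hit a (p :: l) B) = μ.real (Hit a (p :: l) B ∩ U) := by
      rw [measureReal_def, measureReal_def, measure_inter_conull hUc]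
    have h2 : Hit a (p :: l) B ∩ U = ⋃ r ∈ range p, (E r ∩ Hit a l (cut p r B)) := by
      ext ω
      simp only [hU, hE, Hit, cut, Set.mem_inter_iff, Set.mem_setOf_eq, Set.mem_iUnion,
        Set.mem_singleton_iff, exists_prop, mem_filter, mem_range, List.mem_cons]
      constructor
      · rintro ⟨h3, r, hr, har⟩
        refine ⟨r, hr, har, ?_⟩
        rintro n ⟨hn, hnr⟩
        obtain ⟨q, hq, haq⟩ := h3 n hn
        rcases hq with rfl | hq
        · exact absurd (haq.symm.trans har) hnr
        · exact ⟨q, hq, haq⟩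
      · rintro ⟨r, hr, har, h3⟩
        refine ⟨fun n hn => ?_, r, hr, har⟩
        by_cases hnr : n % p = r
        · exact ⟨p, Or.inl rfl, by rw [har, hnr]⟩
        · obtain ⟨q, hq, haq⟩ := h3 n ⟨hn, hnr⟩
          exact ⟨q, Or.inr hq, haq⟩
    have hFd : ((range p : Finset ℕ) : Set ℕ).PairwiseDisjoint
        (fun r => E r ∩ Hit a l (cut p r B)) := by
      intro r hr s hs hrs
      exact (hEd hr hs hrs).mono Set.inter_subset_left Set.inter_subset_left
    rw [h1, h2, measureReal_biUnion_finset hFd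
      (fun r _ => (hEm r).inter (hit_meas' h.meas l _)), hit_cons, mul_sum]
    refine sum_congr rfl fun r hr => ?_
    rw [hE]
    simp only
    rw [indep_real h p l hnd.1, ih hnd.2 hprime']
    have := hEp r hr
    simp only [hE] at this
    rw [this]

theorem Hit_congr {l l' : List ℕ} (hl : ∀ p, p ∈ l ↔ p ∈ l') (B : Finset ℕ) :
    Hit a l B = Hit a l' B := by
  ext ω
  simp only [Hit, Set.mem_setOf_eq]
  constructor
  · intro h n hn
    obtain ⟨p, hp, e⟩ := h n hn
    exact ⟨p, (hl p).1 hp, e⟩
  · intro h n hn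
    obtain ⟨p, hp, e⟩ := h n hn
    exact ⟨p, (hl p).2 hp, e⟩

theorem Hit_union (l : List ℕ) (A B : Finset ℕ) : Hit a l A ∩ Hit a l B = Hit a l (A ∪ B) := by
  ext ω
  simp only [Hit, Set.mem_inter_iff, Set.mem_setOf_eq, mem_union]
  constructor
  · rintro ⟨h1, h2⟩ n (hn | hn)
    · exact h1 n hn
    · exact h2 n hn
  · intro h
    exact ⟨fun n hn => h n (Or.inl hn), fun n hn => h n (Or.inr hn)⟩

theorem phi_swap (p q : ℕ) (l : List ℕ) (m : ℕ) : phi (p :: q :: l) m = phi (q :: p :: l) m := by
  simp only [phi_cons]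
  rcases Nat.eq_zero_or_pos m with rfl | hm
  · simp
  · obtain ⟨k, rfl⟩ : ∃ k, m = k + 1 := ⟨m - 1, by omega⟩
    simp only [Nat.add_sub_cancel]
    push_cast
    ring

/-- `phi` does not depend on the order of the list. -/
theorem phi_perm {l l' : List ℕ} (h : l.Perm l') : ∀ m, phi l m = phi l' m := by
  induction h with
  | nil => intro m; rfl
  | cons x _ ih => intro m; rw [phi_cons, phi_cons, ih, ih]
  | swap x y l => intro m; exact phi_swap _ _ _ _
  | trans _ _ ih1 ih2 => intro m; rw [ih1, ih2]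

theorem Ratio.perm {l l' : List ℕ} {κ : ℝ} {M : ℕ} (h : l.Perm l') (hr : Ratio l κ M) :
    Ratio l' κ M := by
  intro k hk hkM
  rw [← phi_perm h, ← phi_perm h]
  exact hr k hk hkM

theorem ok_append {κ : ℝ} {M : ℕ} {A A' : Finset ℕ} (hκ1 : κ ≤ 1) {N : List ℕ}
    (hN : ∀ p ∈ N, col p A A' = 0) (hr : Ratio N κ M) :
    ∀ C : List ℕ, Big M (C ++ N) → Ok κ M A A' (C ++ N) := by
  have h0 : ∀ N : List ℕ, (∀ p ∈ N, col p A A' = 0) → Ok κ M A A' N := by
    intro N
    induction N with
    | nil => intro _; trivial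
    | cons p N ih =>
      intro h
      exact ⟨Or.inl (h p (by simp)), ih fun q hq => h q (by simp [hq])⟩
  intro C
  induction C with
  | nil => intro _; exact h0 N hN
  | cons p C ih =>
    intro hb
    have hb' : Big M (p :: (C ++ N)) := by simpa using hb
    exact ⟨Or.inr (hr.keep_append hκ1 hb'.cons.2), ih hb'.cons.2⟩

theorem corr_le_exp (κ : ℝ) (A A' : Finset ℕ) (l : List ℕ) :
    corr κ A A' l ≤ Real.exp ((l.map fun p : ℕ => (col p A A' : ℝ) * (1 / p) / κ ^ 2).sum) := by
  induction l with
  | nil => simp [corr]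
  | cons p l ih =>
    simp only [corr, List.map_cons, List.sum_cons, Real.exp_add]
    have h1 := Real.add_one_le_exp ((col p A A' : ℝ) * (1 / p) / κ ^ 2)
    have h2 := corr_ge_one κ A A' l
    have h3 : 0 ≤ (col p A A' : ℝ) * (1 / p) / κ ^ 2 := by positivity
    exact mul_le_mul (by linarith) ih (by linarith) (Real.exp_pos _).le

/-- Two disjoint sets are almost negatively correlated. -/
theorem pair_bound (h : RandomClasses μ a) (R : Finset ℕ) (hR : ∀ p ∈ R, p.Prime) {κ : ℝ}
    (hκ0 : 0 < κ) (hκ1 : κ ≤ 1) {M : ℕ} (hM : 0 < M) {A A' : Finset ℕ} (hd : Disjoint A A')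
    (hA : A.card ≤ M) (hA' : A'.card ≤ M) (hbig : ∀ p ∈ R, M ≤ p)
    (hinj : ∀ p ∈ R, Set.InjOn (fun b => b % p) (A : Set ℕ))
    (hinj' : ∀ p ∈ R, Set.InjOn (fun b => b % p) (A' : Set ℕ))
    (hratio : Ratio (R.filter fun p => col p A A' = 0).toList κ M) :
    μ.real (Hit a R.toList A ∩ Hit a R.toList A') ≤
      Real.exp (∑ p ∈ R, (col p A A' : ℝ) * (1 / p) / κ ^ 2) *
        (μ.real (Hit a R.toList A) * μ.real (Hit a R.toList A')) := by
  classical
  set N := R.filter fun p => col p A A' = 0 with hN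
  set C := R.filter fun p => ¬ col p A A' = 0 with hC
  set l := C.toList ++ N.toList with hl
  have hmem : ∀ p, p ∈ R.toList ↔ p ∈ l := by
    intro p
    simp only [hl, List.mem_append, mem_toList, hN, hC, mem_filter]
    tauto
  have hmemR : ∀ p ∈ l, p ∈ R := fun p hp => by
    have := (hmem p).2 hp
    simpa using this
  have hnd : l.Nodup := by
    rw [hl, List.nodup_append]
    refine ⟨C.nodup_toList, N.nodup_toList, ?_⟩
    intro p hp q hq hpq
    subst hpq
    rw [mem_toList, hC, mem_filter] at hp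
    rw [mem_toList, hN, mem_filter] at hq
    exact hp.2 hq.2
  have hprime : ∀ p ∈ l, p.Prime := fun p hp => hR p (hmemR p hp)
  have hbig' : Big M l := fun p hp => ⟨(hprime p hp).pos, hbig p (hmemR p hp)⟩
  have hinjA : Inj l A := fun p hp => hinj p (hmemR p hp)
  have hinjA' : Inj l A' := fun p hp => hinj' p (hmemR p hp)
  have hpos : ∀ p ∈ l, 0 < p := fun p hp => (hprime p hp).pos
  have hok : Ok κ M A A' l := by
    rw [hl]
    apply ok_append hκ1 _ hratio
    · rw [← hl]; exact hbig'
    · intro p hp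
      rw [mem_toList, hN, mem_filter] at hp
      exact hp.2
  have key := hit_union_le hκ0 hM hbig' hok A A' hd hA hA' hinjA hinjA' (fun p _ => le_rfl)
  rw [← hit_eq_phi hpos A hinjA, ← hit_eq_phi hpos A' hinjA', ← real_hit h l hnd hprime,
    ← real_hit h l hnd hprime, ← real_hit h l hnd hprime, ← Hit_union] at key
  rw [Hit_congr hmem A, Hit_congr hmem A']
  refine key.trans (mul_le_mul_of_nonneg_right ?_ (by positivity))
  refine (corr_le_exp κ A A' l).trans ?_
  apply Real.exp_le_exp.2
  apply le_of_eq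
  have e1 : (l.map fun p : ℕ => (col p A A' : ℝ) * (1 / p) / κ ^ 2).sum =
      ∑ p ∈ l.toFinset, (col p A A' : ℝ) * (1 / p) / κ ^ 2 :=
    (List.sum_toFinset _ hnd).symm
  rw [e1]
  congr 1
  ext p
  rw [List.mem_toFinset, ← hmem, mem_toList]

/-- Second moment lemma. -/
theorem second_moment' {ι : Type*} (W : Finset ι) (F : ι → Set Ω)
    (hF : ∀ i ∈ W, MeasurableSet (F i)) {δ : ℝ} (hδ : 0 ≤ δ)
    (hneg : ∀ i ∈ W, ∀ j ∈ W, i ≠ j →
      μ.real (F i ∩ F j) ≤ (1 + δ) * (μ.real (F i) * μ.real (F j)))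
    {lam : ℝ} (hlam : 0 < lam) (hsum : lam ≤ ∑ i ∈ W, μ.real (F i)) :
    μ.real {ω | ∀ i ∈ W, ω ∉ F i} ≤ δ + 1 / lam := by
  classical
  set L := ∑ i ∈ W, μ.real (F i) with hL
  have hL0 : 0 < L := lt_of_lt_of_le hlam hsum
  set N : Ω → ℝ := fun ω => ∑ i ∈ W, (F i).indicator (fun _ => (1 : ℝ)) ω with hN
  have hint : ∀ i ∈ W, Integrable ((F i).indicator (fun _ => (1 : ℝ))) μ := fun i hi =>
    (integrable_const _).indicator (hF i hi)
  have hintij : ∀ i ∈ W, ∀ j ∈ W, Integrable (fun ω => (F i).indicator (fun _ => (1 : ℝ)) ω *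
      (F j).indicator (fun _ => (1 : ℝ)) ω) μ := by
    intro i hi j hj
    have : (fun ω => (F i).indicator (fun _ => (1 : ℝ)) ω * (F j).indicator (fun _ => (1 : ℝ)) ω) =
        (F i ∩ F j).indicator (fun _ => (1 : ℝ)) := by
      ext ω
      by_cases h1 : ω ∈ F i <;> by_cases h2 : ω ∈ F j <;> simp [h1, h2]
    rw [this]
    exact (integrable_const _).indicator ((hF i hi).inter (hF j hj))
  have hEij : ∀ i ∈ W, ∀ j ∈ W, ∫ ω, (F i).indicator (fun _ => (1 : ℝ)) ω *
      (F j).indicator (fun _ => (1 : ℝ)) ω ∂μ = μ.real (F i ∩ F j) := by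
    intro i hi j hj
    have : (fun ω => (F i).indicator (fun _ => (1 : ℝ)) ω * (F j).indicator (fun _ => (1 : ℝ)) ω) =
        (F i ∩ F j).indicator (fun _ => (1 : ℝ)) := by
      ext ω
      by_cases h1 : ω ∈ F i <;> by_cases h2 : ω ∈ F j <;> simp [h1, h2]
    rw [this, integral_indicator ((hF i hi).inter (hF j hj))]
    simp
  have hE : ∫ ω, N ω ∂μ = L := by
    rw [hN, integral_finset_sum W hint, hL]
    refine Finset.sum_congr rfl fun i hi => ?_
    rw [integral_indicator (hF i hi)]
    simp
  have hNint : Integrable N μ := by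
    rw [hN]; exact integrable_finset_sum W hint
  have hN2eq : ∀ ω, N ω * N ω = ∑ i ∈ W, ∑ j ∈ W, (F i).indicator (fun _ => (1 : ℝ)) ω *
      (F j).indicator (fun _ => (1 : ℝ)) ω := by
    intro ω; rw [hN]; simp only; rw [Finset.sum_mul_sum]
  have hN2int : Integrable (fun ω => N ω * N ω) μ := by
    simp_rw [hN2eq]
    exact integrable_finset_sum W fun i hi => integrable_finset_sum W fun j hj => hintij i hi j hj
  have hE2 : ∫ ω, N ω * N ω ∂μ ≤ L + (1 + δ) * (L * L) := by
    simp_rw [hN2eq]
    rw [integral_finset_sum W fun i hi => integrable_finset_sum W fun j hj => hintij i hi j hj]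
    have h1 : ∀ i ∈ W, ∫ ω, ∑ j ∈ W, (F i).indicator (fun _ => (1 : ℝ)) ω *
        (F j).indicator (fun _ => (1 : ℝ)) ω ∂μ ≤
          μ.real (F i) + (1 + δ) * (μ.real (F i) * L) := by
      intro i hi
      rw [integral_finset_sum W fun j hj => hintij i hi j hj, ← Finset.add_sum_erase W _ hi,
        hEij i hi i hi, Set.inter_self]
      have h2 : ∑ j ∈ W.erase i, ∫ ω, (F i).indicator (fun _ => (1 : ℝ)) ω *
          (F j).indicator (fun _ => (1 : ℝ)) ω ∂μ ≤
            ∑ j ∈ W.erase i, (1 + δ) * (μ.real (F i) * μ.real (F j)) := by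
        apply Finset.sum_le_sum
        intro j hj
        rw [Finset.mem_erase] at hj
        rw [hEij i hi j hj.2]
        exact hneg i hi j hj.2 (Ne.symm hj.1)
      have h3 : ∑ j ∈ W.erase i, (1 + δ) * (μ.real (F i) * μ.real (F j)) ≤
          (1 + δ) * (μ.real (F i) * L) := by
        rw [hL, Finset.mul_sum, Finset.mul_sum]
        apply Finset.sum_le_sum_of_subset_of_nonneg (Finset.erase_subset _ _)
        intro j _ _
        exact mul_nonneg (by linarith) (mul_nonneg measureReal_nonneg measureReal_nonneg)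
      linarith
    calc ∑ i ∈ W, ∫ ω, ∑ j ∈ W, (F i).indicator (fun _ => (1 : ℝ)) ω *
        (F j).indicator (fun _ => (1 : ℝ)) ω ∂μ ≤
          ∑ i ∈ W, (μ.real (F i) + (1 + δ) * (μ.real (F i) * L)) := Finset.sum_le_sum h1
      _ = L + (1 + δ) * (L * L) := by
          rw [Finset.sum_add_distrib, ← Finset.mul_sum, ← Finset.sum_mul]
  have hvar : ∫ ω, (N ω - L) * (N ω - L) ∂μ ≤ L + δ * (L * L) := by
    have e : ∀ ω, (N ω - L) * (N ω - L) = N ω * N ω - (2 * L) * N ω + L * L := fun ω => by ring
    simp_rw [e]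
    have i1 : Integrable (fun ω => 2 * L * N ω) μ := hNint.const_mul _
    have i2 : Integrable (fun ω => N ω * N ω - 2 * L * N ω) μ := hN2int.sub i1
    rw [integral_add i2 (integrable_const _), integral_sub hN2int i1, integral_const_mul, hE]
    simp only [integral_const, probReal_univ, smul_eq_mul, one_mul]
    linarith
  set Z : Set Ω := {ω | ∀ i ∈ W, ω ∉ F i} with hZ
  have hZm : MeasurableSet Z := by
    have : Z = ⋂ i ∈ W, (F i)ᶜ := by ext ω; simp [hZ]
    rw [this]
    exact Finset.measurableSet_biInter _ fun i hi => (hF i hi).compl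
  have hmain : μ.real Z * (L * L) ≤ L + δ * (L * L) := by
    have h1 : ∫ ω, Z.indicator (fun _ => L * L) ω ∂μ ≤ ∫ ω, (N ω - L) * (N ω - L) ∂μ := by
      apply integral_mono ((integrable_const _).indicator hZm)
      · have e : (fun ω => (N ω - L) * (N ω - L)) = fun ω => N ω * N ω - (2 * L) * N ω + L * L := by
          ext ω; ring
        rw [e]
        exact (hN2int.sub (hNint.const_mul _)).add (integrable_const _)
      · intro ω
        by_cases hω : ω ∈ Z
        · have hNω : N ω = 0 := by
            rw [hN]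
            apply Finset.sum_eq_zero
            intro i hi
            exact Set.indicator_of_notMem (hω i hi) _
          simp only [Set.indicator_of_mem hω, hNω]
          apply le_of_eq; ring
        · simp only [Set.indicator_of_notMem hω]
          exact mul_self_nonneg _
    rw [integral_indicator hZm] at h1
    simp only [integral_const, smul_eq_mul, measureReal_restrict_apply MeasurableSet.univ,
      Set.univ_inter] at h1
    linarith
  have h2 : μ.real Z ≤ δ + 1 / L := by
    have e : (δ + 1 / L) * (L * L) = L + δ * (L * L) := by field_simp; ring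
    rw [← e] at hmain
    exact le_of_mul_le_mul_right hmain (mul_pos hL0 hL0)
  have := one_div_le_one_div_of_le hlam hsum
  linarith

end Pool.Agent.Work.MP_b0c12c_nt_helper41
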