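import Pool.Agent.Work.MP_b0c12c_nt_helper41.Count

/-!
# Sizes of the parameters
-/

set_option autoImplicit false

open Finset Filter Topology

namespace Pool.Agent.Work.MP_b0c12c_nt_helper41

theorem ell_pow_div {a : ℝ} (ha : 0 < a) (k : ℕ) :
    Tendsto (fun x : ℕ => ell x ^ k / (x : ℝ) ^ a) atTop (𝓝 0) := by
  have h1 : Tendsto (fun t : ℝ => Real.log t ^ (k : ℝ) / t ^ a) atTop (𝓝 0) :=
    (isLittleO_log_rpow_rpow_atTop (k : ℝ) ha).tendsto_div_nhds_zero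
  have h2 := h1.comp tendsto_natCast_atTop_atTop
  refine h2.congr fun x => ?_
  simp only [Function.comp_apply, ell, Real.rpow_natCast]

/-- polynomials in `log x` are smaller than powers of `x` -/
theorem poly_small {f : ℕ → ℝ} {k : ℕ} {c a : ℝ} (ha : 0 < a)
    (h : Tendsto (fun x => f x / ell x ^ k) atTop (𝓝 c)) :
    Tendsto (fun x => f x / (x : ℝ) ^ a) atTop (𝓝 0) := by
  have h1 := h.mul (ell_pow_div ha k)
  rw [mul_zero] at h1
  refine h1.congr' ?_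
  filter_upwards [ell_tendsto.eventually_gt_atTop 0] with x hx
  field_simp

theorem rpow_small {a b : ℝ} (hab : a < b) :
    Tendsto (fun x : ℕ => (x : ℝ) ^ a / (x : ℝ) ^ b) atTop (𝓝 0) := by
  have h1 : Tendsto (fun t : ℝ => t ^ (-(b - a))) atTop (𝓝 0) :=
    tendsto_rpow_neg_atTop (by linarith)
  have h2 := h1.comp tendsto_natCast_atTop_atTop
  refine h2.congr' ?_
  filter_upwards [eventually_gt_atTop 0] with x hx
  have hx0 : (0 : ℝ) < x := by exact_mod_cast hx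
  simp only [Function.comp_apply]
  rw [← Real.rpow_sub hx0]
  congr 1; ring

theorem yf_small {lam a : ℝ} (hl : 0 ≤ lam) (ha : 0 < a) :
    Tendsto (fun x => (yf lam x : ℝ) / (x : ℝ) ^ a) atTop (𝓝 0) :=
  poly_small ha (yf_div hl)

theorem primorial_le {e₁ : ℝ} (he₁ : 0 < e₁) : ∀ᶠ x : ℕ in atTop,
    (primorial (wf e₁ x) : ℝ) ≤ (x : ℝ) ^ (3 / 2 * e₁) := by
  filter_upwards [ell_tendsto.eventually_gt_atTop 0, eventually_gt_atTop 0] with x h1 h2
  have hx0 : (0 : ℝ) < x := by exact_mod_cast h2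
  have h3 : (primorial (wf e₁ x) : ℝ) ≤ (4 : ℝ) ^ (wf e₁ x) := by
    exact_mod_cast primorial_le_four_pow (wf e₁ x)
  refine h3.trans ?_
  rw [Real.rpow_def_of_pos hx0, ← Real.exp_log (show (0:ℝ) < 4 by norm_num), ← Real.exp_nat_mul]
  apply Real.exp_le_exp.2
  have h4 : Real.log 4 ≤ 3 / 2 := by
    have : (4 : ℝ) = 2 ^ 2 := by norm_num
    rw [this, Real.log_pow]
    have := Real.log_two_lt_d9
    push_cast
    linarith
  have h5 : (wf e₁ x : ℝ) ≤ e₁ * ell x := Nat.floor_le (by positivity)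
  have h6 : 0 ≤ Real.log 4 := Real.log_nonneg (by norm_num)
  calc (wf e₁ x : ℝ) * Real.log 4 ≤ (e₁ * ell x) * (3 / 2) :=
        mul_le_mul h5 h4 h6 (by positivity)
    _ = Real.log x * (3 / 2 * e₁) := by rw [ell]; ring

theorem le_primorial {e₁ : ℝ} (he₁ : 0 < e₁) : ∀ᶠ x : ℕ in atTop,
    (x : ℝ) ^ (e₁ / 4) ≤ (primorial (wf e₁ x) : ℝ) := by
  have h1 : Tendsto (fun x => Chebyshev.theta (wf e₁ x) / (wf e₁ x : ℝ)) atTop (𝓝 1) :=
    PNT70.theta_tendsto.comp (tendsto_natCast_atTop_atTop.comp (wf_tendsto he₁))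
  have h2 := h1.mul (wf_div he₁.le)
  rw [one_mul] at h2
  filter_upwards [h2.eventually_const_lt (show e₁ / 4 < e₁ by linarith),
    ell_tendsto.eventually_gt_atTop 0, eventually_gt_atTop 0,
    (wf_tendsto he₁).eventually_gt_atTop 0] with x h3 h4 h5 h6
  have hx0 : (0 : ℝ) < x := by exact_mod_cast h5
  have hw0 : (0 : ℝ) < wf e₁ x := by exact_mod_cast h6
  have h7 : Chebyshev.theta (wf e₁ x) / (wf e₁ x : ℝ) * ((wf e₁ x : ℝ) / ell x) =
      Chebyshev.theta (wf e₁ x) / ell x := by field_simp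
  rw [h7, lt_div_iff₀ h4, Chebyshev.theta_eq_log_primorial, Nat.floor_natCast] at h3
  rw [Real.rpow_def_of_pos hx0]
  rw [← Real.exp_log (show (0:ℝ) < primorial (wf e₁ x) by exact_mod_cast primorial_pos _)]
  apply Real.exp_le_exp.2
  rw [ell] at h3
  linarith

theorem yf_le_primorial {e₁ lam : ℝ} (he₁ : 0 < e₁) (hl : 0 ≤ lam) : ∀ᶠ x : ℕ in atTop,
    yf lam x ≤ primorial (wf e₁ x) := by
  have h1 := yf_small (lam := lam) (a := e₁ / 4) hl (by positivity)
  filter_upwards [le_primorial he₁, h1.eventually_lt_const (show (0:ℝ) < 1 by norm_num),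
    eventually_gt_atTop 0] with x h2 h3 h4
  have hx0 : (0 : ℝ) < x := by exact_mod_cast h4
  have h5 : (0 : ℝ) < (x : ℝ) ^ (e₁ / 4) := Real.rpow_pos_of_pos hx0 _
  rw [div_lt_one h5] at h3
  exact_mod_cast h3.le.trans h2

/-- number of windows -/
noncomputable def Hf (e₁ : ℝ) (x : ℕ) : ℕ := x / primorial (wf e₁ x) - 1

theorem Hf_ge {e₁ : ℝ} (he₁ : 0 < e₁) (he₁' : e₁ < 1 / 2) : ∀ᶠ x : ℕ in atTop,
    (x : ℝ) ^ (1 - 2 * e₁) ≤ Hf e₁ x := by
  have h1 := rpow_small (a := 1 - 2 * e₁) (b := 1 - 3 / 2 * e₁) (by linarith)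
  have h2 := rpow_small (a := 0) (b := 1 - 3 / 2 * e₁) (by linarith)
  filter_upwards [primorial_le he₁, h1.eventually_lt_const (show (0:ℝ) < 1 / 2 by norm_num),
    h2.eventually_lt_const (show (0:ℝ) < 1 / 4 by norm_num),
    eventually_gt_atTop 0] with x h3 h4 h5 h6
  have hx0 : (0 : ℝ) < x := by exact_mod_cast h6
  have hP0 : (0 : ℝ) < primorial (wf e₁ x) := by exact_mod_cast primorial_pos _
  set A := (x : ℝ) ^ (1 - 3 / 2 * e₁) with hA
  have hA0 : 0 < A := Real.rpow_pos_of_pos hx0 _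
  rw [div_lt_iff₀ hA0] at h4 h5
  rw [Real.rpow_zero] at h5
  have h7 : A ≤ x / primorial (wf e₁ x) := by
    rw [le_div_iff₀ hP0]
    calc A * primorial (wf e₁ x) ≤ A * (x : ℝ) ^ (3 / 2 * e₁) :=
          mul_le_mul_of_nonneg_left h3 hA0.le
      _ = x := by
          rw [hA, ← Real.rpow_add hx0]
          have : 1 - 3 / 2 * e₁ + 3 / 2 * e₁ = 1 := by ring
          rw [this, Real.rpow_one]
  have h8 : (x : ℝ) / primorial (wf e₁ x) - 1 < ((x / primorial (wf e₁ x) : ℕ) : ℝ) := by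
    have := Nat.lt_floor_add_one ((x : ℝ) / primorial (wf e₁ x))
    rw [Nat.floor_div_eq_div] at this
    linarith
  have h9 : 1 ≤ x / primorial (wf e₁ x) := by
    have : (0:ℝ) < ((x / primorial (wf e₁ x) : ℕ) : ℝ) := by linarith
    have : 0 < x / primorial (wf e₁ x) := by exact_mod_cast this
    omega
  rw [Hf, Nat.cast_sub h9]
  push_cast
  linarith

theorem err_small {e₁ e lam : ℝ} (he₁ : 0 < e₁) (hl : 0 < lam) (he : 2 * e < 1 - 2 * e₁)
    (he₁' : e₁ < 1 / 2) : ∀ᶠ x : ℕ in atTop,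
    JU lam e₁ x * ((zf e x : ℝ) ^ 2 / Hf e₁ x) ≤ 1 := by
  set g := (1 - 2 * e₁) - 2 * e with hg
  have hg0 : 0 < g := by linarith
  have h1 : Tendsto (fun x => JU lam e₁ x / ell x ^ 2) atTop (𝓝 0) := by
    have h := (JU_tendsto hl he₁).div_atTop (Real.tendsto_log_atTop.comp ell_tendsto)
    refine h.congr' ?_
    filter_upwards [(Real.tendsto_log_atTop.comp ell_tendsto).eventually_gt_atTop 0] with x hx
    simp only [Function.comp_apply] at hx ⊢
    field_simp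
  have h2 := poly_small hg0 h1
  filter_upwards [Hf_ge he₁ he₁', h2.eventually_lt_const (show (0:ℝ) < 1 by norm_num),
    eventually_gt_atTop 0] with x h3 h4 h5
  have hx0 : (0 : ℝ) < x := by exact_mod_cast h5
  have hG0 : (0 : ℝ) < (x : ℝ) ^ g := Real.rpow_pos_of_pos hx0 _
  have hB0 : (0 : ℝ) < (x : ℝ) ^ (1 - 2 * e₁) := Real.rpow_pos_of_pos hx0 _
  have hE0 : (0 : ℝ) < (x : ℝ) ^ e := Real.rpow_pos_of_pos hx0 _
  rw [div_lt_one hG0] at h4
  have hJ : 0 ≤ JU lam e₁ x := by rw [JU]; positivity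
  have h6 : (zf e x : ℝ) ≤ (x : ℝ) ^ e := Nat.floor_le hE0.le
  have h7 : (zf e x : ℝ) ^ 2 / Hf e₁ x ≤ ((x : ℝ) ^ e) ^ 2 / (x : ℝ) ^ (1 - 2 * e₁) := by
    apply div_le_div₀ (by positivity) (pow_le_pow_left₀ (by positivity) h6 2) hB0 h3
  have h8 : ((x : ℝ) ^ e) ^ 2 / (x : ℝ) ^ (1 - 2 * e₁) = 1 / (x : ℝ) ^ g := by
    rw [← Real.rpow_natCast, ← Real.rpow_mul hx0.le, ← Real.rpow_sub hx0, one_div,
      ← Real.rpow_neg hx0.le]
    congr 1
    rw [hg]
    push_cast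
    ring
  rw [h8] at h7
  calc JU lam e₁ x * ((zf e x : ℝ) ^ 2 / Hf e₁ x) ≤ JU lam e₁ x * (1 / (x : ℝ) ^ g) :=
        mul_le_mul_of_nonneg_left h7 hJ
    _ ≤ (x : ℝ) ^ g * (1 / (x : ℝ) ^ g) := mul_le_mul_of_nonneg_right h4.le (by positivity)
    _ = 1 := by field_simp

/-- number of binary digits of `2x` -/
def Kf (x : ℕ) : ℕ := Nat.log 2 (2 * x) + 1

theorem lt_two_pow_Kf (x : ℕ) : 2 * x < 2 ^ Kf x := Nat.lt_pow_succ_log_self (by norm_num) _

theorem Kf_le : ∀ᶠ x : ℕ in atTop, (Kf x : ℝ) ≤ 4 * ell x := by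
  filter_upwards [ell_tendsto.eventually_ge_atTop 4, eventually_gt_atTop 0] with x h1 h2
  have hx0 : (0 : ℝ) < x := by exact_mod_cast h2
  have h3 : ((Nat.log 2 (2 * x) : ℕ) : ℝ) * Real.log 2 ≤ Real.log (2 * (x : ℝ)) := by
    rw [← Real.log_pow]
    apply Real.log_le_log (by positivity)
    have := Nat.pow_log_le_self 2 (show 2 * x ≠ 0 by omega)
    exact_mod_cast this
  rw [Real.log_mul (by norm_num) hx0.ne'] at h3
  have h4 := Real.log_two_gt_d9
  have h5 := Real.log_two_lt_d9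
  rw [Kf]
  push_cast
  rw [ell] at h1 ⊢
  have h6 : (0:ℝ) ≤ (Nat.log 2 (2 * x) : ℕ) := by positivity
  nlinarith

theorem y2K_small {lam θ : ℝ} (hl : 0 < lam) (hθ : 0 < θ) :
    Tendsto (fun x => (yf lam x : ℝ) ^ 2 * Kf x / (x : ℝ) ^ θ) atTop (𝓝 0) := by
  have h1 : Tendsto (fun x => (yf lam x : ℝ) ^ 2 * (4 * ell x) / (x : ℝ) ^ θ) atTop (𝓝 0) := by
    have h2 : Tendsto (fun x => ((yf lam x : ℝ) ^ 2 * (4 * ell x)) / ell x ^ 5) atTop
        (𝓝 (lam ^ 2 * 4)) := by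
      have h := ((yf_div hl.le).pow 2).mul_const 4
      refine h.congr' ?_
      filter_upwards [ell_tendsto.eventually_gt_atTop 0] with x hx
      field_simp
    exact poly_small hθ h2
  refine squeeze_zero' ?_ ?_ h1
  · filter_upwards [eventually_gt_atTop 0] with x hx
    positivity
  · filter_upwards [Kf_le, eventually_gt_atTop 0] with x hx hx'
    have hx0 : (0 : ℝ) < x := by exact_mod_cast hx'
    have : (0 : ℝ) < (x : ℝ) ^ θ := Real.rpow_pos_of_pos hx0 _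
    apply div_le_div_of_nonneg_right _ this.le
    exact mul_le_mul_of_nonneg_left hx (by positivity)

end Pool.Agent.Work.MP_b0c12c_nt_helper41
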